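import Mathlib
import Pool.Agent.Shared.Subspace.RothAux

/-!
Definitions for the window theorem on products of equal degree.
-/

set_option autoImplicit false

namespace Pool.Agent.Lib.MP_4ffbf9_nt.PR

open MvPolynomial Pool.Agent.Subspace

abbrev RZ (σ : Type) := MvPolynomial σ ℤ

abbrev RQ (σ : Type) := MvPolynomial σ ℚ

noncomputable abbrev toQ {σ : Type} : RZ σ →+* RQ σ := MvPolynomial.map (Int.castRingHom ℚ)

/-- `G` vanishes at `p` to order at least `μ`. -/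
def Van {σ : Type} (p : σ → ℚ) (μ : ℕ) (G : RQ σ) : Prop :=
  IdxGe (fun _ => (1 : ℝ)) (μ : ℝ) (shift p G)

theorem van_iff {σ : Type} [Fintype σ] (p : σ → ℚ) (μ : ℕ) (G : RQ σ) :
    Van p μ G ↔ ∀ ν : σ →₀ ℕ, ∑ i, ν i < μ → coeff ν (shift p G) = 0 := by
  refine forall_congr' fun ν => ?_
  rw [MvPolynomial.mem_support_iff, Finsupp.weight_eq_sum]
  simp only [nsmul_eq_mul, mul_one]
  rw [← Nat.cast_sum, Nat.cast_le, ← not_le, not_imp_comm]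

theorem Van.mono {σ : Type} [Fintype σ] {p : σ → ℚ} {μ μ' : ℕ} {G : RQ σ} (h : Van p μ G)
    (hμ : μ' ≤ μ) : Van p μ' G :=
  (van_iff _ _ _).2 fun ν hν => (van_iff _ _ _).1 h ν (hν.trans_le hμ)

/-- The polynomial `∑ l, u ^ l * P l`. -/
noncomputable def GG {σ : Type} {r : ℕ} (P : Fin r → RZ σ) (u : ℚ) : RQ σ :=
  ∑ l : Fin r, C (u ^ (l : ℕ)) * toQ (P l)

/-- The value of a monomial. -/
def mon {σ : Type} [Fintype σ] (x : σ → ℕ) (e : σ →₀ ℕ) : ℕ := ∏ i, x i ^ e i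

/-- The gcd condition of the problem. -/
def GcdOk (Q : ℝ) (X Y : ℕ) : Prop :=
  (Nat.gcd X Y : ℝ) / (∏ l ∈ (Nat.gcd X Y).primeFactors, (l : ℝ)) ≤ Q

/-- A solution in products of degree `n` with `R` values each, all values at most `h`, cofactors at
most `exp (n ^ (1 - ε)) * h ^ S`. -/
structure Sol (A B C R S : ℕ) (Q ε : ℝ) (n h : ℕ) (a : Fin 3 → ℕ) (w m : Fin 3 → Fin R → ℕ) :
    Prop where
  eq : A * (a 0 * ∏ i, w 0 i ^ m 0 i) + B * (a 1 * ∏ i, w 1 i ^ m 1 i) =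
    C * (a 2 * ∏ i, w 2 i ^ m 2 i)
  gcd : GcdOk Q (a 0 * ∏ i, w 0 i ^ m 0 i) (a 1 * ∏ i, w 1 i ^ m 1 i)
  a_pos : ∀ k, 0 < a k
  a_le : ∀ k, (a k : ℝ) ≤ Real.exp ((n : ℝ) ^ (1 - ε)) * (h : ℝ) ^ S
  deg : ∀ k, ∑ i, m k i = n
  w_pos : ∀ k i, 0 < w k i
  w_le : ∀ k i, w k i ≤ h

end Pool.Agent.Lib.MP_4ffbf9_nt.PR
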