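import Mathlib
import Pool.Agent.Lib.MP_4ffbf9_nt.PR.Defs
import Pool.Agent.Lib.MP_4ffbf9_nt.H.Fin

set_option autoImplicit false

namespace Pool.Agent.Lib.MP_4ffbf9_nt.PR

open MvPolynomial Pool.Agent.Subspace

/-- Equal exponents and bounded roots: finitely many solutions. -/
theorem bdd_fin (A B C : ℕ) (Q Λ : ℝ) (hA : 0 < A) (hB : 0 < B) (hC : 0 < C) :
    {X : Fin 3 → ℕ | (∀ i, 0 < X i) ∧ A * X 0 + B * X 1 = C * X 2 ∧ GcdOk Q (X 0) (X 1) ∧
      ∃ (p : ℕ) (a x : Fin 3 → ℕ) (L : ℝ), 2 ≤ p ∧ (∀ i, X i = a i * x i ^ p) ∧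
        (∀ i, Real.log (X i) ≤ L) ∧ (∃ i, L = Real.log (X i)) ∧
        (∀ i, Real.log (a i) ≤ 1 / 10 * L) ∧ 1 / 2 ≤ L / p ∧ L / p ≤ Λ}.Finite := by
  obtain ⟨N, hN, H'⟩ := H.fixed_finite (η := 1 / 10) (by norm_num) (by norm_num)
  have hN0 : (0 : ℝ) < N := by exact_mod_cast hN
  have hA' : ∀ i, (![(A : ℤ), (B : ℤ), -(C : ℤ)] : Fin 3 → ℤ) i ≠ 0 := by
    intro i; fin_cases i <;> simp <;> omega
  have hfin := ((Set.Finite.pi' fun _ : Fin 3 => Set.finite_le_nat ⌈Real.exp Λ⌉₊).prod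
    (Set.Finite.pi' fun _ : Fin 3 => Set.finite_Icc N ⌊2 * N * Λ⌋₊)).biUnion
    fun w hw => H' ![(A : ℤ), (B : ℤ), -(C : ℤ)] ((A * B * ⌈Q⌉₊) ^ 2) w.1 w.2 hA'
      fun i => (hw.2 i).1
  refine hfin.subset ?_
  rintro X ⟨hX, heq, hQ, p, a, x, L, hp, e, hu, hm, ha, hlo, hhi⟩
  have hp0 : 0 < p := by omega
  have hpr : (0 : ℝ) < p := by exact_mod_cast hp0
  have ha0 : ∀ i, 0 < a i := fun i => Nat.pos_of_mul_pos_right (e i ▸ hX i)
  have hx0 : ∀ i, 0 < x i := fun i => Nat.pos_of_ne_zero fun h => by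
    have := Nat.pos_of_mul_pos_left (e i ▸ hX i)
    rw [h, zero_pow hp0.ne'] at this
    exact lt_irrefl _ this
  have hxr : ∀ i, (0 : ℝ) < x i := fun i => by exact_mod_cast hx0 i
  have hlx : ∀ i, Real.log (x i) ≤ L / p := fun i => by
    rw [le_div_iff₀ hpr, mul_comm, ← Real.log_pow]
    refine (Real.log_le_log (pow_pos (hxr i) _) ?_).trans (hu i)
    rw [e i]
    exact_mod_cast Nat.le_mul_of_pos_left _ (ha0 i)
  have hq' : Nat.gcd (X 0) (X 1) ≤ ⌈Q⌉₊ * ∏ l ∈ (Nat.gcd (X 0) (X 1)).primeFactors, l := by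
    have h0 : (0 : ℝ) < ∏ l ∈ (Nat.gcd (X 0) (X 1)).primeFactors, (l : ℝ) :=
      Finset.prod_pos fun l hl => by exact_mod_cast (Nat.prime_of_mem_primeFactors hl).pos
    unfold GcdOk at hQ
    rw [div_le_iff₀ h0] at hQ
    have h1 := hQ.trans (mul_le_mul_of_nonneg_right (Nat.le_ceil Q) h0.le)
    rw [← Nat.cast_prod] at h1
    exact_mod_cast h1
  have hg : 0 < Nat.gcd (X 0) (X 1) := Nat.gcd_pos_of_pos_left _ (hX 0)
  have dX : ∀ i, x i ^ p ∣ X i := fun i => Dvd.intro_left _ (e i).symm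
  have hAB : 0 < A * B := Nat.mul_pos hA hB
  have g1 : Nat.gcd (x 0 ^ p) (x 1 ^ p) ≤ (A * B * ⌈Q⌉₊) ^ 2 :=
    H.gcd_pow_bound hAB hg hp hp hq'
      ((Nat.dvd_gcd ((Nat.gcd_dvd_left _ _).trans (dX 0))
        ((Nat.gcd_dvd_right _ _).trans (dX 1))).mul_left _)
  have g2 : Nat.gcd (x 0 ^ p) (x 2 ^ p) ≤ (A * B * ⌈Q⌉₊) ^ 2 := by
    refine H.gcd_pow_bound hAB hg hp hp hq' ?_
    rw [mul_assoc, ← Nat.gcd_mul_left]
    have h1 := (Nat.gcd_dvd_left (x 0 ^ p) (x 2 ^ p)).trans (dX 0)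
    refine (Nat.dvd_gcd (h1.mul_left _) ?_).mul_left _
    refine (Nat.dvd_add_right (h1.mul_left A)).1 ?_
    rw [heq]
    exact ((Nat.gcd_dvd_right _ _).trans (dX 2)).mul_left _
  have g3 : Nat.gcd (x 1 ^ p) (x 2 ^ p) ≤ (A * B * ⌈Q⌉₊) ^ 2 := by
    refine H.gcd_pow_bound hAB hg hp hp hq' ?_
    rw [mul_comm A, mul_assoc, ← Nat.gcd_mul_left]
    have h1 := (Nat.gcd_dvd_left (x 1 ^ p) (x 2 ^ p)).trans (dX 1)
    refine (Nat.dvd_gcd ?_ (h1.mul_left _)).mul_left _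
    refine (Nat.dvd_add_left (h1.mul_left B)).1 ?_
    rw [heq]
    exact ((Nat.gcd_dvd_right _ _).trans (dX 2)).mul_left _
  have hLp : 0 ≤ L / p := by linarith
  refine Set.mem_biUnion (x := (x, fun _ => ⌊2 * N * (L / p)⌋₊))
    ⟨fun i => ?_, fun i => ⟨?_, ?_⟩⟩ ⟨by norm_num, hX, ?_, fun _ => p, a, L, e, hu, hm, ha,
      fun i j hij => ?_, fun i => ?_⟩
  · have h1 := (Real.log_le_iff_le_exp (hxr i)).mp ((hlx i).trans hhi)
    exact_mod_cast h1.trans (Nat.le_ceil _)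
  · exact Nat.le_floor (by linarith [mul_le_mul_of_nonneg_left hlo hN0.le])
  · exact Nat.floor_le_floor (mul_le_mul_of_nonneg_left hhi (by positivity))
  · have : (A : ℤ) * X 0 + B * X 1 = C * X 2 := by exact_mod_cast heq
    rw [Fin.sum_univ_three]
    simp only [Matrix.cons_val_zero, Matrix.cons_val_one, Matrix.cons_val]
    linarith
  · fin_cases i <;> fin_cases j
    · exact absurd rfl hij
    · exact g1
    · exact g2
    · exact (Nat.gcd_comm _ _).trans_le g1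
    · exact absurd rfl hij
    · exact g3
    · exact (Nat.gcd_comm _ _).trans_le g2
    · exact (Nat.gcd_comm _ _).trans_le g3
    · exact absurd rfl hij
  · have h2 := Nat.floor_le (show 0 ≤ 2 * N * (L / p) by positivity)
    have h3 := (Nat.lt_floor_add_one (2 * N * (L / p))).le
    refine ⟨hp0, ?_, ?_⟩
    · rwa [← le_div_iff₀ hpr, mul_div_assoc]
    · rwa [← div_le_iff₀ hpr, mul_div_assoc]

theorem bdd_small {ε : ℝ} (hε : 0 < ε) :
    ∃ n1 : ℕ, ∀ n : ℕ, n1 ≤ n → (n : ℝ) ^ (1 - ε) ≤ n / 150 := by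
  have h1 : Filter.Tendsto (fun n : ℕ => (n : ℝ) ^ (-ε)) Filter.atTop (nhds 0) :=
    (tendsto_rpow_neg_atTop hε).comp tendsto_natCast_atTop_atTop
  obtain ⟨n1, hn1⟩ := Filter.eventually_atTop.mp
    (h1.eventually (gt_mem_nhds (by norm_num : (0 : ℝ) < 1 / 150)))
  refine ⟨n1 + 1, fun n hn => ?_⟩
  have h0 : (0 : ℝ) < n := by exact_mod_cast (by omega : 0 < n)
  have h2 := (hn1 n (by omega)).le
  rw [sub_eq_add_neg, Real.rpow_add h0, Real.rpow_one]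
  nlinarith

theorem bdd_log {R H : ℕ} (w m : Fin R → ℕ) (hw : ∀ i, 0 < w i) (hH : ∀ i, w i ≤ H) :
    Real.log ((∏ i, w i ^ m i : ℕ) : ℝ) ≤ (∑ i, m i : ℕ) * (H : ℝ) := by
  push_cast
  rw [Real.log_prod (fun i _ => pow_ne_zero _ (by exact_mod_cast (hw i).ne')), Finset.sum_mul]
  refine Finset.sum_le_sum fun i _ => ?_
  rw [Real.log_pow]
  refine mul_le_mul_of_nonneg_left ?_ (Nat.cast_nonneg _)
  have h1 : (0 : ℝ) < w i := by exact_mod_cast hw i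
  have h2 : (w i : ℝ) ≤ H := by exact_mod_cast hH i
  linarith [Real.log_le_sub_one_of_pos h1]

/-- Bounded values (Ridout type). -/
theorem bdd (A B C R S : ℕ) (Q ε : ℝ) (hA : 0 < A) (hB : 0 < B) (hC : 0 < C) (hε : 0 < ε)
    (h1 : ℕ) : ∃ n0 : ℕ, ∀ (n h : ℕ) (a : Fin 3 → ℕ) (w m : Fin 3 → Fin R → ℕ), n0 ≤ n → h ≤ h1 →
      Sol A B C R S Q ε n h a w m → ∏ k, (a k * ∏ i, w k i ^ m k i) < 2 ^ n := by
  obtain ⟨n1, hn1⟩ := bdd_small hε
  obtain ⟨T, hT⟩ : ∃ T : ℕ, T = 150 * (R * (h1 + 1)) + 3 := ⟨_, rfl⟩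
  have hfin := bdd_fin A B C Q (2 * T * (h1 + 2)) hA hB hC
  obtain ⟨M, hM⟩ := (hfin.image fun X => ∏ k, X k).bddAbove
  refine ⟨n1 + 2 * T + 150 * (S * (h1 + 1)) + M, fun n h a w m hn hh hs => ?_⟩
  by_contra hcon
  rw [not_lt] at hcon
  set X : Fin 3 → ℕ := fun k => a k * ∏ i, w k i ^ m k i with hXdef
  have hX : ∀ k, 0 < X k := fun k =>
    Nat.mul_pos (hs.a_pos k) (Finset.prod_pos fun i _ => pow_pos (hs.w_pos k i) _)
  have hXr : ∀ k, (0 : ℝ) < X k := fun k => by exact_mod_cast hX k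
  have hT0 : 0 < T := by omega
  have hTr : (0 : ℝ) < T := by exact_mod_cast hT0
  obtain ⟨p, hpdef⟩ : ∃ p : ℕ, p = n / T := ⟨_, rfl⟩
  have hp2 : 2 ≤ p := by
    rw [hpdef, Nat.le_div_iff_mul_le hT0]; omega
  have hpT : p * T ≤ n := by rw [hpdef]; exact Nat.div_mul_le_self n T
  have hpT2 : n ≤ 2 * (p * T) := by
    have h2 : n < (p + 1) * T := by
      rw [hpdef, mul_comm]; exact Nat.lt_mul_div_succ n hT0
    nlinarith
  have hpr : (0 : ℝ) < p := by exact_mod_cast (by omega : 0 < p)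
  have hpTr : (p : ℝ) * T ≤ n := by exact_mod_cast hpT
  have hpT2r : (n : ℝ) ≤ 2 * (p * T) := by exact_mod_cast hpT2
  have hn0 : (0 : ℝ) ≤ n := Nat.cast_nonneg n
  obtain ⟨k0, -, hk0⟩ := Finset.exists_max_image Finset.univ (fun k => Real.log (X k))
    Finset.univ_nonempty
  set L := Real.log (X k0) with hL
  have hu : ∀ k, Real.log (X k) ≤ L := fun k => hk0 k (Finset.mem_univ k)
  have hLlo : (n : ℝ) / 5 ≤ L := by
    have h2 : ((2 : ℝ) ^ n) ≤ ∏ k, (X k : ℝ) := by exact_mod_cast hcon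
    have h3 := Real.log_le_log (by positivity) h2
    rw [Real.log_pow, Real.log_prod (fun k _ => (hXr k).ne'), Fin.sum_univ_three] at h3
    nlinarith [hu 0, hu 1, hu 2, Real.log_two_gt_d9]
  have hla : ∀ k, Real.log (a k) ≤ n / 75 := fun k => by
    have h2 : (a k : ℝ) ≤ Real.exp ((n : ℝ) ^ (1 - ε)) * ((h1 : ℝ) + 1) ^ S := by
      refine (hs.a_le k).trans (mul_le_mul_of_nonneg_left ?_ (Real.exp_pos _).le)
      have : (h : ℝ) ≤ h1 := by exact_mod_cast hh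
      exact pow_le_pow_left₀ (Nat.cast_nonneg _) (by linarith) S
    have h3 := Real.log_le_log (by exact_mod_cast hs.a_pos k) h2
    rw [Real.log_mul (Real.exp_pos _).ne' (by positivity), Real.log_exp, Real.log_pow] at h3
    have h4 : Real.log ((h1 : ℝ) + 1) ≤ (h1 : ℝ) + 1 := by
      linarith [Real.log_le_sub_one_of_pos (by positivity : (0 : ℝ) < (h1 : ℝ) + 1)]
    have h5 : (150 : ℝ) * (S * ((h1 : ℝ) + 1)) ≤ n := by
      exact_mod_cast (by omega : 150 * (S * (h1 + 1)) ≤ n)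
    have h6 := mul_le_mul_of_nonneg_left h4 (Nat.cast_nonneg (α := ℝ) S)
    linarith [hn1 n (by omega)]
  have hwle : ∀ k i, w k i ≤ h1 + 1 := fun k i => by have := hs.w_le k i; omega
  have hprod : ∀ (k : Fin 3) (e : Fin R → ℕ), (0 : ℝ) < ((∏ i, w k i ^ e i : ℕ) : ℝ) :=
    fun k e => by exact_mod_cast Finset.prod_pos fun i _ => pow_pos (hs.w_pos k i) _
  have hlog : ∀ (k : Fin 3) (e : Fin R → ℕ), Real.log ((a k * ∏ i, w k i ^ e i : ℕ) : ℝ) ≤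
      n / 75 + (∑ i, e i : ℕ) * ((h1 : ℝ) + 1) := fun k e => by
    rw [Nat.cast_mul, Real.log_mul (by exact_mod_cast (hs.a_pos k).ne') (hprod k e).ne']
    have h2 := bdd_log (w k) e (hs.w_pos k) (hwle k)
    rw [Nat.cast_add, Nat.cast_one] at h2
    linarith [hla k]
  have hLhi : L ≤ n * ((h1 : ℝ) + 2) := by
    have h2 := hlog k0 (m k0)
    rw [hs.deg k0] at h2
    have h3 : L ≤ n / 75 + n * ((h1 : ℝ) + 1) := h2
    linarith
  have hmem : ∏ k, X k ≤ M := by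
    refine hM ⟨X, ⟨hX, hs.eq, hs.gcd, p, fun k => a k * ∏ i, w k i ^ (m k i % p),
      fun k => ∏ i, w k i ^ (m k i / p), L, hp2, fun k => ?_, hu, ⟨k0, rfl⟩, fun k => ?_,
      ?_, ?_⟩, rfl⟩
    · show a k * ∏ i, w k i ^ m k i =
        (a k * ∏ i, w k i ^ (m k i % p)) * (∏ i, w k i ^ (m k i / p)) ^ p
      rw [mul_assoc, ← Finset.prod_pow, ← Finset.prod_mul_distrib]
      refine congrArg _ (Finset.prod_congr rfl fun i _ => ?_)
      rw [← pow_mul, ← pow_add, Nat.mod_add_div']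
    · have h2 := hlog k fun i => m k i % p
      have h3 : ∑ i, m k i % p ≤ R * p := by
        calc ∑ i, m k i % p ≤ ∑ _i : Fin R, p :=
              Finset.sum_le_sum fun i _ => (Nat.mod_lt _ (by omega)).le
          _ = R * p := by simp
      have h4 : ((∑ i, m k i % p : ℕ) : ℝ) ≤ R * p := by exact_mod_cast h3
      have h5 : (T : ℝ) = 150 * (R * ((h1 : ℝ) + 1)) + 3 := by exact_mod_cast hT
      have h6 := mul_le_mul_of_nonneg_right h4 (by positivity : (0 : ℝ) ≤ (h1 : ℝ) + 1)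
      have h7 : (R : ℝ) * p * ((h1 : ℝ) + 1) ≤ n / 150 := by
        rw [h5] at hpTr
        nlinarith
      refine h2.trans ?_
      linarith
    · rw [le_div_iff₀ hpr]
      have h5 : (3 : ℝ) ≤ T := by exact_mod_cast (by omega : 3 ≤ T)
      nlinarith
    · rw [div_le_iff₀ hpr]
      have h2 := mul_le_mul_of_nonneg_right hpT2r (by positivity : (0 : ℝ) ≤ (h1 : ℝ) + 2)
      nlinarith
  have h2 : n < 2 ^ n := Nat.lt_two_pow_self
  have h3 : 2 ^ n ≤ ∏ k, X k := hcon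
  omega

end Pool.Agent.Lib.MP_4ffbf9_nt.PR
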