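import Mathlib
import Pool.Agent.Lib.MP_4ffbf9_nt.PR.Defs
import Pool.Agent.Lib.MP_4ffbf9_nt.MA.Final
import Pool.Agent.Lib.MP_4ffbf9_nt.SP.Baker

set_option autoImplicit false

namespace Pool.Agent.Lib.MP_4ffbf9_nt.PR

open MvPolynomial Pool.Agent.Subspace

theorem cl_rat (ι : Type) [Fintype ι] (o : ι) : ∃ c : ℝ, 0 < c ∧ ∀ (r s : ι → ℕ) (a : ι → ℝ)
    (b : ι → ℤ) (B : ℝ), (∀ i, 0 < r i ∧ 0 < s i ∧ 1 ≤ a i ∧ (r i : ℝ) ≤ Real.exp (a i) ∧
      (s i : ℝ) ≤ Real.exp (a i)) → 3 ≤ B → (∀ i, |(b i : ℝ)| ≤ B) →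
    ∑ i, (b i : ℝ) * Real.log ((r i : ℝ) / s i) ≠ 0 →
    Real.exp (-(c * (∏ i, a i) * Real.log B ^ 2)) ≤
      |∑ i, (b i : ℝ) * Real.log ((r i : ℝ) / s i)| := by
  obtain ⟨c, hc, h⟩ := SP.bk_bakerGen (Fintype.card ι) 1
  refine ⟨c, hc, fun r s a b B ha hB hb hne => ?_⟩
  let e := (Fintype.equivFin ι).symm
  have hs : ∑ i, ((b (e i) : ℤ) : ℂ) * ((Real.log ((r (e i) : ℝ) / s (e i)) : ℝ) : ℂ) =
      ((∑ i, (b i : ℝ) * Real.log ((r i : ℝ) / s i) : ℝ) : ℂ) := by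
    rw [Complex.ofReal_sum, ← e.sum_comp]
    simp only [Complex.ofReal_mul, Complex.ofReal_intCast]
  have key := h (fun i => ((Real.log ((r (e i) : ℝ) / s (e i)) : ℝ) : ℂ)) (fun i => a (e i))
    (fun i => b (e i)) (e.symm o) B
    (fun i => SP.bk_rat_data (ha _).1 (ha _).2.1 (ha _).2.2.1 (ha _).2.2.2.1 (ha _).2.2.2.2) hB
    (fun i => hb _) (by rw [hs, Complex.ofReal_ne_zero]; exact hne)
  rw [hs, Complex.norm_real, Real.norm_eq_abs, e.prod_comp a] at key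
  exact key

theorem cl_log_prod {R a : ℕ} {x p : Fin R → ℕ} (ha : 0 < a) (hx : ∀ i, 0 < x i) :
    Real.log ((a * ∏ i, x i ^ p i : ℕ) : ℝ) =
      Real.log a + ∑ i, (p i : ℝ) * Real.log (x i) := by
  have a' : (0 : ℝ) < a := by exact_mod_cast ha
  have x' : ∀ i, (0 : ℝ) < x i := fun i => by exact_mod_cast hx i
  push_cast
  rw [Real.log_mul a'.ne' (Finset.prod_pos fun i _ => pow_pos (x' i) _).ne',
    Real.log_prod fun i _ => (pow_pos (x' i) _).ne']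
  simp only [Real.log_pow]

theorem cl_two (R : ℕ) : ∃ κ : ℝ, 0 < κ ∧ ∀ (n b c : ℕ) (y z q r : Fin R → ℕ) (L A : ℝ), 3 ≤ n →
    0 < b → 0 < c → (∀ i, 0 < y i) → (∀ i, 0 < z i) → (∀ i, q i ≤ n) → (∀ i, r i ≤ n) → 1 ≤ L →
    1 ≤ A → (b : ℝ) ≤ Real.exp L → (c : ℝ) ≤ Real.exp L → (∀ i, (y i : ℝ) ≤ Real.exp A) →
    (∀ i, (z i : ℝ) ≤ Real.exp A) → b * ∏ i, y i ^ q i < c * ∏ i, z i ^ r i →
    Real.exp (-(κ * L * A ^ (2 * R) * Real.log n ^ 2)) ≤
      Real.log ((c * ∏ i, z i ^ r i : ℕ) : ℝ) - Real.log ((b * ∏ i, y i ^ q i : ℕ) : ℝ) := by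
  obtain ⟨κ, hκ, h⟩ := cl_rat (Option (Fin R ⊕ Fin R)) none
  refine ⟨κ, hκ, fun n b c y z q r L A hn hb hc hy hz hq hr hL hA eb ec ey ez hlt => ?_⟩
  have hn' : (3 : ℝ) ≤ n := by exact_mod_cast hn
  have b' : (0 : ℝ) < b := by exact_mod_cast hb
  have c' : (0 : ℝ) < c := by exact_mod_cast hc
  have hV : 0 < b * ∏ i, y i ^ q i := Nat.mul_pos hb (Finset.prod_pos fun i _ => pow_pos (hy i) _)
  have hpos : 0 < Real.log ((c * ∏ i, z i ^ r i : ℕ) : ℝ) -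
      Real.log ((b * ∏ i, y i ^ q i : ℕ) : ℝ) :=
    sub_pos.2 (Real.log_lt_log (by exact_mod_cast hV) (by exact_mod_cast hlt))
  have e1 : (1 : ℝ) ≤ Real.exp A := Real.one_le_exp (by linarith)
  have hs : ∑ i : Option (Fin R ⊕ Fin R),
      (((i.elim 1 (Sum.elim (fun j => (r j : ℤ)) fun j => -(q j : ℤ)) : ℤ)) : ℝ) *
        Real.log ((((i.elim c (Sum.elim z y) : ℕ)) : ℝ) / ((i.elim b fun _ => 1 : ℕ) : ℝ)) =
      Real.log ((c * ∏ i, z i ^ r i : ℕ) : ℝ) - Real.log ((b * ∏ i, y i ^ q i : ℕ) : ℝ) := by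
    rw [cl_log_prod hb hy, cl_log_prod hc hz, Fintype.sum_option, Fintype.sum_sum_type]
    simp only [Option.elim_none, Option.elim_some, Sum.elim_inl, Sum.elim_inr, Int.cast_one,
      one_mul, Nat.cast_one, div_one, Int.cast_natCast, Int.cast_neg, neg_mul,
      Finset.sum_neg_distrib]
    rw [Real.log_div c'.ne' b'.ne']
    ring
  have key := h (fun i => i.elim c (Sum.elim z y)) (fun i => i.elim b fun _ => 1)
    (fun i => i.elim L fun _ => A)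
    (fun i => i.elim 1 (Sum.elim (fun j => (r j : ℤ)) fun j => -(q j : ℤ))) n
    (by
      rintro (_ | j | j)
      · exact ⟨hc, hb, hL, ec, eb⟩
      · exact ⟨hz j, Nat.one_pos, hA, ez j, by simpa using e1⟩
      · exact ⟨hy j, Nat.one_pos, hA, ey j, by simpa using e1⟩) hn'
    (by
      rintro (_ | j | j)
      · simp only [Option.elim_none, Int.cast_one, abs_one]
        linarith
      · simpa using hr j
      · simpa using hq j) (by rw [hs]; exact hpos.ne')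
  rw [hs, abs_of_pos hpos, Fintype.prod_option] at key
  simpa only [Option.elim_none, Option.elim_some, Finset.prod_const, Finset.card_univ,
    Fintype.card_sum, Fintype.card_fin, two_mul, mul_assoc] using key

theorem cl_logs (R : ℕ) : ∃ κ : ℝ, 0 < κ ∧ ∀ (n a b c : ℕ) (x y z p q r : Fin R → ℕ) (L A : ℝ),
    3 ≤ n → 0 < a → 0 < b → 0 < c → (∀ i, 0 < x i) → (∀ i, 0 < y i) → (∀ i, 0 < z i) →
    (∀ i, q i ≤ n) → (∀ i, r i ≤ n) → 1 ≤ L → 1 ≤ A → (a : ℝ) ≤ Real.exp L →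
    (b : ℝ) ≤ Real.exp L → (c : ℝ) ≤ Real.exp L → (∀ i, (y i : ℝ) ≤ Real.exp A) →
    (∀ i, (z i : ℝ) ≤ Real.exp A) →
    a * ∏ i, x i ^ p i + b * ∏ i, y i ^ q i = c * ∏ i, z i ^ r i →
    a * ∏ i, x i ^ p i ≤ b * ∏ i, y i ^ q i →
    |∑ i, (p i : ℝ) * Real.log (x i) - ∑ i, (r i : ℝ) * Real.log (z i)| ≤
        1 + 2 * L + κ * L * A ^ (2 * R) * Real.log n ^ 2 ∧
      |∑ i, (q i : ℝ) * Real.log (y i) - ∑ i, (r i : ℝ) * Real.log (z i)| ≤
        1 + 2 * L + κ * L * A ^ (2 * R) * Real.log n ^ 2 := by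
  obtain ⟨κ, hκ, h⟩ := cl_two R
  refine ⟨κ, hκ,
    fun n a b c x y z p q r L A hn ha hb hc hx hy hz hq hr hL hA ea eb ec ey ez heq hle => ?_⟩
  have hU : 0 < a * ∏ i, x i ^ p i := Nat.mul_pos ha (Finset.prod_pos fun i _ => pow_pos (hx i) _)
  have key := h n b c y z q r L A hn hb hc hy hz hq hr hL hA eb ec ey ez (by omega)
  obtain ⟨a1, a2⟩ := SP.bk_log_mem ha ea
  obtain ⟨b1, b2⟩ := SP.bk_log_mem hb eb
  obtain ⟨c1, c2⟩ := SP.bk_log_mem hc ec
  have lU := cl_log_prod (p := p) ha hx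
  have lV := cl_log_prod (p := q) hb hy
  have lW := cl_log_prod (p := r) hc hz
  have t0 : 0 ≤ κ * L * A ^ (2 * R) * Real.log n ^ 2 := by positivity
  generalize a * ∏ i, x i ^ p i = U at *
  generalize b * ∏ i, y i ^ q i = V at *
  generalize c * ∏ i, z i ^ r i = W at *
  have heq' : (U : ℝ) + V = W := by exact_mod_cast heq
  have hle' : (U : ℝ) ≤ V := by exact_mod_cast hle
  have U0 : (0 : ℝ) < U := by exact_mod_cast hU
  have V0 : (0 : ℝ) < V := by linarith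
  have w1 : Real.log V ≤ Real.log W := Real.log_le_log V0 (by linarith)
  have u1 : Real.log U ≤ Real.log V := Real.log_le_log U0 hle'
  have w2 : Real.log W - Real.log V ≤ U / V := by
    rw [← Real.log_div (by linarith) V0.ne']
    refine (Real.log_le_sub_one_of_pos (div_pos (by linarith) V0)).trans (le_of_eq ?_)
    rw [← heq']
    field_simp
    ring
  have w3 : (U : ℝ) / V ≤ 1 := (div_le_one V0).2 hle'
  have u2 : -(κ * L * A ^ (2 * R) * Real.log n ^ 2) ≤ Real.log U - Real.log V := by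
    rw [← Real.log_div U0.ne' V0.ne', Real.le_log_iff_exp_le (div_pos U0 V0)]
    exact key.trans w2
  constructor <;> rw [abs_le] <;> constructor <;> linarith

theorem cl_win {R n : ℕ} {x y p q : Fin R → ℕ} {lo hi t : ℝ} (hn : 0 < n) (hy : ∀ i, 0 < y i)
    (hp : ∑ i, p i = n) (hq : ∑ i, q i = n) (h0 : 0 < lo) (h1 : 0 < hi)
    (hlo : ∀ i, lo ≤ x i) (hhi : ∀ i, (y i : ℝ) ≤ hi)
    (h : ∑ i, (p i : ℝ) * Real.log (x i) - ∑ i, (q i : ℝ) * Real.log (y i) ≤ n * t) :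
    lo ≤ hi + t * lo := by
  have n0 : (0 : ℝ) < n := by exact_mod_cast hn
  have e1 : (n : ℝ) * Real.log lo ≤ ∑ i, (p i : ℝ) * Real.log (x i) := by
    rw [← hp, Nat.cast_sum, Finset.sum_mul]
    exact Finset.sum_le_sum fun i _ =>
      mul_le_mul_of_nonneg_left (Real.log_le_log h0 (hlo i)) (Nat.cast_nonneg _)
  have e2 : ∑ i, (q i : ℝ) * Real.log (y i) ≤ n * Real.log hi := by
    rw [← hq, Nat.cast_sum, Finset.sum_mul]
    exact Finset.sum_le_sum fun i _ => mul_le_mul_of_nonneg_left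
      (Real.log_le_log (by exact_mod_cast hy i) (hhi i)) (Nat.cast_nonneg _)
  have e3 : Real.log lo - Real.log hi ≤ t :=
    le_of_mul_le_mul_left (by linarith : (n : ℝ) * (Real.log lo - Real.log hi) ≤ n * t) n0
  have e4 := Real.one_sub_inv_le_log_of_pos (div_pos h0 h1)
  rw [Real.log_div h0.ne' h1.ne', inv_div] at e4
  have e5 : hi / lo * lo = hi := div_mul_cancel₀ _ h0.ne'
  nlinarith [mul_le_mul_of_nonneg_right (e4.trans e3) h0.le]

theorem cl_num {κ c e l p s : ℝ} {R : ℕ} (hc : 1 ≤ c) (l1 : 1 ≤ l) (p1 : 1 ≤ p)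
    (h : (3 * c + κ * c * e ^ (2 * R)) * l ^ (2 * R + 3) ≤ s) :
    1 + 2 * (c * p * l) + κ * (c * p * l) * (e * l) ^ (2 * R) * l ^ 2 ≤ p * s := by
  have l2 : l ≤ l ^ (2 * R + 3) := le_self_pow₀ l1 (by omega)
  have e1 : κ * (c * p * l) * (e * l) ^ (2 * R) * l ^ 2 =
      p * (κ * c * e ^ (2 * R) * l ^ (2 * R + 3)) := by ring
  have e2 : 1 ≤ c * p * l := one_le_mul_of_one_le_of_one_le
    (one_le_mul_of_one_le_of_one_le hc p1) l1
  have e3 : c * p * l ≤ c * p * l ^ (2 * R + 3) :=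
    mul_le_mul_of_nonneg_left l2 (by positivity)
  have e4 := mul_le_mul_of_nonneg_left h (by linarith : 0 ≤ p)
  rw [e1]
  linarith

/-- Linear forms in logarithms put all values into one window. -/
theorem close (A B C R S : ℕ) (Q M ε : ℝ) (hA : 0 < A) (hB : 0 < B) (hC : 0 < C) (hε : 0 < ε)
    (hε2 : ε ≤ 1 / 2) : ∃ (δ : ℝ) (h1 : ℕ), 0 < δ ∧
    ∀ (n h : ℕ) (a : Fin 3 → ℕ) (w m : Fin 3 → Fin R → ℕ), h1 ≤ h → (h : ℝ) ^ (ε / 2) ≤ n →
      Sol A B C R S Q ε n h a w m → (∃ k i, w k i = h) →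
      (∀ k i j, (w k i : ℝ) ≤ w k j + M * (h : ℝ) ^ (1 - ε)) →
      ∀ k i, (h : ℝ) ≤ w k i + (h : ℝ) ^ (1 - δ) := by
  obtain ⟨κ, hκ, H⟩ := cl_logs R
  set c : ℝ := 1 + S * (2 / ε) + (A + B + C : ℕ) with hc
  have c1 : 1 ≤ c := by
    have : (0 : ℝ) ≤ S * (2 / ε) + (A + B + C : ℕ) := by positivity
    linarith
  have hK : 0 < 3 * c + κ * c * (2 / ε) ^ (2 * R) := by positivity
  have E1 := (isLittleO_log_rpow_rpow_atTop ((2 * R + 3 : ℕ) : ℝ) (half_pos hε)).bound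
    (inv_pos.2 hK)
  obtain ⟨N, hN⟩ := Filter.eventually_atTop.1 (E1.and (Filter.eventually_ge_atTop 3))
  have hδ : 0 < ε ^ 2 / 8 := by positivity
  have E2 := ((tendsto_rpow_atTop (half_pos hε)).comp
    (tendsto_natCast_atTop_atTop (R := ℝ))).eventually_ge_atTop N
  have E3 := ((tendsto_rpow_atTop hδ).comp
    (tendsto_natCast_atTop_atTop (R := ℝ))).eventually_ge_atTop (2 * |M| + 2)
  obtain ⟨h1, hh1⟩ := Filter.eventually_atTop.1 (E2.and (E3.and (Filter.eventually_ge_atTop 1)))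
  refine ⟨ε ^ 2 / 8, h1, hδ, fun n h a w m hh hn sol ⟨k0, i0, hw0⟩ hsp k i => ?_⟩
  obtain ⟨e2, e3, hpos⟩ := hh1 h hh
  obtain ⟨e1, n3'⟩ := hN n (le_trans e2 hn)
  have n3 : 3 ≤ n := by exact_mod_cast n3'
  have h1' : (1 : ℝ) ≤ h := by exact_mod_cast hpos
  have h0 : (0 : ℝ) < h := by linarith
  have n0 : (0 : ℝ) < n := by linarith
  have l1 : 1 ≤ Real.log n := by
    rw [Real.le_log_iff_exp_le n0]
    linarith [Real.exp_one_lt_d9]
  set s : ℝ := (n : ℝ) ^ (ε / 2) with hs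
  have s0 : 0 < s := Real.rpow_pos_of_pos n0 _
  set p : ℝ := (n : ℝ) ^ (1 - ε) with hp
  have p1 : 1 ≤ p := Real.one_le_rpow (by linarith) (by linarith)
  have ps : p * s = n * s⁻¹ := by
    rw [eq_mul_inv_iff_mul_eq₀ s0.ne', hs, hp, ← Real.rpow_add n0, ← Real.rpow_add n0,
      show 1 - ε + ε / 2 + ε / 2 = 1 by ring, Real.rpow_one]
  have e1' : (3 * c + κ * c * (2 / ε) ^ (2 * R)) * Real.log n ^ (2 * R + 3) ≤ s := by
    rw [Real.norm_of_nonneg s0.le, Real.norm_of_nonneg (by positivity), inv_mul_eq_div,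
      le_div_iff₀ hK, Real.rpow_natCast] at e1
    linarith
  have lh : Real.log h ≤ 2 / ε * Real.log n := by
    have := Real.log_le_log (Real.rpow_pos_of_pos h0 _) hn
    rw [Real.log_rpow h0] at this
    rw [div_mul_eq_mul_div, le_div_iff₀ hε]
    linarith
  have A1 : 1 ≤ 2 / ε * Real.log n :=
    one_le_mul_of_one_le_of_one_le (by rw [le_div_iff₀ hε]; linarith) l1
  have hw : ∀ k i, (w k i : ℝ) ≤ Real.exp (2 / ε * Real.log n) := fun k i =>
    (Nat.cast_le.2 (sol.w_le k i)).trans ((Real.log_le_iff_le_exp h0).1 lh)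
  have L1 : 1 ≤ c * p * Real.log n :=
    one_le_mul_of_one_le_of_one_le (one_le_mul_of_one_le_of_one_le c1 p1) l1
  have ha : ∀ (D : ℕ) (k : Fin 3), D ≤ A + B + C →
      ((D * a k : ℕ) : ℝ) ≤ Real.exp (c * p * Real.log n) := fun D k hD => by
    have d1 : (D : ℝ) ≤ Real.exp (A + B + C : ℕ) :=
      (Nat.cast_le.2 hD).trans (by linarith [Real.add_one_le_exp ((A + B + C : ℕ) : ℝ)])
    have d2 : (h : ℝ) ^ S ≤ Real.exp (S * (2 / ε * Real.log n)) := by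
      rw [Real.exp_nat_mul]
      exact pow_le_pow_left₀ h0.le ((Real.log_le_iff_le_exp h0).1 lh) S
    have d3 := (sol.a_le k).trans (mul_le_mul_of_nonneg_left d2 (Real.exp_pos _).le)
    rw [Nat.cast_mul]
    refine (mul_le_mul d1 d3 (Nat.cast_nonneg _) (Real.exp_pos _).le).trans ?_
    rw [← Real.exp_add, ← Real.exp_add, Real.exp_le_exp, hc]
    have pl : 1 ≤ p * Real.log n := one_le_mul_of_one_le_of_one_le p1 l1
    have f1 : p ≤ p * Real.log n := le_mul_of_one_le_right (by linarith) l1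
    have f2 : (S : ℝ) * (2 / ε) * Real.log n ≤ S * (2 / ε) * (p * Real.log n) :=
      mul_le_mul_of_nonneg_left (le_mul_of_one_le_left (by linarith) p1) (by positivity)
    have f3 : ((A + B + C : ℕ) : ℝ) ≤ (A + B + C : ℕ) * (p * Real.log n) :=
      le_mul_of_one_le_right (Nat.cast_nonneg _) pl
    linarith
  have hm : ∀ k i, m k i ≤ n := fun k i =>
    sol.deg k ▸ Finset.single_le_sum (f := m k) (fun _ _ => Nat.zero_le _) (Finset.mem_univ i)
  have fin := (cl_num c1 l1 p1 e1').trans ps.le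
  have heq := sol.eq
  rw [← mul_assoc, ← mul_assoc, ← mul_assoc] at heq
  have pa := Nat.mul_pos hA (sol.a_pos 0)
  have pb := Nat.mul_pos hB (sol.a_pos 1)
  have pc := Nat.mul_pos hC (sol.a_pos 2)
  have both : ∀ k, |∑ i, (m k i : ℝ) * Real.log (w k i) - ∑ i, (m 2 i : ℝ) * Real.log (w 2 i)| ≤
      n * s⁻¹ := by
    have two : |∑ i, (m 0 i : ℝ) * Real.log (w 0 i) - ∑ i, (m 2 i : ℝ) * Real.log (w 2 i)| ≤
        n * s⁻¹ ∧ |∑ i, (m 1 i : ℝ) * Real.log (w 1 i) - ∑ i, (m 2 i : ℝ) * Real.log (w 2 i)| ≤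
        n * s⁻¹ := by
      rcases le_total (A * a 0 * ∏ i, w 0 i ^ m 0 i) (B * a 1 * ∏ i, w 1 i ^ m 1 i) with hle | hle
      · obtain ⟨u, v⟩ := H n _ _ _ _ _ _ _ _ _ _ _ n3 pa pb pc (sol.w_pos 0) (sol.w_pos 1)
          (sol.w_pos 2) (hm 1) (hm 2) L1 A1 (ha A 0 (by omega)) (ha B 1 (by omega))
          (ha C 2 (by omega)) (hw 1) (hw 2) heq hle
        exact ⟨u.trans fin, v.trans fin⟩
      · obtain ⟨u, v⟩ := H n _ _ _ _ _ _ _ _ _ _ _ n3 pb pa pc (sol.w_pos 1) (sol.w_pos 0)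
          (sol.w_pos 2) (hm 0) (hm 2) L1 A1 (ha B 1 (by omega)) (ha A 0 (by omega))
          (ha C 2 (by omega)) (hw 0) (hw 2) ((add_comm _ _).trans heq) hle
        exact ⟨v.trans fin, u.trans fin⟩
    intro k
    match k with
    | 0 => exact two.1
    | 1 => exact two.2
    | 2 =>
      rw [sub_self, abs_zero]
      positivity
  set D : ℝ := M * (h : ℝ) ^ (1 - ε) with hD
  have D0 : 0 ≤ D := by linarith [hsp k i i]
  have wp : (0 : ℝ) < w k i := by exact_mod_cast sol.w_pos k i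
  have si : 0 < s⁻¹ := inv_pos.2 s0
  have main : (h : ℝ) ≤ w k i + 2 * D + 2 * s⁻¹ * h := by
    rcases le_or_gt (h : ℝ) D with hle | hlt
    · have : 0 ≤ 2 * s⁻¹ * h := by positivity
      linarith
    · have := cl_win (lo := h - D) (hi := w k i + D) (t := 2 * s⁻¹) (by omega) (sol.w_pos k)
        (sol.deg k0) (sol.deg k) (by linarith) (by linarith)
        (fun j => by have := hsp k0 i0 j; rw [hw0] at this; linarith) (fun j => hsp k j i)
        (by linarith [abs_le.1 (both k0), abs_le.1 (both k)])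
      nlinarith [mul_nonneg si.le D0]
  set u : ℝ := (h : ℝ) ^ (1 - ε ^ 2 / 4) with hu
  have u0 : 0 < u := Real.rpow_pos_of_pos h0 _
  have g1 : D ≤ |M| * u :=
    mul_le_mul (le_abs_self M) (Real.rpow_le_rpow_of_exponent_le h1' (by nlinarith))
      (Real.rpow_nonneg h0.le _) (abs_nonneg M)
  have g2 : s⁻¹ * h ≤ u := by
    rw [inv_mul_le_iff₀ s0]
    have := Real.rpow_le_rpow (Real.rpow_nonneg h0.le _) hn (half_pos hε).le
    rw [← Real.rpow_mul h0.le] at this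
    refine le_trans (le_of_eq ?_) (mul_le_mul_of_nonneg_right this u0.le)
    rw [hu, ← Real.rpow_add h0, show ε / 2 * (ε / 2) + (1 - ε ^ 2 / 4) = 1 by ring, Real.rpow_one]
  have g3 : (h : ℝ) ^ (ε ^ 2 / 8) * u = (h : ℝ) ^ (1 - ε ^ 2 / 8) := by
    rw [hu, ← Real.rpow_add h0, show ε ^ 2 / 8 + (1 - ε ^ 2 / 4) = 1 - ε ^ 2 / 8 by ring]
  have g4 := mul_le_mul_of_nonneg_right e3 u0.le
  rw [Function.comp_apply, g3] at g4
  linarith

end Pool.Agent.Lib.MP_4ffbf9_nt.PR
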