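import Mathlib
import Pool.Agent.Shared.Subspace.AuxPoly
import Pool.Agent.Shared.Subspace.Grid

/-!
Tools for the ambient auxiliary polynomial: Taylor coefficients and a rational root test.
-/

set_option autoImplicit false

namespace Pool.Agent.Lib.MP_4ffbf9_nt.PR

open MvPolynomial Pool.Agent.Subspace

variable {ι : Type} [Fintype ι]

theorem weight_const (c : ℝ) (ν : ι →₀ ℕ) :
    Finsupp.weight (fun _ : ι => c) ν = (∑ i, ν i : ℕ) * c := by
  rw [Finsupp.weight_eq_sum]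
  simp [Finset.sum_mul]

theorem ord_iff {R : Type} [CommRing R] (μ : ℕ) (Q : MvPolynomial ι R) :
    IdxGe (fun _ => (1 : ℝ)) μ Q ↔ ∀ ν ∈ Q.support, μ ≤ ∑ i, ν i := by
  refine forall₂_congr fun ν _ => ?_
  rw [weight_const, mul_one, Nat.cast_le]

theorem deg_iff {R : Type} [CommRing R] (D : ℕ) (Q : MvPolynomial ι R) :
    IdxGe (fun _ => (-1 : ℝ)) (-D) Q ↔ ∀ ν ∈ Q.support, ∑ i, ν i ≤ D := by
  refine forall₂_congr fun ν _ => ?_
  rw [weight_const, mul_neg, mul_one, neg_le_neg_iff, Nat.cast_le]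

theorem deg_shift {R : Type} [CommRing R] {D : ℕ} {Q : MvPolynomial ι R}
    (h : ∀ ν ∈ Q.support, ∑ i, ν i ≤ D) (x : ι → R) : ∀ ν ∈ (shift x Q).support, ∑ i, ν i ≤ D := by
  rw [← deg_iff] at h ⊢
  exact h.aeval fun j => IdxGe.add ((idxGe_C _ _).mono (by norm_num)) (idxGe_X _ _)

theorem abs_coeff_up (a b l : ℕ) :
    |(((Polynomial.X ^ a * (Polynomial.X + 1) ^ b : Polynomial ℤ).coeff l : ℤ) : ℝ)| ≤ 2 ^ b := by
  rw [Polynomial.coeff_X_pow_mul']
  split_ifs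
  · rw [Polynomial.coeff_X_add_one_pow]
    push_cast
    rw [abs_of_nonneg (by positivity)]
    exact_mod_cast Nat.choose_le_two_pow b _
  · simp

theorem abs_eval_le (δ : ι → ℝ) {η : ℝ} (h0 : 0 ≤ η) (h1 : η ≤ 1) (hδ : ∀ i, |δ i| ≤ η)
    (H : MvPolynomial ι ℝ) {t : ℕ} (ht : ∀ μ ∈ H.support, t ≤ ∑ i, μ i) :
    |eval δ H| ≤ l1 H * η ^ t := by
  rw [eval_eq', l1, Finset.sum_mul]
  refine (Finset.abs_sum_le_sum_abs _ _).trans (Finset.sum_le_sum fun μ hμ => ?_)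
  rw [abs_mul, Real.norm_eq_abs]
  refine mul_le_mul_of_nonneg_left ?_ (abs_nonneg _)
  rw [Finset.abs_prod]
  calc ∏ i, |δ i ^ μ i| ≤ ∏ i, η ^ μ i := Finset.prod_le_prod (fun _ _ => abs_nonneg _) fun i _ => by
        rw [abs_pow]; exact pow_le_pow_left₀ (abs_nonneg _) (hδ i) _
    _ = η ^ ∑ i, μ i := Finset.prod_pow_eq_pow_sum _ _ _
    _ ≤ η ^ t := pow_le_pow_of_le_one h0 h1 (ht μ hμ)

theorem l1_shift_one (P : MvPolynomial ι ℤ) {D : ℕ} (hD : ∀ μ ∈ P.support, ∑ i, μ i ≤ D) :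
    l1 (shift (fun _ => (1 : ℤ)) P) ≤ l1 P * 2 ^ D := by
  rw [shift, aeval_def]
  refine l1_eval₂_le (RingHom.id ℤ) (fun a => le_rfl) _ P fun μ hμ => ?_
  have h2 : ∀ i : ι, l1 (C 1 + X i : MvPolynomial ι ℤ) ≤ 2 := fun i => by
    refine (l1_add_le _ _).trans ?_
    rw [l1_C, l1_X, norm_one]
    norm_num
  calc ∏ i ∈ μ.support, l1 (C 1 + X i : MvPolynomial ι ℤ) ^ μ i
      ≤ ∏ i ∈ μ.support, (2 : ℝ) ^ μ i :=
        Finset.prod_le_prod (fun i _ => pow_nonneg (l1_nonneg _) _)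
          fun i _ => pow_le_pow_left₀ (l1_nonneg _) (h2 i) _
    _ = ∏ i, (2 : ℝ) ^ μ i := by
        refine Finset.prod_subset (Finset.subset_univ _) fun i _ hi => ?_
        rw [Finsupp.notMem_support_iff.mp hi, pow_zero]
    _ ≤ 2 ^ D := by
        rw [Finset.prod_pow_eq_pow_sum]
        exact pow_le_pow_right₀ (by norm_num) (hD μ hμ)

omit [Fintype ι] in
theorem l1_map_real (P : MvPolynomial ι ℤ) : l1 (map (Int.castRingHom ℝ) P) = l1 P := by
  unfold l1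
  rw [support_map_of_injective _ Int.cast_injective]
  refine Finset.sum_congr rfl fun ν _ => ?_
  rw [coeff_map]
  exact Int.norm_cast_real _

/-- Taylor coefficients near `(1, …, 1)` of a polynomial which vanishes there to high order. -/
theorem taylor_small (P : MvPolynomial ι ℤ) {D E t : ℕ} (hD : ∀ μ ∈ P.support, ∑ i, μ i ≤ D)
    (hE : ∀ μ ∈ (shift (fun _ => (1 : ℤ)) P).support, E ≤ ∑ i, μ i) (p : ι → ℚ) {η : ℝ}
    (h0 : 0 ≤ η) (h1 : η ≤ 1) (hp : ∀ i, |(p i : ℝ) - 1| ≤ η) (κ : ι →₀ ℕ)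
    (hκ : ∑ i, κ i + t ≤ E) :
    |((coeff κ (shift p (map (Int.castRingHom ℚ) P)) : ℚ) : ℝ)| ≤ 4 ^ D * l1 P * η ^ t := by
  have e0 : ((coeff κ (shift p (map (Int.castRingHom ℚ) P)) : ℚ) : ℝ) =
      coeff κ (shift (fun i => (p i : ℝ) - 1)
        (map (Int.castRingHom ℝ) (shift (fun _ => (1 : ℤ)) P))) := by
    rw [map_shift, shift_shift]
    have e1 : ((fun i => (p i : ℝ) - 1) + fun _ => (Int.castRingHom ℝ) 1) =
        fun i => Rat.castHom ℝ (p i) := by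
      funext i; simp
    rw [e1, RingHom.ext_int (Int.castRingHom ℝ) ((Rat.castHom ℝ).comp (Int.castRingHom ℚ)),
      ← map_map, ← map_shift, coeff_map]
    rfl
  rw [e0, coeff_shift]
  refine (abs_eval_le _ h0 h1 hp _ (t := t) fun μ hμ => ?_).trans ?_
  · have h2 := hE _ (support_map_subset _ _ (mem_support_hasse hμ))
    simp only [Finsupp.add_apply, Finset.sum_add_distrib] at h2
    omega
  · refine mul_le_mul_of_nonneg_right ?_ (by positivity)
    refine (l1_hasse_le κ _ (E := D) fun μ hμ =>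
      deg_shift hD _ μ (support_map_subset _ _ hμ)).trans ?_
    rw [l1_map_real]
    calc (2 : ℝ) ^ D * l1 (shift (fun _ => (1 : ℤ)) P) ≤ 2 ^ D * (l1 P * 2 ^ D) :=
          mul_le_mul_of_nonneg_left (l1_shift_one P hD) (by positivity)
      _ = 4 ^ D * l1 P := by
          rw [show (4 : ℝ) = 2 * 2 by norm_num, mul_pow]; ring

theorem prod_mul_coeff_shift (p : ι → ℚ) (κ ε : ι →₀ ℕ) (a : ℚ) :
    (∏ i, p i ^ κ i) * coeff κ (shift p (monomial ε a)) = binom ε κ * a * ∏ i, p i ^ ε i := by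
  rw [coeff_shift, hasse_monomial, eval_monomial, Finsupp.prod_fintype _ _ (by simp)]
  by_cases h : κ ≤ ε
  · rw [mul_left_comm, ← Finset.prod_mul_distrib]
    congr 1
    refine Finset.prod_congr rfl fun i _ => ?_
    rw [← pow_add, Finsupp.tsub_apply, Nat.add_sub_cancel' (h i)]
  · simp [binom_eq_zero h]

theorem coeff_mul_low (A B : MvPolynomial ι ℚ) (κ : ι →₀ ℕ)
    (hB : ∀ ν ∈ B.support, ∑ i, κ i ≤ ∑ i, ν i) : coeff κ (A * B) = coeff 0 A * coeff κ B := by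
  classical
  rw [coeff_mul, Finset.sum_eq_single (0, κ)]
  · rintro ⟨ν₁, ν₂⟩ hν hne
    replace hν : ν₁ + ν₂ = κ := by simpa using hν
    by_cases h : ν₂ ∈ B.support
    · exfalso
      have h1 := hB _ h
      have h2 : ∑ i, κ i = ∑ i, ν₁ i + ∑ i, ν₂ i := by
        rw [← hν]; simp [Finset.sum_add_distrib]
      have h3 : ν₁ = 0 := by
        ext i
        exact (Finset.sum_eq_zero_iff.mp (by omega : ∑ i, ν₁ i = 0)) i (Finset.mem_univ i)
      subst h3
      exact hne (by simpa using hν)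
    · rw [notMem_support_iff.mp h, mul_zero]
  · intro h
    exact absurd (by simp) h

/-- A Taylor coefficient at a rational point: denominator and size. -/
theorem taylor_int (F : MvPolynomial ι ℤ) {d h : ℕ} (hh : 0 < h)
    (hd : ∀ μ ∈ F.support, ∑ i, μ i ≤ d) (x : ι → ℕ) (hx : ∀ i, x i ≤ 2 * h) (κ : ι →₀ ℕ) :
    ∃ R : ℤ, (R : ℚ) = (h : ℚ) ^ d *
        coeff κ (shift (fun i => (x i : ℚ) / h) (map (Int.castRingHom ℚ) F)) ∧
      |(R : ℝ)| ≤ 4 ^ d * l1 F * h ^ d := by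
  have hh' : (h : ℚ) ≠ 0 := by positivity
  have hdH : ∀ μ ∈ (hasse κ F).support, ∑ i, μ i ≤ d := fun μ hμ => by
    have := hd _ (mem_support_hasse hμ)
    simp only [Finsupp.add_apply, Finset.sum_add_distrib] at this
    omega
  refine ⟨∑ μ ∈ (hasse κ F).support, coeff μ (hasse κ F) * (∏ i, (x i : ℤ) ^ μ i) *
    (h : ℤ) ^ (d - ∑ i, μ i), ?_, ?_⟩
  · rw [coeff_shift, ← map_hasse, eval_map, eval₂_eq', Finset.mul_sum]
    push_cast
    refine Finset.sum_congr rfl fun μ hμ => ?_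
    obtain ⟨s, hs⟩ := Nat.exists_eq_add_of_le (hdH μ hμ)
    rw [hs, Nat.add_sub_cancel_left, pow_add]
    simp only [div_pow, Finset.prod_div_distrib, Finset.prod_pow_eq_pow_sum, eq_intCast]
    field_simp
  · push_cast
    refine (Finset.abs_sum_le_sum_abs _ _).trans ?_
    calc _ ≤ ∑ μ ∈ (hasse κ F).support, ‖coeff μ (hasse κ F)‖ * (2 ^ d * (h : ℝ) ^ d) := by
          refine Finset.sum_le_sum fun μ hμ => ?_
          rw [mul_assoc, abs_mul, Int.norm_eq_abs, abs_of_nonneg (a := _ * _) (by positivity)]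
          refine mul_le_mul_of_nonneg_left ?_ (abs_nonneg _)
          obtain ⟨s, hs⟩ := Nat.exists_eq_add_of_le (hdH μ hμ)
          have h1 : ∏ i, (x i : ℝ) ^ μ i ≤ (2 * h) ^ ∑ i, μ i := by
            rw [← Finset.prod_pow_eq_pow_sum]
            exact Finset.prod_le_prod (fun _ _ => by positivity) fun i _ =>
              pow_le_pow_left₀ (by positivity) (by exact_mod_cast hx i) _
          rw [hs, Nat.add_sub_cancel_left]
          calc _ ≤ (2 * (h : ℝ)) ^ (∑ i, μ i) * (h : ℝ) ^ s := by gcongr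
            _ = 2 ^ (∑ i, μ i) * 1 * (h : ℝ) ^ (∑ i, μ i + s) := by rw [mul_pow]; ring
            _ ≤ 2 ^ (∑ i, μ i) * 2 ^ s * (h : ℝ) ^ (∑ i, μ i + s) := by
                gcongr; exact one_le_pow₀ (by norm_num)
            _ = _ := by ring
      _ = l1 (hasse κ F) * (2 ^ d * (h : ℝ) ^ d) := by rw [l1, Finset.sum_mul]
      _ ≤ 2 ^ d * l1 F * (2 ^ d * (h : ℝ) ^ d) := by gcongr; exact l1_hasse_le κ F hd
      _ = _ := by rw [show (4 : ℝ) = 2 * 2 by norm_num, mul_pow]; ring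

/-- Rational root test. -/
theorem amb_root_test {k m₂ m₃ : ℕ} (h3 : 0 < m₃) (R : Fin (k + 1) → ℤ)
    (hR : ∀ b, |R b| * Nat.gcd m₂ m₃ < m₃)
    (h : ∑ b : Fin (k + 1), (m₂ : ℤ) ^ (k - b) * (m₃ : ℤ) ^ (b : ℕ) * R b = 0) : ∀ b, R b = 0 := by
  obtain ⟨g, u, v, hg, huv, rfl, rfl⟩ :
      ∃ g u v : ℕ, 0 < g ∧ Nat.Coprime u v ∧ m₂ = u * g ∧ m₃ = v * g := by
    obtain ⟨u, v, huv, h1, h2⟩ := Nat.exists_coprime m₂ m₃
    exact ⟨_, u, v, Nat.gcd_pos_of_pos_right _ h3, huv, h1, h2⟩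
  rw [Nat.gcd_mul_right, huv.gcd_eq_one, one_mul] at hR
  have hv : 0 < v := Nat.pos_of_mul_pos_right h3
  have h' : ∑ b : Fin (k + 1), (u : ℤ) ^ (k - b) * (v : ℤ) ^ (b : ℕ) * R b = 0 := by
    refine mul_left_cancel₀ (a := (g : ℤ) ^ k) (by positivity) ?_
    rw [mul_zero, ← h, Finset.mul_sum]
    refine Finset.sum_congr rfl fun b _ => ?_
    obtain ⟨s, hs⟩ := Nat.exists_eq_add_of_le (Nat.lt_succ_iff.mp b.2)
    have : k - b = s := by omega
    rw [this]
    generalize (b : ℕ) = t at hs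
    push_cast
    rw [hs]; ring
  intro b
  induction b using WellFoundedLT.induction with
  | ind b ih =>
    have hd : (v : ℤ) ^ ((b : ℕ) + 1) ∣ (u : ℤ) ^ (k - b) * (v : ℤ) ^ (b : ℕ) * R b := by
      rw [← Finset.add_sum_erase _ _ (Finset.mem_univ b), add_eq_zero_iff_eq_neg] at h'
      rw [h', dvd_neg]
      refine Finset.dvd_sum fun c hc => ?_
      rcases lt_or_gt_of_ne (Finset.mem_erase.mp hc).1 with h1 | h1
      · rw [ih c h1, mul_zero]; exact dvd_zero _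
      · exact Dvd.dvd.mul_right (Dvd.dvd.mul_left (pow_dvd_pow _ h1) _) _
    rw [pow_succ, mul_comm ((u : ℤ) ^ _), mul_assoc, mul_dvd_mul_iff_left (by positivity)] at hd
    have hd2 : (v : ℤ) ∣ R b :=
      (Nat.isCoprime_iff_coprime.mpr huv.symm).pow_right.dvd_of_dvd_mul_left hd
    refine Int.eq_zero_of_abs_lt_dvd hd2 ?_
    have := hR b
    push_cast at this
    exact lt_of_mul_lt_mul_right this (by positivity)

end Pool.Agent.Lib.MP_4ffbf9_nt.PR
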