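import Mathlib
import Pool.Agent.Lib.MP_4ffbf9_nt.PR.Amb0

/-!
The ambient auxiliary polynomial: Siegel step.
-/

set_option autoImplicit false

namespace Pool.Agent.Lib.MP_4ffbf9_nt.PR

open MvPolynomial Pool.Agent.Subspace

variable {ι : Type} [Fintype ι]

/-- The factor `u ^ α (u + 1) ^ β`. -/
noncomputable def upol {k : ℕ} (s : Fin (k + 1) × Fin (k + 1)) : Polynomial ℤ :=
  Polynomial.X ^ (s.1 : ℕ) * (Polynomial.X + 1) ^ (s.2 : ℕ)

/-- The exponent vector of the block `(α, β)`. -/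
noncomputable def bex {k : ℕ} (e₁ e₂ e₃ : ι →₀ ℕ) (s : Fin (k + 1) × Fin (k + 1)) : ι →₀ ℕ :=
  (k - s.1) • e₁ + (k - s.2) • e₂ + ((s.1 : ℕ) + s.2) • e₃

/-- The coefficient of `u ^ l` in the auxiliary polynomial. -/
noncomputable def ambP {k : ℕ} (e₁ e₂ e₃ : ι →₀ ℕ)
    (F : Fin (k + 1) × Fin (k + 1) → MvPolynomial ι ℤ) (l : ℕ) : MvPolynomial ι ℤ :=
  ∑ s, monomial (bex e₁ e₂ e₃ s) ((upol s).coeff l) * F s

theorem sum_bex {k n : ℕ} {e₁ e₂ e₃ : ι →₀ ℕ} (h₁ : ∑ i, e₁ i = n) (h₂ : ∑ i, e₂ i = n)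
    (h₃ : ∑ i, e₃ i = n) (s : Fin (k + 1) × Fin (k + 1)) :
    ∑ i, bex e₁ e₂ e₃ s i = 2 * k * n := by
  simp only [bex, Finsupp.add_apply, Finsupp.smul_apply, smul_eq_mul, Finset.sum_add_distrib,
    ← Finset.mul_sum, h₁, h₂, h₃]
  obtain ⟨a, ha⟩ := Nat.exists_eq_add_of_le (Nat.lt_succ_iff.mp s.1.2)
  obtain ⟨b, hb⟩ := Nat.exists_eq_add_of_le (Nat.lt_succ_iff.mp s.2.2)
  rw [show k - s.1 = a by omega, show k - s.2 = b by omega, ← add_mul, ← add_mul]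
  congr 1; omega

theorem ambP_deg {k n d : ℕ} {e₁ e₂ e₃ : ι →₀ ℕ} (h₁ : ∑ i, e₁ i = n) (h₂ : ∑ i, e₂ i = n)
    (h₃ : ∑ i, e₃ i = n) {F : Fin (k + 1) × Fin (k + 1) → MvPolynomial ι ℤ}
    (hF : ∀ s, ∀ ν ∈ (F s).support, ∑ i, ν i ≤ d) (l : ℕ) :
    ∀ ν ∈ (ambP e₁ e₂ e₃ F l).support, ∑ i, ν i ≤ 2 * k * n + d := by
  rw [← deg_iff]
  refine idxGe_sum _ fun s _ => ?_
  have h := (idxGe_monomial (w := fun _ : ι => (-1 : ℝ)) (ν := bex e₁ e₂ e₃ s) le_rfl
    ((upol s).coeff l)).mul ((deg_iff d _).2 (hF s))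
  refine h.mono ?_
  rw [weight_const, sum_bex h₁ h₂ h₃]
  push_cast
  linarith

omit [Fintype ι] in
theorem ambP_l1 {k : ℕ} (e₁ e₂ e₃ : ι →₀ ℕ) {F : Fin (k + 1) × Fin (k + 1) → MvPolynomial ι ℤ}
    {B : ℝ} (hF : ∀ s, l1 (F s) ≤ B) (l : ℕ) :
    l1 (ambP e₁ e₂ e₃ F l) ≤ ((k + 1) ^ 2 * 2 ^ k) * B := by
  refine (l1_sum_le _ _).trans ?_
  calc _ ≤ ∑ _s : Fin (k + 1) × Fin (k + 1), 2 ^ k * B := by
        refine Finset.sum_le_sum fun s _ => (l1_mul_le _ _).trans ?_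
        rw [l1_monomial, Int.norm_eq_abs]
        exact mul_le_mul ((abs_coeff_up _ _ _).trans (pow_le_pow_right₀ (by norm_num)
          (Nat.lt_succ_iff.mp s.2.2))) (hF s) (l1_nonneg _) (by positivity)
    _ = _ := by simp; ring

/-- Siegel step. -/
theorem amb_siegel (L k : ℕ) (hk : 4 * (2 * Fintype.card ι * L) ^ Fintype.card ι ≤ k + 1) :
    ∃ K : ℝ, 1 ≤ K ∧ ∀ n : ℕ, 1 ≤ n → ∀ e₁ e₂ e₃ : ι →₀ ℕ, ∑ i, e₁ i = n → ∑ i, e₂ i = n →
      ∑ i, e₃ i = n → ∃ F : Fin (k + 1) × Fin (k + 1) → MvPolynomial ι ℤ, (∃ s, F s ≠ 0) ∧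
        (∀ s, ∀ ν ∈ (F s).support, ∑ i, ν i ≤ n / 2) ∧ (∀ s, l1 (F s) ≤ K ^ n) ∧
        ∀ l ≤ 2 * k, ∀ ν ∈ (shift (fun _ => (1 : ℤ)) (ambP e₁ e₂ e₃ F l)).support,
          L * n ≤ ∑ i, ν i := by
  classical
  refine ⟨2 ^ (5 * k + 5), one_le_pow₀ (by norm_num), fun n hn e₁ e₂ e₃ h₁ h₂ h₃ => ?_⟩
  obtain ⟨N, hN⟩ : ∃ N, N = Fintype.card ι := ⟨_, rfl⟩
  have hN0 : 0 < N := by
    rw [hN, Fintype.card_pos_iff]
    by_contra h
    rw [not_nonempty_iff] at h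
    simp at h₁; omega
  obtain ⟨r, hr⟩ : ∃ r, r = n / (2 * N) := ⟨_, rfl⟩
  have hr1 : n ≤ 2 * N * (r + 1) := by
    rw [hr]; exact (Nat.lt_mul_div_succ n (by omega)).le
  have hr2 : 2 * (N * r) ≤ n := by
    rw [hr, ← mul_assoc]; exact Nat.mul_div_le _ _
  let fs : {m : ℕ} → (ι → Fin m) → ι →₀ ℕ := fun ν =>
    Finsupp.equivFunOnFinite.symm fun i => (ν i : ℕ)
  have hfs : ∀ ν : ι → Fin (r + 1), ∑ i, fs ν i ≤ N * r := fun ν => by
    rw [hN, ← Finset.card_univ, ← smul_eq_mul]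
    exact Finset.sum_le_card_nsmul _ _ _ fun i _ => Nat.lt_succ_iff.mp (ν i).2
  let A : Matrix (Fin (2 * k + 1) × (ι → Fin (L * n)))
      ((Fin (k + 1) × Fin (k + 1)) × (ι → Fin (r + 1))) ℤ := fun e b =>
    coeff (fs e.2) (shift (fun _ => (1 : ℤ))
      (monomial (bex e₁ e₂ e₃ b.1 + fs b.2) ((upol b.1).coeff e.1)))
  have hcard : Fintype.card ((Fin (k + 1) × Fin (k + 1)) × (ι → Fin (r + 1))) =
      (k + 1) ^ 2 * (r + 1) ^ N := by simp [hN, sq]
  have hrN : (r + 1) ^ N ≤ 2 ^ n :=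
    (Nat.pow_le_pow_left (Nat.lt_two_pow_self (n := r)) N).trans (by
      rw [← pow_mul]; exact Nat.pow_le_pow_right (by norm_num) (by nlinarith))
  have hrN' : ((r : ℝ) + 1) ^ N ≤ 2 ^ n := by exact_mod_cast hrN
  have hk2 : ((k : ℝ) + 1) ≤ 2 ^ k := by exact_mod_cast Nat.lt_two_pow_self (n := k)
  obtain ⟨p, hp0, hp, hpB⟩ := siegel_half A (B := 2 ^ (k + (2 * k * n + n)))
    (by
      rw [hcard]
      simp only [Fintype.card_prod, Fintype.card_fin, Fintype.card_fun, ← hN]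
      rw [← hN] at hk
      calc 2 * ((2 * k + 1) * (L * n) ^ N) ≤ 4 * (k + 1) * (L * (2 * N * (r + 1))) ^ N := by
            rw [← mul_assoc]
            exact Nat.mul_le_mul (by omega) (Nat.pow_le_pow_left (Nat.mul_le_mul_left _ hr1) _)
        _ = (k + 1) * (4 * (2 * N * L) ^ N) * (r + 1) ^ N := by
            rw [show L * (2 * N * (r + 1)) = 2 * N * L * (r + 1) by ring, mul_pow]; ring
        _ ≤ (k + 1) * (k + 1) * (r + 1) ^ N := by gcongr
        _ = _ := by ring)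
    (by rw [hcard]; positivity) (one_le_pow₀ (by norm_num))
    (fun e b => by
      refine le_trans ?_ ((norm_coeff_le_l1 _ (fs e.2)).trans ((l1_shift_one
        (monomial (bex e₁ e₂ e₃ b.1 + fs b.2) ((upol b.1).coeff e.1)) (D := 2 * k * n + n)
          fun μ hμ => ?_).trans ?_))
      · rw [Int.norm_eq_abs]
      · rw [Finset.mem_singleton.mp (support_monomial_subset hμ)]
        simp only [Finsupp.add_apply, Finset.sum_add_distrib, sum_bex h₁ h₂ h₃]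
        have := hfs b.2
        omega
      · rw [l1_monomial, Int.norm_eq_abs, pow_add 2 k]
        exact mul_le_mul_of_nonneg_right ((abs_coeff_up _ _ _).trans (pow_le_pow_right₀
          (by norm_num) (Nat.lt_succ_iff.mp b.1.2.2))) (by positivity))
  have hinj : Function.Injective (fs (m := r + 1)) := fun ν ν' h =>
    funext fun i => Fin.ext (DFunLike.congr_fun h i)
  refine ⟨fun s => ∑ ν, monomial (fs ν) (p (s, ν)), ?_, ?_, ?_, ?_⟩
  · obtain ⟨b, hb⟩ := Function.ne_iff.mp hp0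
    refine ⟨b.1, fun h => hb ?_⟩
    have := congrArg (coeff (fs b.2)) h
    rw [coeff_sum, Finset.sum_eq_single b.2 (fun ν _ hν => by
      rw [coeff_monomial, if_neg fun h' => hν (hinj h')]) (by simp)] at this
    simpa using this
  · intro s μ hμ
    obtain ⟨ν, -, hν⟩ := Finset.mem_biUnion.mp (support_sum hμ)
    rw [Finset.mem_singleton.mp (support_monomial_subset hν)]
    have := hfs ν
    omega
  · intro s
    refine (l1_sum_le _ _).trans ?_
    calc _ ≤ ∑ _ν : ι → Fin (r + 1),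
          ((2 : ℝ) ^ k) ^ 2 * 2 ^ n * 2 ^ (k + (2 * k * n + n)) := by
          refine Finset.sum_le_sum fun ν _ => ?_
          rw [l1_monomial, Int.norm_eq_abs]
          refine (hpB _).trans ?_
          rw [hcard]
          push_cast
          gcongr
      _ ≤ 2 ^ n * (((2 : ℝ) ^ k) ^ 2 * 2 ^ n * 2 ^ (k + (2 * k * n + n))) := by
          rw [Finset.sum_const, Finset.card_univ, nsmul_eq_mul, Fintype.card_fun, Fintype.card_fin,
            ← hN]
          push_cast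
          gcongr
      _ ≤ _ := by
          rw [← pow_mul, ← pow_add, ← pow_add, ← pow_add, ← pow_mul]
          exact pow_le_pow_right₀ (by norm_num) (by nlinarith)
  · intro l hl μ hμ
    by_contra hlt
    have hμ' : ∀ i, μ i < L * n := fun i =>
      (Finset.single_le_sum (f := μ) (fun _ _ => Nat.zero_le _) (Finset.mem_univ i)).trans_lt
        (not_le.mp hlt)
    have h := congrFun hp (⟨l, by omega⟩, fun i => ⟨μ i, hμ' i⟩)
    have e : fs (fun i => (⟨μ i, hμ' i⟩ : Fin (L * n))) = μ := by ext i; rfl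
    simp only [Matrix.mulVec, dotProduct, A, e, Pi.zero_apply] at h
    refine mem_support_iff.mp hμ ?_
    rw [Fintype.sum_prod_type] at h
    rw [← h, ambP, map_sum, coeff_sum]
    refine Finset.sum_congr rfl fun s _ => ?_
    rw [Finset.mul_sum, map_sum, coeff_sum]
    refine Finset.sum_congr rfl fun ν _ => ?_
    rw [monomial_mul, mul_comm _ (p _), ← C_mul_monomial, map_mul, ← algebraMap_eq,
      AlgHom.commutes, algebraMap_eq, coeff_C_mul, mul_comm]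

end Pool.Agent.Lib.MP_4ffbf9_nt.PR
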