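import Mathlib
import Pool.Agent.Lib.MP_4ffbf9_nt.PR.Amb1

/-!
The ambient auxiliary polynomial: vanishing at the solution and a nonzero jet.
-/

set_option autoImplicit false

namespace Pool.Agent.Lib.MP_4ffbf9_nt.PR

open MvPolynomial Pool.Agent.Subspace

variable {ι : Type} [Fintype ι]

omit [Fintype ι] in
theorem ambG_eq {k : ℕ} (e₁ e₂ e₃ : ι →₀ ℕ) (F : Fin (k + 1) × Fin (k + 1) → MvPolynomial ι ℤ)
    (u : ℚ) : ∑ l : Fin (2 * k + 1), C (u ^ (l : ℕ)) * map (Int.castRingHom ℚ) (ambP e₁ e₂ e₃ F l) =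
      ∑ s : Fin (k + 1) × Fin (k + 1), C (u ^ (s.1 : ℕ) * (u + 1) ^ (s.2 : ℕ)) *
        (monomial (bex e₁ e₂ e₃ s) 1 * map (Int.castRingHom ℚ) (F s)) := by
  simp only [ambP, map_sum, Finset.mul_sum]
  rw [Finset.sum_comm]
  refine Finset.sum_congr rfl fun s _ => ?_
  have hd : (upol s).natDegree < 2 * k + 1 := by
    have h1 := s.1.2
    have h2 := s.2.2
    have h3 : (upol s).natDegree ≤ s.1 + s.2 * 1 := by
      refine Polynomial.natDegree_mul_le.trans (add_le_add (by simp)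
        (Polynomial.natDegree_pow_le.trans (Nat.mul_le_mul_left _ ?_)))
      rw [← Polynomial.C_1, Polynomial.natDegree_X_add_C]
    omega
  have h4 : u ^ (s.1 : ℕ) * (u + 1) ^ (s.2 : ℕ) = Polynomial.aeval u (upol s) := by simp [upol]
  rw [h4, Polynomial.aeval_eq_sum_range' hd, Finset.sum_range, map_sum, Finset.sum_mul]
  refine Finset.sum_congr rfl fun l _ => ?_
  rw [map_mul, map_monomial, ← mul_assoc, ← mul_assoc, C_mul_monomial, C_mul_monomial]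
  simp [mul_comm]

theorem prod_bex {k n h : ℕ} {e₁ e₂ e₃ : ι →₀ ℕ} (h₁ : ∑ i, e₁ i = n) (h₂ : ∑ i, e₂ i = n)
    (h₃ : ∑ i, e₃ i = n) (x : ι → ℕ) (s : Fin (k + 1) × Fin (k + 1)) :
    ∏ i, ((x i : ℚ) / h) ^ bex e₁ e₂ e₃ s i =
      ((∏ i, x i ^ e₁ i : ℕ) : ℚ) ^ (k - s.1) * ((∏ i, x i ^ e₂ i : ℕ) : ℚ) ^ (k - s.2) *
        ((∏ i, x i ^ e₃ i : ℕ) : ℚ) ^ ((s.1 : ℕ) + s.2) / (h : ℚ) ^ (2 * k * n) := by
  simp only [div_pow, Finset.prod_div_distrib, Finset.prod_pow_eq_pow_sum, sum_bex h₁ h₂ h₃]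
  congr 1
  push_cast
  simp only [← Finset.prod_pow, ← Finset.prod_mul_distrib]
  refine Finset.prod_congr rfl fun i _ => ?_
  simp only [bex, Finsupp.add_apply, Finsupp.smul_apply, smul_eq_mul]
  ring

/-- Integrality of the Taylor coefficients at the solution. -/
theorem amb_int {k n h d a b c : ℕ} {e₁ e₂ e₃ : ι →₀ ℕ} (h₁ : ∑ i, e₁ i = n) (h₂ : ∑ i, e₂ i = n)
    (h₃ : ∑ i, e₃ i = n) {x : ι → ℕ} (hh : 0 < h) (hc : 0 < c) (hx : ∀ i, 0 < x i)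
    (he : a * ∏ i, x i ^ e₁ i + b * ∏ i, x i ^ e₂ i = c * ∏ i, x i ^ e₃ i)
    {F : Fin (k + 1) × Fin (k + 1) → MvPolynomial ι ℤ}
    (hF : ∀ s, ∀ ν ∈ (F s).support, ∑ i, ν i ≤ d) (κ : ι →₀ ℕ) :
    ∃ N : ℤ, (∏ i, ((x i : ℚ) / h) ^ κ i) * coeff κ (shift (fun i => (x i : ℚ) / h)
      (∑ l : Fin (2 * k + 1),
        C ((-((a * ∏ i, x i ^ e₁ i : ℕ) : ℚ) / ((c * ∏ i, x i ^ e₃ i : ℕ) : ℚ)) ^ (l : ℕ)) *
          map (Int.castRingHom ℚ) (ambP e₁ e₂ e₃ F l))) * ((c : ℚ) ^ (2 * k) * h ^ d * h ^ (2 * k * n))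
      = N * (((∏ i, x i ^ e₁ i : ℕ) : ℚ) * ((∏ i, x i ^ e₂ i : ℕ) : ℚ)) ^ k := by
  have hb := prod_bex (k := k) (h := h) h₁ h₂ h₃ x
  have hm : (0 : ℚ) < ((∏ i, x i ^ e₃ i : ℕ) : ℚ) := by
    exact_mod_cast Finset.prod_pos fun i _ => pow_pos (hx i) _
  have he' := congrArg (Nat.cast : ℕ → ℚ) he
  rw [Nat.cast_add, Nat.cast_mul, Nat.cast_mul, Nat.cast_mul] at he'
  rw [Nat.cast_mul, Nat.cast_mul]
  generalize ((∏ i, x i ^ e₁ i : ℕ) : ℚ) = m₁ at *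
  generalize ((∏ i, x i ^ e₂ i : ℕ) : ℚ) = m₂ at *
  generalize ((∏ i, x i ^ e₃ i : ℕ) : ℚ) = m₃ at *
  have hc' : (c : ℚ) ≠ 0 := by positivity
  have hh' : (h : ℚ) ≠ 0 := by positivity
  have hu : -((a : ℚ) * m₁) / (c * m₃) + 1 = b * m₂ / (c * m₃) := by
    field_simp; linear_combination -he'
  have add : ∀ q₁ q₂ : ℚ, (∃ N : ℤ, q₁ = N * (m₁ * m₂) ^ k) → (∃ N : ℤ, q₂ = N * (m₁ * m₂) ^ k) →
      ∃ N : ℤ, q₁ + q₂ = N * (m₁ * m₂) ^ k := by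
    rintro _ _ ⟨N₁, rfl⟩ ⟨N₂, rfl⟩
    exact ⟨N₁ + N₂, by push_cast; ring⟩
  rw [ambG_eq, hu, map_sum, coeff_sum, Finset.mul_sum, Finset.sum_mul]
  refine Finset.sum_induction _ (fun q : ℚ => ∃ N : ℤ, q = N * (m₁ * m₂) ^ k) add ⟨0, by simp⟩
    fun s _ => ?_
  rw [map_mul, ← algebraMap_eq, AlgHom.commutes, algebraMap_eq, coeff_C_mul, (F s).as_sum, map_sum,
    Finset.mul_sum, map_sum, coeff_sum, Finset.mul_sum, Finset.mul_sum, Finset.sum_mul]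
  refine Finset.sum_induction _ (fun q : ℚ => ∃ N : ℤ, q = N * (m₁ * m₂) ^ k) add ⟨0, by simp⟩
    fun ν hν => ?_
  obtain ⟨t, ht⟩ := Nat.exists_eq_add_of_le (hF s ν hν)
  obtain ⟨i, hi⟩ := Nat.exists_eq_add_of_le (Nat.lt_succ_iff.mp s.1.2)
  obtain ⟨j, hj⟩ := Nat.exists_eq_add_of_le (Nat.lt_succ_iff.mp s.2.2)
  refine ⟨(-a) ^ (s.1 : ℕ) * b ^ (s.2 : ℕ) * c ^ (i + j) * binom (bex e₁ e₂ e₃ s + ν) κ *
    coeff ν (F s) * (∏ i, (x i : ℤ) ^ ν i) * h ^ t, ?_⟩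
  rw [mul_left_comm (∏ i, ((x i : ℚ) / h) ^ κ i), map_monomial, monomial_mul, prod_mul_coeff_shift]
  simp only [Finsupp.add_apply, pow_add, Finset.prod_mul_distrib, hb s]
  simp only [div_pow, Finset.prod_div_distrib, Finset.prod_pow_eq_pow_sum]
  rw [show k - s.1 = i by omega, show k - s.2 = j by omega, ht, mul_pow m₁,
    show (c : ℚ) ^ (2 * k) = c ^ (s.1 : ℕ) * c ^ (s.2 : ℕ) * (c ^ i * c ^ j) by
      rw [← pow_add, ← pow_add, ← pow_add]; congr 1; omega,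
    show m₁ ^ k = m₁ ^ (s.1 : ℕ) * m₁ ^ i by rw [← pow_add, ← hi],
    show m₂ ^ k = m₂ ^ (s.2 : ℕ) * m₂ ^ j by rw [← pow_add, ← hj], ← neg_mul]
  simp only [mul_pow, pow_add, eq_intCast]
  push_cast
  field_simp

end Pool.Agent.Lib.MP_4ffbf9_nt.PR
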