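import Mathlib
import Pool.Agent.Lib.MP_4ffbf9_nt.PR.Amb2

/-!
The ambient auxiliary polynomial: vanishing at the solution and a nonzero jet.
-/

set_option autoImplicit false

namespace Pool.Agent.Lib.MP_4ffbf9_nt.PR

open MvPolynomial Pool.Agent.Subspace

variable {ι : Type} [Fintype ι]

theorem half_pow_le {n h : ℕ} {x : ι → ℕ} (hx : ∀ i, h ≤ 2 * x i) {e : ι →₀ ℕ}
    (he : ∑ i, e i = n) : (h : ℝ) ^ n ≤ 2 ^ n * ((∏ i, x i ^ e i : ℕ) : ℝ) := by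
  have : h ^ n ≤ 2 ^ n * ∏ i, x i ^ e i := by
    rw [← he, ← Finset.prod_pow_eq_pow_sum, ← Finset.prod_pow_eq_pow_sum,
      ← Finset.prod_mul_distrib]
    exact Finset.prod_le_prod' fun i _ => by
      rw [← mul_pow]; exact Nat.pow_le_pow_left (hx i) _
  exact_mod_cast this

/-- The auxiliary polynomial has a nonzero jet of small order at the solution. -/
theorem amb_jet {k n h d : ℕ} {e₁ e₂ e₃ : ι →₀ ℕ} (h₁ : ∑ i, e₁ i = n) (h₂ : ∑ i, e₂ i = n)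
    (h₃ : ∑ i, e₃ i = n) {x : ι → ℕ} (hh : 0 < h) (hx : ∀ i, 0 < x i) (hx2 : ∀ i, x i ≤ 2 * h)
    {F : Fin (k + 1) × Fin (k + 1) → MvPolynomial ι ℤ} (hF0 : ∃ s, F s ≠ 0)
    (hF : ∀ s, ∀ ν ∈ (F s).support, ∑ i, ν i ≤ d) {B : ℝ} (hB : ∀ s, l1 (F s) ≤ B)
    (hg : 4 ^ d * B * h ^ d * (Nat.gcd (∏ i, x i ^ e₂ i) (∏ i, x i ^ e₃ i) : ℕ) <
      ((∏ i, x i ^ e₃ i : ℕ) : ℝ)) :
    ∃ κ : ι →₀ ℕ, ∑ i, κ i ≤ d ∧ ∃ l ≤ k, coeff κ (shift (fun i => (x i : ℚ) / h)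
      (map (Int.castRingHom ℚ) (ambP e₁ e₂ e₃ F l))) ≠ 0 := by
  classical
  set p : ι → ℚ := fun i => (x i : ℚ) / h with hp
  have hex : ∃ μ : ℕ, ∃ s, ∃ κ ∈ (shift p (map (Int.castRingHom ℚ) (F s))).support,
      ∑ i, κ i = μ := by
    obtain ⟨s, hs⟩ := hF0
    obtain ⟨κ, hκ⟩ := support_nonempty.mpr (shift_ne_zero p (P := map (Int.castRingHom ℚ) (F s))
      fun h0 => hs (map_injective _ Int.cast_injective (h0.trans (map_zero _).symm)))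
    exact ⟨_, s, κ, hκ, rfl⟩
  obtain ⟨s₀, κ, hκ, hκμ⟩ := Nat.find_spec hex
  have hmin : ∀ s, ∀ ν ∈ (shift p (map (Int.castRingHom ℚ) (F s))).support,
      ∑ i, κ i ≤ ∑ i, ν i := fun s ν hν => hκμ ▸ Nat.find_min' hex ⟨s, ν, hν, rfl⟩
  refine ⟨κ, deg_shift (fun ν hν => hF s₀ ν (support_map_subset _ _ hν)) p κ hκ, ?_⟩
  choose R hR hRB using fun s => taylor_int (F s) hh (hF s) x hx2 κ
  have hh' : (h : ℚ) ≠ 0 := by positivity
  have hex2 : ∃ α : Fin (k + 1), ∃ β, R (α, β) ≠ 0 := ⟨s₀.1, s₀.2, fun h0 => by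
    have := hR s₀
    rw [h0, Int.cast_zero, eq_comm, mul_eq_zero] at this
    exact this.elim (pow_ne_zero _ hh') (mem_support_iff.mp hκ)⟩
  obtain ⟨α, ⟨β₀, hβ₀⟩, hα⟩ := WellFounded.has_min wellFounded_lt
    {α : Fin (k + 1) | ∃ β, R (α, β) ≠ 0} hex2
  refine ⟨α, Nat.lt_succ_iff.mp α.2, fun h0 => hβ₀ ?_⟩
  have hm : ∀ e : ι →₀ ℕ, 0 < ∏ i, x i ^ e i := fun e => Finset.prod_pos fun i _ => pow_pos (hx i) _
  refine amb_root_test (m₂ := ∏ i, x i ^ e₂ i) (hm e₃) (fun β => R (α, β)) (fun β => ?_) ?_ β₀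
  · have := (mul_le_mul_of_nonneg_right ((hRB (α, β)).trans (mul_le_mul_of_nonneg_right
      (mul_le_mul_of_nonneg_left (hB _) (by positivity)) (by positivity)))
        (Nat.cast_nonneg _)).trans_lt hg
    exact_mod_cast this
  · have hb := prod_bex (k := k) (h := h) h₁ h₂ h₃ x
    rw [ambP, map_sum, map_sum, coeff_sum, Fintype.sum_prod_type, Finset.sum_eq_single α] at h0
    · have h4 : (((∏ i, x i ^ e₁ i : ℕ) : ℚ) ^ (k - α) * ((∏ i, x i ^ e₃ i : ℕ) : ℚ) ^ (α : ℕ) /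
          ((h : ℚ) ^ (2 * k * n) * h ^ d)) ≠ 0 := by
        have := hm e₁
        have := hm e₃
        positivity
      refine Int.cast_injective (α := ℚ) (mul_left_cancel₀ h4 ?_)
      rw [Int.cast_zero, mul_zero, ← h0, Int.cast_sum, Finset.mul_sum]
      refine Finset.sum_congr rfl fun β _ => ?_
      rw [map_mul, map_mul, coeff_mul_low _ _ _ (hmin _), coeff_zero_shift, map_monomial,
        eval_monomial, Finsupp.prod_fintype _ _ (by simp), hb, Int.cast_mul, hR]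
      have h5 : (upol (α, β)).coeff α = 1 := by
        simp [upol, Polynomial.coeff_X_pow_mul', Polynomial.coeff_X_add_one_pow]
      rw [h5, pow_add]
      simp only [Int.cast_mul, Int.cast_pow, Int.cast_natCast, map_one]
      field_simp
      rfl
    · intro α' _ hne
      refine Finset.sum_eq_zero fun β _ => ?_
      rw [map_mul, map_mul, coeff_mul_low _ _ _ (hmin _)]
      rcases lt_or_gt_of_ne hne with h6 | h6
      · have h7 : R (α', β) = 0 := by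
          by_contra h8
          exact hα α' ⟨β, h8⟩ h6
        have := hR (α', β)
        rw [h7, Int.cast_zero, eq_comm, mul_eq_zero] at this
        rw [this.resolve_left (pow_ne_zero _ hh'), mul_zero]
      · have h5 : (upol (α', β)).coeff α = 0 := by
          rw [upol, Polynomial.coeff_X_pow_mul']
          exact if_neg (not_le.mpr h6)
        simp [h5]
    · simp

/-- Steps 1 to 3. -/
theorem amb (ι : Type) [Fintype ι] (J : ℕ) (hJ : 1 ≤ J) :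
    ∃ (k : ℕ) (K : ℝ) (h₀ : ℕ), 1 ≤ K ∧ ∀ (n h a b c : ℕ) (x : ι → ℕ) (e₁ e₂ e₃ : ι →₀ ℕ),
      1 ≤ n → h₀ ≤ h → (∀ i, |(x i : ℝ) / h - 1| ^ J * h ≤ 1) →
      ∑ i, e₁ i = n → ∑ i, e₂ i = n → ∑ i, e₃ i = n → 0 < c →
      a * ∏ i, x i ^ e₁ i + b * ∏ i, x i ^ e₂ i = c * ∏ i, x i ^ e₃ i →
      c ^ (4 * k) ≤ h ^ n → Nat.gcd (∏ i, x i ^ e₂ i) (∏ i, x i ^ e₃ i) ^ 4 ≤ h ^ n →
      ∃ w : Fin (2 * k + 1) → MvPolynomial ι ℤ,
        (∀ l, (w l).totalDegree ≤ (2 * k + 1) * n) ∧ (∀ l, l1 (w l) ≤ K ^ n) ∧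
        (∃ l, eval (fun i => (x i : ℚ) / h) (map (Int.castRingHom ℚ) (w l)) ≠ 0) ∧
        IdxGe (fun _ => (1 : ℝ)) (((n + 1) / 2 : ℕ) : ℝ) (shift (fun i => (x i : ℚ) / h)
          (∑ l : Fin (2 * k + 1),
            C ((-((a * ∏ i, x i ^ e₁ i : ℕ) : ℚ) / ((c * ∏ i, x i ^ e₃ i : ℕ) : ℚ)) ^ (l : ℕ)) *
              map (Int.castRingHom ℚ) (w l))) := by
  classical
  obtain ⟨k, hk⟩ : ∃ k, 4 * (2 * Fintype.card ι * (2 * J + 1)) ^ Fintype.card ι ≤ k + 1 :=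
    ⟨_, Nat.le_succ _⟩
  obtain ⟨K₀, hK₀, hS⟩ := amb_siegel (ι := ι) (2 * J + 1) k hk
  obtain ⟨K₁, hK₁⟩ : ∃ K₁ : ℝ, K₁ = (k + 1) ^ 2 * 2 ^ k * K₀ := ⟨_, rfl⟩
  have hk1 : (1 : ℝ) ≤ (k + 1) ^ 2 * 2 ^ k := one_le_mul_of_one_le_of_one_le
    (one_le_pow₀ (by linarith [Nat.cast_nonneg (α := ℝ) k])) (one_le_pow₀ (by norm_num))
  have hK₁1 : 1 ≤ K₁ := hK₁ ▸ one_le_mul_of_one_le_of_one_le hk1 hK₀
  obtain ⟨h₀, hh₀⟩ := exists_nat_gt ((2 : ℝ) ^ J + (8 * K₀) ^ 4 +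
    4 ^ k * (2 * ((2 * k + 1) * (4 ^ (2 * k + 1) * K₁))))
  refine ⟨k, 2 ^ (2 * k + 1) * K₁, h₀, one_le_mul_of_one_le_of_one_le (one_le_pow₀ (by norm_num))
    hK₁1, fun n h a b c x e₁ e₂ e₃ hn hh hw h₁ h₂ h₃ hc he hck hg => ?_⟩
  replace hh₀ := hh₀.trans_le (Nat.cast_le.mpr hh)
  have p1 : (0 : ℝ) < 2 ^ J := by positivity
  have p2 : (0 : ℝ) < (8 * K₀) ^ 4 := by positivity
  have p3 : (0 : ℝ) < 4 ^ k * (2 * ((2 * k + 1) * (4 ^ (2 * k + 1) * K₁))) := by positivity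
  have hR : (0 : ℝ) < h := by linarith
  have hN : 0 < h := by exact_mod_cast hR
  obtain ⟨η, η0, η1, hη, hp⟩ : ∃ η : ℝ, 0 ≤ η ∧ η ≤ 1 / 2 ∧ η ^ J * h ≤ 1 ∧
      ∀ i, |(x i : ℝ) / h - 1| ≤ η := by
    have : Nonempty ι := by
      by_contra h0
      rw [not_nonempty_iff] at h0
      simp at h₁; omega
    obtain ⟨i, hi⟩ := Finite.exists_max fun i => |(x i : ℝ) / h - 1|
    refine ⟨_, abs_nonneg _, ?_, hw i, hi⟩
    refine le_of_not_gt fun h0 => ?_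
    have h4 : (1 / 2 : ℝ) ^ J * 2 ^ J < |(x i : ℝ) / h - 1| ^ J * h :=
      mul_lt_mul'' (pow_lt_pow_left₀ h0 (by norm_num) (by omega)) (by linarith) (by positivity)
        p1.le
    rw [← mul_pow] at h4
    norm_num at h4
    linarith [hw i]
  have hx : ∀ i, h ≤ 2 * x i ∧ x i ≤ 2 * h := fun i => by
    obtain ⟨h4, h5⟩ := abs_le.mp ((hp i).trans η1)
    have h6 : (1 / 2 : ℝ) ≤ x i / h := by linarith
    have h7 : (x i : ℝ) / h ≤ 2 := by linarith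
    rw [le_div_iff₀ hR] at h6
    rw [div_le_iff₀ hR] at h7
    exact ⟨by exact_mod_cast (by linarith : (h : ℝ) ≤ 2 * x i), by exact_mod_cast h7⟩
  have hx0 : ∀ i, 0 < x i := fun i => by have := (hx i).1; omega
  obtain ⟨F, hF0, hF, hFl, hFv⟩ := hS n hn e₁ e₂ e₃ h₁ h₂ h₃
  have hPd : ∀ l, ∀ ν ∈ (ambP e₁ e₂ e₃ F l).support, ∑ i, ν i ≤ (2 * k + 1) * n := fun l ν hν => by
    have := ambP_deg h₁ h₂ h₃ hF l ν hν
    rw [add_mul]; omega
  have hPl : ∀ l, l1 (ambP e₁ e₂ e₃ F l) ≤ K₁ ^ n := fun l => (ambP_l1 e₁ e₂ e₃ hFl l).trans (by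
    rw [hK₁, mul_pow _ K₀]
    exact mul_le_mul_of_nonneg_right (le_self_pow₀ hk1 (by omega)) (by positivity))
  have hd2 : ((h : ℝ) ^ (n / 2)) ^ 2 ≤ h ^ n := by
    rw [← pow_mul]; exact pow_le_pow_right₀ (by exact_mod_cast hN) (by omega)
  obtain ⟨κ, hκ, l₀, hl₀, hne⟩ := amb_jet h₁ h₂ h₃ hN hx0 (fun i => (hx i).2) hF0 hF hFl (by
    have h4 := half_pow_le (fun i => (hx i).1) h₃
    have h5 : ((Nat.gcd (∏ i, x i ^ e₂ i) (∏ i, x i ^ e₃ i) : ℕ) : ℝ) ^ 4 ≤ h ^ n := by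
      exact_mod_cast hg
    generalize ((Nat.gcd (∏ i, x i ^ e₂ i) (∏ i, x i ^ e₃ i) : ℕ) : ℝ) = g at h5 ⊢
    have h6 : (4 : ℝ) ^ (n / 2) ≤ 4 ^ n := pow_le_pow_right₀ (by norm_num) (by omega)
    refine lt_of_mul_lt_mul_left (a := 2 ^ n) (lt_of_lt_of_le ?_ h4) (by positivity)
    refine lt_of_pow_lt_pow_left₀ 4 (by positivity) ?_
    calc _ = (2 ^ n * 4 ^ (n / 2) * K₀ ^ n) ^ 4 * (((h : ℝ) ^ (n / 2)) ^ 2) ^ 2 * g ^ 4 := by ring
      _ ≤ (2 ^ n * 4 ^ n * K₀ ^ n) ^ 4 * ((h : ℝ) ^ n) ^ 2 * h ^ n := by gcongr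
      _ = ((8 * K₀) ^ 4) ^ n * ((h : ℝ) ^ n) ^ 3 := by
          rw [← mul_pow, ← mul_pow, ← pow_mul, ← pow_mul (8 * K₀), mul_comm 4 n]; ring
      _ < (h : ℝ) ^ n * ((h : ℝ) ^ n) ^ 3 := by
          gcongr; linarith
      _ = _ := by ring)
  refine ⟨fun l => hasse κ (ambP e₁ e₂ e₃ F l), fun l => ?_, fun l => ?_, ⟨⟨l₀, by omega⟩, ?_⟩, ?_⟩
  · refine Finset.sup_le fun ν hν => ?_
    have := hPd l _ (mem_support_hasse hν)
    simp only [Finsupp.add_apply, Finset.sum_add_distrib] at this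
    rw [Finsupp.sum_fintype _ _ (by simp)]
    omega
  · refine (l1_hasse_le κ _ (hPd l)).trans ?_
    rw [mul_pow, ← pow_mul]
    exact mul_le_mul_of_nonneg_left (hPl l) (by positivity)
  · rwa [map_hasse, ← coeff_shift]
  have hint := amb_int (k := k) h₁ h₂ h₃ hN hc hx0 he hF
  have hu : |((-((a * ∏ i, x i ^ e₁ i : ℕ) : ℚ) / ((c * ∏ i, x i ^ e₃ i : ℕ) : ℚ) : ℚ) : ℝ)| ≤ 1 := by
    rw [← he, Rat.cast_div, Rat.cast_neg, Rat.cast_natCast, Rat.cast_natCast, abs_div, abs_neg,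
      Nat.abs_cast, Nat.abs_cast]
    exact div_le_one_of_le₀ (by exact_mod_cast Nat.le_add_right _ _) (Nat.cast_nonneg _)
  generalize (-((a * ∏ i, x i ^ e₁ i : ℕ) : ℚ) / ((c * ∏ i, x i ^ e₃ i : ℕ) : ℚ)) = u at hint hu ⊢
  have hvan : IdxGe (fun _ => (1 : ℝ)) ((n + 1 : ℕ) : ℝ) (shift (fun i => (x i : ℚ) / h)
      (∑ l : Fin (2 * k + 1), C (u ^ (l : ℕ)) * map (Int.castRingHom ℚ) (ambP e₁ e₂ e₃ F l))) := by
    rw [ord_iff]
    intro ν hν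
    by_contra hlt
    obtain ⟨N, hN'⟩ := hint ν
    have hco : |((coeff ν (shift (fun i => (x i : ℚ) / h) (∑ l : Fin (2 * k + 1),
        C (u ^ (l : ℕ)) * map (Int.castRingHom ℚ) (ambP e₁ e₂ e₃ F l))) : ℚ) : ℝ)| ≤
        (2 * k + 1) * (4 ^ ((2 * k + 1) * n) * K₁ ^ n * η ^ (J * (2 * n))) := by
      rw [map_sum, coeff_sum, Rat.cast_sum]
      refine (Finset.abs_sum_le_sum_abs _ _).trans ((Finset.sum_le_card_nsmul _ _
        (4 ^ ((2 * k + 1) * n) * K₁ ^ n * η ^ (J * (2 * n))) fun l _ => ?_).trans (by simp))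
      rw [map_mul, ← algebraMap_eq, AlgHom.commutes, algebraMap_eq, coeff_C_mul, Rat.cast_mul,
        abs_mul, Rat.cast_pow, abs_pow]
      refine (mul_le_of_le_one_left (abs_nonneg _) (pow_le_one₀ (abs_nonneg _) hu)).trans ?_
      refine (taylor_small _ (hPd l) (hFv l (Nat.lt_succ_iff.mp l.2)) _ η0 (by linarith)
        (fun i => by simpa using hp i) ν (t := J * (2 * n)) (by nlinarith)).trans ?_
      gcongr
      exact hPl l
    have hν0 := mem_support_iff.mp hν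
    generalize coeff ν (shift (fun i => (x i : ℚ) / h) (∑ l : Fin (2 * k + 1),
        C (u ^ (l : ℕ)) * map (Int.castRingHom ℚ) (ambP e₁ e₂ e₃ F l))) = q at hN' hco hν0
    have hN0 : N ≠ 0 := by
      rintro rfl
      have : (∏ i, ((x i : ℚ) / h) ^ ν i) ≠ 0 :=
        Finset.prod_ne_zero_iff.mpr fun i _ => by have := hx0 i; positivity
      rw [Int.cast_zero, zero_mul] at hN'
      exact mul_ne_zero (mul_ne_zero this hν0) (by positivity) hN'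
    have hN1 : (1 : ℝ) ≤ |(N : ℝ)| := by exact_mod_cast Int.one_le_abs hN0
    have hpν : ∏ i, ((x i : ℝ) / h) ^ ν i ≤ 2 ^ n := by
      refine le_trans ?_ (pow_le_pow_right₀ (by norm_num) (show ∑ i, ν i ≤ n by omega))
      rw [← Finset.prod_pow_eq_pow_sum]
      refine Finset.prod_le_prod (fun _ _ => by positivity) fun i _ =>
        pow_le_pow_left₀ (by positivity) ?_ _
      rw [div_le_iff₀ hR]; exact_mod_cast (hx i).2
    have hc2 : (c : ℝ) ^ (2 * k) * h ^ (n / 2) ≤ h ^ n := by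
      have h4 : ((c : ℝ) ^ (2 * k)) ^ 2 ≤ h ^ n := by
        rw [← pow_mul, show 2 * k * 2 = 4 * k by ring]; exact_mod_cast hck
      refine le_of_pow_le_pow_left₀ two_ne_zero (by positivity) ?_
      rw [mul_pow, sq ((h : ℝ) ^ n)]
      gcongr
    have h4 := half_pow_le (fun i => (hx i).1) h₁
    have h5 := half_pow_le (fun i => (hx i).1) h₂
    have h6 := congrArg (fun t : ℚ => |(t : ℝ)|) hN'
    simp only [Rat.cast_mul, Rat.cast_prod, Rat.cast_pow, Rat.cast_div, Rat.cast_natCast,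
      Rat.cast_intCast, abs_mul, abs_pow, Nat.abs_cast] at h6
    rw [abs_of_nonneg (Finset.prod_nonneg fun _ _ => by positivity)] at h6
    generalize ((∏ i, x i ^ e₁ i : ℕ) : ℝ) = m₁ at h4 h6
    generalize ((∏ i, x i ^ e₂ i : ℕ) : ℝ) = m₂ at h5 h6
    have hm₁ : 0 ≤ m₁ := nonneg_of_mul_nonneg_right (le_trans (by positivity) h4) (by positivity)
    have hm₂ : 0 ≤ m₂ := nonneg_of_mul_nonneg_right (le_trans (by positivity) h5) (by positivity)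
    have h7 : η ^ (J * (2 * n)) * (h : ℝ) ^ (2 * n) ≤ 1 := by
      rw [pow_mul, ← mul_pow]; exact pow_le_one₀ (by positivity) hη
    have h8 : (2 * k + 1 : ℝ) ≤ (2 * k + 1) ^ n :=
      le_self_pow₀ (by linarith [Nat.cast_nonneg (α := ℝ) k]) (by omega)
    have h9 : (h : ℝ) ^ n * (h ^ n * h ^ (2 * k * n)) ≤
        (4 ^ k * (2 * ((2 * k + 1) * (4 ^ (2 * k + 1) * K₁)))) ^ n * (h ^ n * h ^ (2 * k * n)) := by
      calc (h : ℝ) ^ n * (h ^ n * h ^ (2 * k * n)) = h ^ (2 * n) * (h ^ n * h ^ n) ^ k := by ring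
        _ ≤ h ^ (2 * n) * (2 ^ n * m₁ * (2 ^ n * m₂)) ^ k := by gcongr
        _ = h ^ (2 * n) * (2 ^ n * 2 ^ n) ^ k * (1 * (m₁ * m₂) ^ k) := by ring
        _ ≤ h ^ (2 * n) * (2 ^ n * 2 ^ n) ^ k * (|(N : ℝ)| * (m₁ * m₂) ^ k) := by gcongr
        _ = h ^ (2 * n) * (2 ^ n * 2 ^ n) ^ k * ((∏ i, ((x i : ℝ) / h) ^ ν i) * |(q : ℝ)| *
            ((c : ℝ) ^ (2 * k) * h ^ (n / 2) * h ^ (2 * k * n))) := by rw [h6]
        _ ≤ h ^ (2 * n) * (2 ^ n * 2 ^ n) ^ k * (2 ^ n *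
            ((2 * k + 1) * (4 ^ ((2 * k + 1) * n) * K₁ ^ n * η ^ (J * (2 * n)))) *
            ((h : ℝ) ^ n * h ^ (2 * k * n))) := by gcongr
        _ = (η ^ (J * (2 * n)) * (h : ℝ) ^ (2 * n)) * (2 * k + 1) * ((2 ^ n * 2 ^ n) ^ k * 2 ^ n *
            (4 ^ ((2 * k + 1) * n) * K₁ ^ n) * ((h : ℝ) ^ n * h ^ (2 * k * n))) := by ring
        _ ≤ 1 * (2 * k + 1) ^ n * ((2 ^ n * 2 ^ n) ^ k * 2 ^ n *
            (4 ^ ((2 * k + 1) * n) * K₁ ^ n) * ((h : ℝ) ^ n * h ^ (2 * k * n))) := by gcongr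
        _ = _ := by
            rw [← mul_pow 2 2 n, show (2 * 2 : ℝ) = 4 by norm_num, ← pow_mul 4 n k, mul_comm n k,
              pow_mul 4 k n, pow_mul 4 (2 * k + 1) n]
            generalize (2 * k + 1 : ℝ) = t
            generalize (4 : ℝ) ^ (2 * k + 1) = t'
            generalize (4 : ℝ) ^ k = t''
            simp only [mul_pow]
            ring
    have h10 := le_of_mul_le_mul_right h9 (by positivity)
    have h11 := le_of_pow_le_pow_left₀ (by omega) p3.le h10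
    linarith
  have h12 := hvan.hasse κ
  rw [hasse_shift, map_sum] at h12
  simp only [← smul_eq_C_mul, map_smul] at h12 ⊢
  simp only [map_hasse]
  refine h12.mono ?_
  rw [weight_const, mul_one, le_sub_iff_add_le]
  exact_mod_cast (by omega : (n + 1) / 2 + ∑ i, κ i ≤ n + 1)

end Pool.Agent.Lib.MP_4ffbf9_nt.PR
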