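import Mathlib
import Pool.Agent.Shared.Subspace.Index

/-!
Derivations on a variety over a Noether normalisation, and the transfer of vanishing orders.
-/

set_option autoImplicit false

namespace Pool.Agent.Lib.MP_4ffbf9_nt.PR

open MvPolynomial Pool.Agent.Subspace

/-- A derivation of `B` with values in `L` extends along a formally etale map. -/
theorem exists_der {B L : Type} [CommRing B] [CommRing L] [Algebra ℚ B] [Algebra ℚ L] [Algebra B L]
    [IsScalarTower ℚ B L] [Algebra.FormallyEtale B L] (δ : Derivation ℚ B L) :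
    ∃ D : Derivation ℚ L L, ∀ b, D (algebraMap B L b) = δ b := by
  let φ : Ω[L⁄ℚ] →ₗ[L] L := (LinearMap.liftBaseChange L δ.liftKaehlerDifferential).comp
    (KaehlerDifferential.tensorKaehlerEquivOfFormallyEtale ℚ B L).symm.toLinearMap
  refine ⟨φ.compDer (KaehlerDifferential.D ℚ L), fun b => ?_⟩
  simp [φ, KaehlerDifferential.tensorKaehlerEquivOfFormallyEtale_symm_D_algebraMap]

theorem etale_frac {B R : Type} [CommRing B] [CommRing R] [IsDomain B] [IsDomain R] [CharZero B]
    [Algebra B R] [FaithfulSMul B R] [Module.Finite B R] :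
    Algebra.FormallyEtale B (FractionRing R) := by
  let := FractionRing.liftAlgebra B (FractionRing R)
  have h1 : Algebra.FormallyEtale B (FractionRing B) :=
    Algebra.FormallyEtale.of_isLocalization (nonZeroDivisors B)
  have h2 : Algebra.IsAlgebraic (FractionRing B) (FractionRing R) := inferInstance
  have h3 : Algebra.IsSeparable (FractionRing B) (FractionRing R) := inferInstance
  have h4 : Algebra.FormallyEtale (FractionRing B) (FractionRing R) :=
    Algebra.FormallyEtale.of_isSeparable _ _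
  exact Algebra.FormallyEtale.comp B (FractionRing B) (FractionRing R)

variable {σ : Type} [Fintype σ]

theorem der_chain {L : Type} [CommRing L] [Algebra ℚ L] (ι : MvPolynomial σ ℚ →ₐ[ℚ] L)
    (D : Derivation ℚ L L) (f : MvPolynomial σ ℚ) :
    D (ι f) = ∑ j, D (ι (X j)) * ι (pderiv j f) := by
  classical
  induction f using MvPolynomial.induction_on with
  | C a => simp
  | add p q hp hq => simp [hp, hq, mul_add, Finset.sum_add_distrib]
  | mul_X p i hp =>
    simp only [map_mul, Derivation.leibniz, smul_eq_mul, hp, pderiv_X, map_add, mul_add,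
      Finset.sum_add_distrib, Finset.mul_sum]
    congr 1
    · rw [Finset.sum_eq_single i]
      · simp [mul_comm]
      · intro j _ hj
        simp [Pi.single_eq_of_ne (Ne.symm hj)]
      · simp
    · exact Finset.sum_congr rfl fun j _ => by ring

/-- Polynomial vector fields tangent to the variety that lift the coordinate fields. -/
theorem exists_fields {R : Type} [CommRing R] [IsDomain R] [Algebra ℚ R] {d : ℕ}
    [Algebra (MvPolynomial (Fin d) ℚ) R] [IsScalarTower ℚ (MvPolynomial (Fin d) ℚ) R]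
    [FaithfulSMul (MvPolynomial (Fin d) ℚ) R] [Module.Finite (MvPolynomial (Fin d) ℚ) R]
    (π : MvPolynomial σ ℚ →ₐ[ℚ] R) (hπ : Function.Surjective π) (t : Fin d → MvPolynomial σ ℚ)
    (ht : ∀ b : MvPolynomial (Fin d) ℚ, π (aeval t b) = algebraMap _ R b) :
    ∃ s, π s ≠ 0 ∧ ∃ a : Fin d → σ → MvPolynomial σ ℚ, ∀ i,
      (∀ f, π f = 0 → π (∑ j, a i j * pderiv j f) = 0) ∧
      ∀ b : MvPolynomial (Fin d) ℚ,
        π (∑ j, a i j * pderiv j (aeval t b) - s * aeval t (pderiv i b)) = 0 := by
  classical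
  have := etale_frac (B := MvPolynomial (Fin d) ℚ) (R := R)
  have hD : ∀ i : Fin d, ∃ D : Derivation ℚ (FractionRing R) (FractionRing R),
      ∀ b : MvPolynomial (Fin d) ℚ, D (algebraMap _ _ b) = algebraMap _ _ (pderiv i b) := fun i =>
    exists_der ((Algebra.linearMap _ (FractionRing R)).compDer (pderiv i))
  choose D hD using hD
  let ι : MvPolynomial σ ℚ →ₐ[ℚ] FractionRing R := (IsScalarTower.toAlgHom ℚ R _).comp π
  have hι : ∀ f, ι f = algebraMap R _ (π f) := fun f => rfl
  have hker : ∀ f, ι f = 0 ↔ π f = 0 := fun f => by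
    rw [hι, map_eq_zero_iff _ (IsFractionRing.injective R _)]
  have hιt : ∀ b : MvPolynomial (Fin d) ℚ, ι (aeval t b) = algebraMap _ _ b := fun b => by
    rw [hι, ht, ← IsScalarTower.algebraMap_apply]
  obtain ⟨s0, hs0⟩ := IsLocalization.exist_integer_multiples_of_finite (nonZeroDivisors R)
    (fun q : Fin d × σ => D q.1 (ι (X q.2)))
  obtain ⟨s, hs⟩ := hπ (s0 : R)
  have ha : ∀ q : Fin d × σ, ∃ a, ι a = ι s * D q.1 (ι (X q.2)) := fun q => by
    obtain ⟨y, hy⟩ := hs0 q
    obtain ⟨a, rfl⟩ := hπ y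
    exact ⟨a, by rw [hι, hy, hι s, hs, Algebra.smul_def]⟩
  choose a ha using ha
  have key : ∀ i f, ι (∑ j, a (i, j) * pderiv j f) = ι s * D i (ι f) := fun i f => by
    rw [der_chain, map_sum, Finset.mul_sum]
    exact Finset.sum_congr rfl fun j _ => by rw [map_mul, ha, mul_assoc]
  refine ⟨s, hs ▸ nonZeroDivisors.coe_ne_zero s0, fun i j => a (i, j),
    fun i => ⟨fun f hf => ?_, fun b => ?_⟩⟩
  · rw [← hker, key, (hker f).2 hf, map_zero, mul_zero]
  · rw [← hker, map_sub, key, map_mul, hιt, hιt, hD, sub_self]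

/-- `G` vanishes at `p` to order at least `μ`. -/
abbrev VanN {τ : Type} (p : τ → ℚ) (μ : ℕ) (G : MvPolynomial τ ℚ) : Prop :=
  IdxGe (fun _ => (1 : ℝ)) μ (shift p G)

theorem weight_one {τ : Type} [Fintype τ] (ν : τ →₀ ℕ) :
    Finsupp.weight (fun _ => (1 : ℝ)) ν = ((∑ i, ν i : ℕ) : ℝ) := by
  rw [Finsupp.weight_eq_sum]
  simp

theorem coeff_zero_shift {τ : Type} (p : τ → ℚ) (G : MvPolynomial τ ℚ) :
    coeff 0 (shift p G) = eval p G := by
  rw [← constantCoeff_eq]
  induction G using MvPolynomial.induction_on with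
  | C a => simp [shift]
  | add p q hp hq => simp [hp, hq]
  | mul_X p i hp => simp [hp]

theorem VanN.eval_eq {τ : Type} {p : τ → ℚ} {μ : ℕ} {G : MvPolynomial τ ℚ}
    (h : VanN p (μ + 1) G) : eval p G = 0 := by
  by_contra h0
  have := h 0 (by rwa [mem_support_iff, coeff_zero_shift])
  rw [map_zero] at this
  have h1 : (0 : ℝ) < ((μ + 1 : ℕ) : ℝ) := by positivity
  linarith

theorem VanN.pderiv {τ : Type} [Fintype τ] {p : τ → ℚ} {μ : ℕ} {G : MvPolynomial τ ℚ}
    (h : VanN p (μ + 1) G) (i : τ) : VanN p μ (pderiv i G) := by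
  intro ν hν
  rw [← pderiv_shift, mem_support_iff, coeff_pderiv] at hν
  have := h _ (mem_support_iff.2 (left_ne_zero_of_mul hν))
  rw [map_add, Finsupp.weight_single] at this
  simp only [Nat.cast_add, Nat.cast_one, one_smul] at this
  linarith

theorem VanN.mul_left {τ : Type} {p : τ → ℚ} {μ : ℕ} {G : MvPolynomial τ ℚ}
    (h : VanN p μ G) (F : MvPolynomial τ ℚ) : VanN p μ (F * G) := by
  have := (idxGe_of_nonneg (fun _ => zero_le_one) (shift p F)).mul h
  rwa [zero_add, ← map_mul] at this

theorem vanN_succ {τ : Type} [Fintype τ] {p : τ → ℚ} {μ : ℕ} {G : MvPolynomial τ ℚ}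
    (h0 : eval p G = 0) (h : ∀ i, VanN p μ (pderiv i G)) : VanN p (μ + 1) G := by
  classical
  intro ν hν
  by_cases hz : ν = 0
  · rw [hz, mem_support_iff, coeff_zero_shift] at hν
    exact absurd h0 hν
  obtain ⟨i, hi⟩ : ∃ i, ν i ≠ 0 := by
    by_contra hc
    push Not at hc
    exact hz (Finsupp.ext hc)
  have he : ν - Finsupp.single i 1 + Finsupp.single i 1 = ν :=
    tsub_add_cancel_of_le (Finsupp.single_le_iff.2 (Nat.one_le_iff_ne_zero.2 hi))
  have := h i (ν - Finsupp.single i 1) (by
    rw [← pderiv_shift, mem_support_iff, coeff_pderiv, he]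
    exact mul_ne_zero (mem_support_iff.1 hν) (by positivity))
  rw [← he, map_add, Finsupp.weight_single]
  simp only [Nat.cast_add, Nat.cast_one, one_smul]
  linarith

/-- Transfer of the vanishing order from the ambient space to the parameter space. -/
theorem transfer (PP : Ideal (MvPolynomial σ ℚ)) {d : ℕ} (t : Fin d → MvPolynomial σ ℚ)
    (s : MvPolynomial σ ℚ) (a : Fin d → σ → MvPolynomial σ ℚ)
    (h1 : ∀ i, ∀ f ∈ PP, ∑ j, a i j * pderiv j f ∈ PP)
    (h2 : ∀ i, ∀ b : MvPolynomial (Fin d) ℚ,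
      ∑ j, a i j * pderiv j (aeval t b) - s * aeval t (pderiv i b) ∈ PP)
    (p : σ → ℚ) (hp : ∀ f ∈ PP, eval p f = 0) (hs : eval p s ≠ 0) (μ : ℕ) :
    ∀ (b : MvPolynomial (Fin d) ℚ) (s' F : MvPolynomial σ ℚ), eval p s' ≠ 0 → VanN p μ F →
      s' * aeval t b - F ∈ PP → VanN (fun i => eval p (t i)) μ b := by
  induction μ with
  | zero =>
    intro b _ _ _ _ _
    exact (idxGe_of_nonneg (fun _ => zero_le_one) _).mono (by simp)
  | succ μ ih =>
    intro b s' F hs' hF hb
    have hF' : VanN p μ F := hF.mono (by push_cast; linarith)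
    refine vanN_succ ?_ fun i => ?_
    · have := hp _ hb
      rw [map_sub, hF.eval_eq, sub_zero, map_mul, mul_eq_zero, or_iff_right hs'] at this
      rw [← this, ← coe_aeval_eq_eval, ← coe_aeval_eq_eval]
      simp only [RingHom.coe_coe]
      rw [← AlgHom.comp_apply, comp_aeval]
    · refine ih (pderiv i b) (s' * s' * s)
        (s' * ∑ j, a i j * pderiv j F - (∑ j, a i j * pderiv j s') * F)
        (by simp [hs, hs']) ?_ ?_
      · change IdxGe _ _ _
        rw [map_sub]
        refine IdxGe.sub (VanN.mul_left ?_ _) (hF'.mul_left _)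
        change IdxGe _ _ _
        rw [map_sum]
        exact idxGe_sum _ fun j _ => (hF.pderiv j).mul_left _
      · have e1 := PP.mul_mem_left s' (h1 i _ hb)
        have e2 := PP.mul_mem_left (s' * s') (h2 i b)
        have e3 := PP.mul_mem_left (∑ j, a i j * pderiv j s') hb
        have e4 : ∑ j, a i j * pderiv j (s' * aeval t b - F) =
            s' * ∑ j, a i j * pderiv j (aeval t b) + (∑ j, a i j * pderiv j s') * aeval t b
              - ∑ j, a i j * pderiv j F := by
          rw [Finset.mul_sum, Finset.sum_mul, ← Finset.sum_add_distrib, ← Finset.sum_sub_distrib]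
          refine Finset.sum_congr rfl fun j _ => ?_
          rw [map_sub, Derivation.leibniz, smul_eq_mul, smul_eq_mul]
          ring
        rw [e4] at e1
        have := PP.sub_mem (PP.sub_mem e1 e2) e3
        refine (congrArg (· ∈ PP) ?_).mp this
        ring

end Pool.Agent.Lib.MP_4ffbf9_nt.PR
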