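import Mathlib
import Pool.Agent.Shared.Subspace.RothAux

/-!
Multiplication matrices with integer polynomial entries, with degree and size bounds.
-/

set_option autoImplicit false

namespace Pool.Agent.Lib.MP_4ffbf9_nt.PR

open MvPolynomial Pool.Agent.Subspace

theorem clear_one {τ : Type} (f : MvPolynomial τ ℚ) :
    ∃ c : ℤ, c ≠ 0 ∧ ∃ g : MvPolynomial τ ℤ, map (Int.castRingHom ℚ) g = C (c : ℚ) * f := by
  induction f using MvPolynomial.induction_on with
  | C a =>
    refine ⟨a.den, by exact_mod_cast a.den_nz, C a.num, ?_⟩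
    rw [map_C, ← C_mul]
    simp
  | add p q hp hq =>
    obtain ⟨c, hc, g, hg⟩ := hp
    obtain ⟨c', hc', g', hg'⟩ := hq
    refine ⟨c * c', mul_ne_zero hc hc', C c' * g + C c * g', ?_⟩
    rw [map_add, map_mul, map_mul, hg, hg', map_C, map_C, Int.cast_mul, C_mul]
    simp only [eq_intCast]
    ring
  | mul_X p i hp =>
    obtain ⟨c, hc, g, hg⟩ := hp
    exact ⟨c, hc, g * X i, by rw [map_mul, hg, map_X, mul_assoc]⟩

theorem clear_fam {τ κ : Type} [Fintype κ] (f : κ → MvPolynomial τ ℚ) :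
    ∃ c : ℤ, c ≠ 0 ∧ ∃ g : κ → MvPolynomial τ ℤ,
      ∀ k, map (Int.castRingHom ℚ) (g k) = C (c : ℚ) * f k := by
  classical
  choose c hc g hg using fun k => clear_one (f k)
  refine ⟨∏ k, c k, Finset.prod_ne_zero_iff.2 fun k _ => hc k,
    fun k => C (∏ j ∈ Finset.univ.erase k, c j) * g k, fun k => ?_⟩
  rw [map_mul, hg, map_C, ← mul_assoc, ← C_mul, eq_intCast, ← Int.cast_mul,
    Finset.prod_erase_mul _ _ (Finset.mem_univ k)]

/-- An independent family such that every element has a nonzero multiple in its span. -/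
theorem exists_gen_basis {B R : Type} [CommRing B] [IsDomain B] [AddCommGroup R] [Module B R]
    [Module.Finite B R] : ∃ (e : ℕ) (ω : Fin e → R), LinearIndependent B ω ∧
      ∀ y : R, ∃ a : B, a ≠ 0 ∧ a • y ∈ Submodule.span B (Set.range ω) := by
  classical
  obtain ⟨n, v, hv⟩ := Module.Finite.exists_fin (R := B) (M := R)
  obtain ⟨I, hI, hm⟩ := exists_maximal_linearIndepOn B v
  let q := (Fintype.equivFin I).symm
  have hr : Set.range (fun i => v (q i)) = v '' I := by
    rw [Set.image_eq_range]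
    exact q.surjective.range_comp fun x : I => v x
  refine ⟨_, fun i => v (q i), hI.comp q q.injective, fun y => ?_⟩
  rw [hr]
  have hy : y ∈ Submodule.span B (Set.range v) := hv ▸ Submodule.mem_top
  induction hy using Submodule.span_induction with
  | mem x hx =>
    obtain ⟨i, rfl⟩ := hx
    by_cases hi : i ∈ I
    · exact ⟨1, one_ne_zero, by rw [one_smul]; exact Submodule.subset_span ⟨i, hi, rfl⟩⟩
    · exact hm i hi
  | zero => exact ⟨1, one_ne_zero, by simp⟩
  | add x y _ _ hx hy =>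
    obtain ⟨a, ha, hx⟩ := hx
    obtain ⟨b, hb, hy⟩ := hy
    refine ⟨a * b, mul_ne_zero ha hb, ?_⟩
    rw [smul_add]
    refine Submodule.add_mem _ ?_ ?_
    · rw [mul_comm, mul_smul]; exact Submodule.smul_mem _ _ hx
    · rw [mul_smul]; exact Submodule.smul_mem _ _ hy
  | smul c x _ hx =>
    obtain ⟨a, ha, hx⟩ := hx
    exact ⟨a, ha, by rw [smul_comm]; exact Submodule.smul_mem _ _ hx⟩

/-- `M` represents the multiplication by `y` on the family `ω`. -/
def Rep {S R : Type} [CommRing S] [CommRing R] {e : ℕ} (γ : S →+* R) (ω : Fin e → R) (y : R)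
    (M : Matrix (Fin e) (Fin e) S) : Prop := ∀ i, y * ω i = ∑ k, γ (M i k) * ω k

section

variable {S R : Type} [CommRing S] [CommRing R] {e : ℕ} {γ : S →+* R} {ω : Fin e → R}

theorem rep_one : Rep γ ω 1 1 := by
  intro i
  rw [Finset.sum_eq_single i]
  · simp
  · intro k _ hk
    simp [Matrix.one_apply_ne (Ne.symm hk)]
  · simp

theorem Rep.mul {y y' : R} {M M' : Matrix (Fin e) (Fin e) S} (h : Rep γ ω y M)
    (h' : Rep γ ω y' M') : Rep γ ω (y' * y) (M * M') := by
  intro i
  rw [mul_assoc, h i, Finset.mul_sum]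
  simp only [Matrix.mul_apply, map_sum, map_mul, Finset.sum_mul]
  rw [Finset.sum_comm]
  refine Finset.sum_congr rfl fun k _ => ?_
  rw [mul_left_comm, h' k, Finset.mul_sum]
  exact Finset.sum_congr rfl fun l _ => by ring

theorem Rep.smul {y : R} {M : Matrix (Fin e) (Fin e) S} (h : Rep γ ω y M) (a : S) :
    Rep γ ω (γ a * y) (a • M) := by
  intro i
  rw [mul_assoc, h i, Finset.mul_sum]
  exact Finset.sum_congr rfl fun k _ => by simp [mul_assoc]

theorem rep_sum {κ : Type} (s : Finset κ) {y : κ → R} {M : κ → Matrix (Fin e) (Fin e) S}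
    (h : ∀ j ∈ s, Rep γ ω (y j) (M j)) : Rep γ ω (∑ j ∈ s, y j) (∑ j ∈ s, M j) := by
  intro i
  simp only [Finset.sum_mul, Matrix.sum_apply, map_sum]
  rw [Finset.sum_comm]
  exact Finset.sum_congr rfl fun j hj => h j hj i

theorem Rep.det_mul {y : R} {M : Matrix (Fin e) (Fin e) S} (h : Rep γ ω y M) (i : Fin e) :
    γ M.det * ω i = y * ∑ k, γ (M.adjugate i k) * ω k := by
  have h1 := (Rep.smul (rep_one (γ := γ) (ω := ω)) M.det) i
  rw [mul_one, ← Matrix.adjugate_mul] at h1
  rw [h1, Finset.mul_sum]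
  simp only [Matrix.mul_apply, map_sum, map_mul, Finset.sum_mul]
  rw [Finset.sum_comm]
  refine Finset.sum_congr rfl fun k _ => ?_
  rw [mul_left_comm, h k, Finset.mul_sum]
  exact Finset.sum_congr rfl fun l _ => by ring

theorem Rep.det_ne [IsDomain S] [IsDomain R] {y : R} {M : Matrix (Fin e) (Fin e) S}
    (h : Rep γ ω y M) (hω : ∀ b : Fin e → S, ∑ k, γ (b k) * ω k = 0 → b = 0) (hM : M ≠ 0) :
    M.det ≠ 0 := by
  intro h0
  obtain ⟨b, hb, hbM⟩ := Matrix.exists_vecMul_eq_zero_iff.2 h0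
  have hy : y ≠ 0 := fun hy => hM (Matrix.ext fun i k =>
    congrFun (hω (M i) (by rw [← h i, hy, zero_mul])) k)
  refine hb (hω b (mul_left_cancel₀ hy ?_))
  have h2 : ∑ k, γ (Matrix.vecMul b M k) * ω k = 0 := by simp [hbM]
  rw [mul_zero, ← h2, Finset.mul_sum]
  simp only [Matrix.vecMul, dotProduct, map_sum, map_mul, Finset.sum_mul]
  rw [Finset.sum_comm]
  refine Finset.sum_congr rfl fun k _ => ?_
  rw [mul_left_comm, h k, Finset.mul_sum]
  exact Finset.sum_congr rfl fun l _ => by ring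

end

section

variable {σ τ R : Type} [Fintype σ] [CommRing R] {e : ℕ} {γ : MvPolynomial τ ℤ →+* R}
  {ω : Fin e → R} {π : MvPolynomial σ ℤ →+* R} {Δ : MvPolynomial τ ℤ}
  {m : σ → Matrix (Fin e) (Fin e) (MvPolynomial τ ℤ)} {c : ℕ} {K : ℝ}

theorem rep_mono (hm : ∀ j, Rep γ ω (γ Δ * π (X j)) (m j)) (hΔ : Δ.totalDegree ≤ c)
    (hd : ∀ j i k, (m j i k).totalDegree ≤ c) (hΔK : l1 Δ ≤ K)
    (hK : ∀ j i, ∑ k, l1 (m j i k) ≤ K) (D : ℕ) :
    ∀ ν : σ →₀ ℕ, ∑ j, ν j ≤ D → ∃ M, Rep γ ω (γ Δ ^ D * π (monomial ν 1)) M ∧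
      ∀ i k, (M i k).totalDegree ≤ c * D ∧ l1 (M i k) ≤ K ^ D := by
  classical
  have hK0 : 0 ≤ K := (l1_nonneg _).trans hΔK
  induction D with
  | zero =>
    intro ν hν
    obtain rfl : ν = 0 := Finsupp.ext fun j => by
      have := Finset.single_le_sum (f := fun j => ν j) (fun _ _ => Nat.zero_le _)
        (Finset.mem_univ j)
      simp only [Finsupp.coe_zero, Pi.zero_apply]
      omega
    refine ⟨1, by simpa using rep_one, fun i k => ?_⟩
    rw [Matrix.one_apply]
    split_ifs <;> simp [l1_one]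
  | succ D ih =>
    intro ν hν
    by_cases h0 : ∑ j, ν j ≤ D
    · obtain ⟨M, hM, hb⟩ := ih ν h0
      refine ⟨Δ • M, by rw [pow_succ', mul_assoc]; exact hM.smul Δ, fun i k => ?_⟩
      rw [Matrix.smul_apply, smul_eq_mul, pow_succ']
      refine ⟨(totalDegree_mul _ _).trans ?_, (l1_mul_le _ _).trans
        (mul_le_mul hΔK (hb i k).2 (l1_nonneg _) hK0)⟩
      have := (hb i k).1
      rw [mul_add]
      omega
    · obtain ⟨j, hj⟩ : ∃ j, ν j ≠ 0 := by
        by_contra hc
        push Not at hc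
        simp [hc] at h0
      have he : ν - Finsupp.single j 1 + Finsupp.single j 1 = ν :=
        tsub_add_cancel_of_le (Finsupp.single_le_iff.2 (Nat.one_le_iff_ne_zero.2 hj))
      obtain ⟨M, hM, hb⟩ := ih (ν - Finsupp.single j 1) (by
        rw [← he] at hν
        simp only [Finsupp.add_apply, Finset.sum_add_distrib, Finsupp.single_apply,
          Finset.sum_ite_eq, Finset.mem_univ, if_true] at hν
        omega)
      refine ⟨m j * M, ?_, fun i k => ?_⟩
      · have h1 := (hm j).mul hM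
        have h2 : (monomial ν 1 : MvPolynomial σ ℤ) = monomial (ν - Finsupp.single j 1) 1 * X j := by
          rw [X, monomial_mul, he, mul_one]
        rw [h2, map_mul, pow_succ, mul_mul_mul_comm]
        exact h1
      · rw [Matrix.mul_apply]
        refine ⟨totalDegree_finsetSum_le fun l _ => (totalDegree_mul _ _).trans ?_,
          (l1_sum_le _ _).trans ?_⟩
        · have := (hb l k).1
          have := hd j i l
          rw [mul_add]
          omega
        · refine le_trans (Finset.sum_le_sum fun l _ => (l1_mul_le _ _).trans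
            (mul_le_mul_of_nonneg_left (hb l k).2 (l1_nonneg _))) ?_
          rw [← Finset.sum_mul, pow_succ']
          exact mul_le_mul_of_nonneg_right (hK j i) (pow_nonneg hK0 _)

theorem rep_poly (hm : ∀ j, Rep γ ω (γ Δ * π (X j)) (m j)) (hΔ : Δ.totalDegree ≤ c)
    (hd : ∀ j i k, (m j i k).totalDegree ≤ c) (hΔK : l1 Δ ≤ K)
    (hK : ∀ j i, ∑ k, l1 (m j i k) ≤ K) {D : ℕ} {f : MvPolynomial σ ℤ} (hf : f.totalDegree ≤ D) :
    ∃ M, Rep γ ω (γ Δ ^ D * π f) M ∧
      ∀ i k, (M i k).totalDegree ≤ c * D ∧ l1 (M i k) ≤ l1 f * K ^ D := by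
  classical
  have h := fun ν : f.support => rep_mono hm hΔ hd hΔK hK D ν (by
    have := (le_totalDegree ν.2).trans hf
    rwa [Finsupp.sum_fintype _ _ fun _ => rfl] at this)
  choose M hM hb using h
  refine ⟨∑ ν : f.support, (C (coeff ν f) : MvPolynomial τ ℤ) • M ν, ?_, fun i k => ?_⟩
  · have h1 := rep_sum Finset.univ fun (ν : f.support) _ => (hM ν).smul (C (coeff ν f))
    have h2 : γ Δ ^ D * π f =
        ∑ ν : f.support, γ (C (coeff ν f)) * (γ Δ ^ D * π (monomial ν 1)) := by
      conv_lhs => rw [f.as_sum, ← Finset.sum_coe_sort, map_sum, Finset.mul_sum]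
      refine Finset.sum_congr rfl fun ν _ => ?_
      rw [← mul_one (coeff ν.1 f), ← C_mul_monomial, map_mul, mul_one, eq_intCast C, eq_intCast C,
        map_intCast, map_intCast, mul_left_comm]
    rwa [h2]
  · rw [Matrix.sum_apply]
    refine ⟨totalDegree_finsetSum_le fun ν _ => ?_, (l1_sum_le _ _).trans ?_⟩
    · rw [Matrix.smul_apply, smul_eq_mul]
      refine (totalDegree_mul _ _).trans ?_
      rw [totalDegree_C, zero_add]
      exact (hb ν i k).1
    · rw [l1.eq_1 f, ← Finset.sum_coe_sort f.support, Finset.sum_mul]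
      refine Finset.sum_le_sum fun ν _ => ?_
      rw [Matrix.smul_apply, smul_eq_mul]
      refine (l1_mul_le _ _).trans ?_
      rw [l1_C]
      exact mul_le_mul_of_nonneg_left (hb ν i k).2 (norm_nonneg _)

end

end Pool.Agent.Lib.MP_4ffbf9_nt.PR
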