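import Mathlib
import Pool.Agent.Lib.MP_4ffbf9_nt.PR.Der
import Pool.Agent.Lib.MP_4ffbf9_nt.PR.Rep

/-!
The norm step: from a polynomial vanishing to high order at a point of a variety to a polynomial
on the parameter space.
-/

set_option autoImplicit false

namespace Pool.Agent.Lib.MP_4ffbf9_nt.PR

open MvPolynomial Pool.Agent.Subspace

theorem totalDegree_det_le {τ : Type} {e D : ℕ} (A : Matrix (Fin e) (Fin e) (MvPolynomial τ ℤ))
    (h : ∀ i k, (A i k).totalDegree ≤ D) : A.det.totalDegree ≤ e * D := by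
  rw [Matrix.det_apply']
  refine totalDegree_finsetSum_le fun π _ => (totalDegree_mul _ _).trans ?_
  rw [← eq_intCast C, totalDegree_C, zero_add]
  refine (totalDegree_finsetProd _ _).trans ((Finset.sum_le_sum fun i _ => h (π i) i).trans ?_)
  simp

theorem det_comb {τ : Type} {e r : ℕ} (M : Fin r → Matrix (Fin e) (Fin e) (MvPolynomial τ ℤ))
    (lam : Fin r → ℚ) :
    (∑ l, (C (lam l) : MvPolynomial τ ℚ) • (M l).map (map (Int.castRingHom ℚ))).det ∈
      Submodule.span ℚ (Set.range fun φ : Fin e → Fin r =>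
        map (Int.castRingHom ℚ) (Matrix.of fun i k => M (φ i) i k).det) := by
  have h := (Matrix.detRowAlternating (n := Fin e) (R := MvPolynomial τ ℚ)).toMultilinearMap.map_sum
    fun (i : Fin e) (l : Fin r) =>
      (C (lam l) : MvPolynomial τ ℚ) • fun k => map (Int.castRingHom ℚ) (M l i k)
  have h0 : (∑ l, (C (lam l) : MvPolynomial τ ℚ) • (M l).map (map (Int.castRingHom ℚ))) =
      Matrix.of fun i => ∑ l, (C (lam l) : MvPolynomial τ ℚ) •
        fun k => map (Int.castRingHom ℚ) (M l i k) := by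
    ext1 i k
    simp [Matrix.sum_apply]
  rw [h0]
  refine (congrArg (· ∈ _) h).mpr (Submodule.sum_mem _ fun φ _ => ?_)
  rw [MultilinearMap.map_smul_univ, ← map_prod, smul_eq_mul, ← smul_eq_C_mul]
  refine Submodule.smul_mem _ _ (Submodule.subset_span ⟨φ, ?_⟩)
  simp only [RingHom.map_det]
  rfl

theorem exists_mats {σ R : Type} [Fintype σ] [CommRing R] [IsDomain R] {d : ℕ}
    [Algebra (MvPolynomial (Fin d) ℚ) R] [Module.Finite (MvPolynomial (Fin d) ℚ) R] (x : σ → R) :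
    ∃ (e : ℕ) (ω : Fin e → R) (Δ : MvPolynomial (Fin d) ℤ)
      (m : σ → Matrix (Fin e) (Fin e) (MvPolynomial (Fin d) ℤ)),
      LinearIndependent (MvPolynomial (Fin d) ℚ) ω ∧ Δ ≠ 0 ∧
      (∃ a : MvPolynomial (Fin d) ℚ, a ≠ 0 ∧
        a • (1 : R) ∈ Submodule.span (MvPolynomial (Fin d) ℚ) (Set.range ω)) ∧
      ∀ j, Rep ((algebraMap _ R).comp (map (Int.castRingHom ℚ))) ω
        ((algebraMap _ R).comp (map (Int.castRingHom ℚ)) Δ * x j) (m j) := by
  classical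
  obtain ⟨e, ω, hω, hs⟩ := exists_gen_basis (B := MvPolynomial (Fin d) ℚ) (R := R)
  choose a ha hsa using hs
  set a0 := ∏ q : σ × Fin e, a (x q.1 * ω q.2) with ha0
  have h1 : ∀ q : σ × Fin e, ∃ b : Fin e → MvPolynomial (Fin d) ℚ,
      ∑ k, b k • ω k = a0 • (x q.1 * ω q.2) := fun q => by
    rw [← Submodule.mem_span_range_iff_exists_fun, ha0,
      ← Finset.prod_erase_mul _ _ (Finset.mem_univ q), mul_smul]
    exact Submodule.smul_mem _ _ (hsa _)
  choose b hb using h1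
  obtain ⟨c, hc, g, hg⟩ := clear_fam fun o : Option ((σ × Fin e) × Fin e) =>
    o.elim a0 fun q => b q.1 q.2
  refine ⟨e, ω, g none, fun j => Matrix.of fun i k => g (some ((j, i), k)), hω, fun h => ?_,
    ⟨a 1, ha 1, hsa 1⟩, fun j i => ?_⟩
  · have := hg none
    rw [h, map_zero] at this
    exact mul_ne_zero (C_ne_zero.2 (Int.cast_ne_zero.2 hc))
      (Finset.prod_ne_zero_iff.2 fun q _ => ha _) this.symm
  · simp only [RingHom.comp_apply, Matrix.of_apply, hg, Option.elim, map_mul, mul_assoc]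
    rw [← Finset.mul_sum, ← Algebra.smul_def a0, ← hb (j, i)]
    simp only [Algebra.smul_def]

theorem norm_abs {σ R : Type} [Fintype σ] [CommRing R] [IsDomain R] [Algebra ℚ R] {d : ℕ}
    [Algebra (MvPolynomial (Fin d) ℚ) R] [IsScalarTower ℚ (MvPolynomial (Fin d) ℚ) R]
    [FaithfulSMul (MvPolynomial (Fin d) ℚ) R] [Module.Finite (MvPolynomial (Fin d) ℚ) R]
    (π : MvPolynomial σ ℚ →ₐ[ℚ] R) (hπ : Function.Surjective π) (t : Fin d → MvPolynomial σ ℚ)
    (ht : ∀ b : MvPolynomial (Fin d) ℚ, π (aeval t b) = algebraMap _ R b) :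
    ∃ (s : MvPolynomial σ ℚ) (e c : ℕ) (K : ℝ), π s ≠ 0 ∧ 1 ≤ K ∧
      ∀ (r D μ : ℕ) (B : ℝ) (w : Fin r → MvPolynomial σ ℤ) (lam : Fin r → ℚ) (p : σ → ℚ),
        (∀ f, π f = 0 → eval p f = 0) → eval p s ≠ 0 → (∀ l, (w l).totalDegree ≤ D) →
        (∀ l, l1 (w l) ≤ B) → (∃ l, eval p (map (Int.castRingHom ℚ) (w l)) ≠ 0) →
        (∀ ψ : Fin r → ℤ, (∀ l, |(ψ l : ℝ)| ≤ B * K ^ D) → ∑ l, lam l * ψ l = 0 → ψ = 0) →
        VanN p μ (∑ l, C (lam l) * map (Int.castRingHom ℚ) (w l)) →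
        ∃ (V : (Fin e → Fin r) → MvPolynomial (Fin d) ℤ) (G : MvPolynomial (Fin d) ℚ),
          G ∈ Submodule.span ℚ (Set.range fun i => map (Int.castRingHom ℚ) (V i)) ∧ G ≠ 0 ∧
          (∀ i, (V i).totalDegree ≤ c * D) ∧ (∀ i, l1 (V i) ≤ e.factorial * (B * K ^ D) ^ e) ∧
          VanN (fun i => eval p (t i)) μ G := by
  classical
  obtain ⟨s0, hs0, a, ha⟩ := exists_fields π hπ t ht
  obtain ⟨e, ω, Δ, m, hω, hΔ, ⟨a1, ha1, hsp⟩, hm⟩ := exists_mats (d := d) fun j => π (X j)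
  have hinj := FaithfulSMul.algebraMap_injective (MvPolynomial (Fin d) ℚ) R
  obtain ⟨i0⟩ : Nonempty (Fin e) := by
    by_contra hn
    rw [not_nonempty_iff] at hn
    rw [Set.range_eq_empty, Submodule.span_empty, Submodule.mem_bot, Algebra.smul_def, mul_one,
      map_eq_zero_iff _ hinj] at hsp
    exact ha1 hsp
  obtain ⟨s1, hs1⟩ := hπ (ω i0)
  set γ : MvPolynomial (Fin d) ℤ →+* R :=
    (algebraMap (MvPolynomial (Fin d) ℚ) R).comp (map (Int.castRingHom ℚ)) with hγ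
  have hγ0 : γ Δ ≠ 0 := by
    rw [hγ, RingHom.comp_apply, map_ne_zero_iff _ hinj,
      map_ne_zero_iff _ (map_injective _ (Int.castRingHom ℚ).injective_int)]
    exact hΔ
  set c0 := Δ.totalDegree + ∑ q : σ × Fin e × Fin e, (m q.1 q.2.1 q.2.2).totalDegree
  set K := 1 + l1 Δ + ∑ q : σ × Fin e, ∑ k, l1 (m q.1 q.2 k)
  have hS : ∀ q : σ × Fin e, 0 ≤ ∑ k, l1 (m q.1 q.2 k) := fun q =>
    Finset.sum_nonneg fun _ _ => l1_nonneg _
  have hS' : 0 ≤ ∑ q : σ × Fin e, ∑ k, l1 (m q.1 q.2 k) := Finset.sum_nonneg fun q _ => hS q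
  have hl := l1_nonneg Δ
  have hK1 : 1 ≤ K := by simp only [K]; linarith
  refine ⟨s0 * s1, e, e * c0, K, ?_, hK1, fun r D μ B w lam p hp hs hD hB hw hroot hv => ?_⟩
  · rw [map_mul, hs1]
    exact mul_ne_zero hs0 (hω.ne_zero i0)
  rw [map_mul, mul_ne_zero_iff] at hs
  have hrep := fun l => rep_poly (γ := γ) (ω := ω) (Δ := Δ) (m := m) (c := c0) (K := K)
    (π := (π : MvPolynomial σ ℚ →+* R).comp (map (Int.castRingHom ℚ)))
    (fun j => by simpa using hm j) (Nat.le_add_right _ _)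
    (fun j i k => (Finset.single_le_sum (f := fun q : σ × Fin e × Fin e =>
      (m q.1 q.2.1 q.2.2).totalDegree) (fun _ _ => Nat.zero_le _)
        (Finset.mem_univ (j, i, k))).trans (Nat.le_add_left _ _))
    (by simp only [K]; linarith)
    (fun j i => (Finset.single_le_sum (fun q _ => hS q) (Finset.mem_univ (j, i))).trans
      (by simp only [K]; linarith)) (hD l)
  choose M hM hb using hrep
  have hb2 : ∀ l i k, l1 (M l i k) ≤ B * K ^ D := fun l i k =>
    (hb l i k).2.trans (mul_le_mul_of_nonneg_right (hB l) (by positivity))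
  set MQ := ∑ l, (C (lam l) : MvPolynomial (Fin d) ℚ) • (M l).map (map (Int.castRingHom ℚ))
    with hMQ
  set W := ∑ l, C (lam l) * map (Int.castRingHom ℚ) (w l) with hW
  have hR : Rep (algebraMap _ R) ω (γ Δ ^ D * π W) MQ := by
    have h1 := rep_sum (γ := algebraMap (MvPolynomial (Fin d) ℚ) R) (ω := ω) Finset.univ
      fun l _ => Rep.smul (M := (M l).map (map (Int.castRingHom ℚ))) (hM l) (C (lam l))
    have h2 : γ Δ ^ D * π W = ∑ l, algebraMap (MvPolynomial (Fin d) ℚ) R (C (lam l)) *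
        (γ Δ ^ D * π (map (Int.castRingHom ℚ) (w l))) := by
      rw [hW, map_sum, Finset.mul_sum]
      refine Finset.sum_congr rfl fun l _ => ?_
      rw [map_mul, mul_left_comm, ← algebraMap_eq, ← algebraMap_eq, π.commutes,
        ← IsScalarTower.algebraMap_apply]
    rw [h2]
    exact h1
  refine ⟨fun φ => (Matrix.of fun i k => M (φ i) i k).det, MQ.det, det_comb M lam, ?_,
    fun φ => ?_, fun φ => l1_det_le _ fun i k => hb2 _ i k, ?_⟩
  · refine hR.det_ne (fun b hb0 => funext (Fintype.linearIndependent_iff.1 hω b ?_)) fun h0 => ?_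
    · simpa only [Algebra.smul_def] using hb0
    · obtain ⟨l, hl⟩ := hw
      refine hl (hp _ (mul_left_cancel₀ (pow_ne_zero D hγ0)
        (mul_right_cancel₀ (hω.ne_zero i0) ?_)))
      have h3 : ∀ k, M l i0 k = 0 := fun k => MvPolynomial.ext _ _ fun ν => by
        refine congrFun (hroot (fun l => coeff ν (M l i0 k)) (fun l => ?_) ?_) l
        · refine le_trans ?_ ((norm_coeff_le_l1 _ ν).trans (hb2 l i0 k))
          rw [Int.norm_eq_abs]
        · have := congrArg (coeff ν) (congrFun (congrFun h0 i0) k)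
          simpa [hMQ, Matrix.sum_apply, coeff_sum, coeff_map] using this
      have := hM l i0
      simpa [h3] using this
  · rw [mul_assoc]
    exact totalDegree_det_le _ fun i k => (hb _ i k).1
  · obtain ⟨q, hq⟩ := hπ (γ Δ ^ D * ∑ k, algebraMap _ R (MQ.adjugate i0 k) * ω k)
    refine transfer (RingHom.ker π) t s0 a (fun i f hf => (ha i).1 f hf) (fun i b => (ha i).2 b)
      p hp hs.1 μ MQ.det s1 (q * W) hs.2 (hv.mul_left q) ?_
    rw [RingHom.mem_ker, map_sub, map_mul, map_mul, ht, hs1, hq, mul_comm, hR.det_mul i0]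
    ring

/-- Step 4: the norm down to a Noether normalisation. -/
theorem norm_step (σ : Type) [Fintype σ] (PP : Ideal (MvPolynomial σ ℚ)) [PP.IsPrime] :
    ∃ (d : ℕ) (t : Fin d → MvPolynomial σ ℚ) (s : MvPolynomial σ ℚ) (e c : ℕ) (K : ℝ),
      s ∉ PP ∧ 1 ≤ K ∧ (∀ g : MvPolynomial (Fin d) ℚ, g ≠ 0 → aeval t g ∉ PP) ∧
      ∀ (r D μ : ℕ) (B : ℝ) (w : Fin r → MvPolynomial σ ℤ) (lam : Fin r → ℚ) (p : σ → ℚ),
        (∀ f ∈ PP, eval p f = 0) → eval p s ≠ 0 → (∀ l, (w l).totalDegree ≤ D) →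
        (∀ l, l1 (w l) ≤ B) → (∃ l, eval p (map (Int.castRingHom ℚ) (w l)) ≠ 0) →
        (∀ ψ : Fin r → ℤ, (∀ l, |(ψ l : ℝ)| ≤ B * K ^ D) → ∑ l, lam l * ψ l = 0 → ψ = 0) →
        VanN p μ (∑ l, C (lam l) * map (Int.castRingHom ℚ) (w l)) →
        ∃ (V : (Fin e → Fin r) → MvPolynomial (Fin d) ℤ) (G : MvPolynomial (Fin d) ℚ),
          G ∈ Submodule.span ℚ (Set.range fun i => map (Int.castRingHom ℚ) (V i)) ∧ G ≠ 0 ∧
          (∀ i, (V i).totalDegree ≤ c * D) ∧ (∀ i, l1 (V i) ≤ e.factorial * (B * K ^ D) ^ e) ∧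
          VanN (fun i => eval p (t i)) μ G := by
  obtain ⟨d, g, hg, hf⟩ := exists_finite_inj_algHom_of_fg ℚ (MvPolynomial σ ℚ ⧸ PP)
  choose t ht using fun i => Ideal.Quotient.mkₐ_surjective ℚ PP (g (X i))
  have ht' : ∀ b, Ideal.Quotient.mkₐ ℚ PP (aeval t b) = g b := fun b => by
    rw [← AlgHom.comp_apply]
    congr 1
    exact algHom_ext fun i => by rw [AlgHom.comp_apply, aeval_X, ht]
  have h0 : ∀ f, Ideal.Quotient.mkₐ ℚ PP f = 0 ↔ f ∈ PP := fun f => Ideal.Quotient.eq_zero_iff_mem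
  obtain ⟨s, e, c, K, hs, hK, h⟩ := @norm_abs σ _ _ _ _ _ d g.toRingHom.toAlgebra
    (@IsScalarTower.of_algebraMap_eq _ _ _ _ _ _ _ g.toRingHom.toAlgebra _
      fun x => (g.commutes x).symm)
    ((@faithfulSMul_iff_algebraMap_injective _ _ _ _ g.toRingHom.toAlgebra).2 hg) hf
    (Ideal.Quotient.mkₐ ℚ PP) (Ideal.Quotient.mkₐ_surjective ℚ PP) t ht'
  refine ⟨d, t, s, e, c, K, fun h1 => hs ((h0 s).2 h1), hK, fun b hb h1 => hb (hg ?_),
    fun r D μ B w lam p hp => h r D μ B w lam p fun f hf => hp f ((h0 f).1 hf)⟩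
  rw [← ht', (h0 _).2 h1, map_zero]

end Pool.Agent.Lib.MP_4ffbf9_nt.PR
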