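import Pool.Agent.Lib.MP_4ffbf9_nt.PR.Gel

/-!
Resultants: order of vanishing, sizes, and a nonvanishing criterion.
-/

set_option autoImplicit false

namespace Pool.Agent.Lib.MP_4ffbf9_nt.PR

open Pool.Agent.Subspace Polynomial

theorem sum_gap (a M : ℕ) : 2 * ∑ c ∈ Finset.range M, (a - c) ≤ a * (a + 1) ∧
    (a ≤ M → 2 * ∑ c ∈ Finset.range M, (a - c) = a * (a + 1)) := by
  induction a generalizing M with
  | zero => simp
  | succ a ih =>
    cases M with
    | zero => simp
    | succ M =>
      rw [Finset.sum_range_succ']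
      simp only [Nat.add_sub_add_right, Nat.sub_zero]
      obtain ⟨h1, h2⟩ := ih M
      exact ⟨by nlinarith, fun h => by have := h2 (by omega); nlinarith⟩

section Idx

variable {σ R : Type*} [CommRing R]

theorem idxGe_resultant {w : σ → ℝ} (hw : ∀ i, 0 ≤ w i) (f g : (MvPolynomial σ R)[X])
    (m n a b : ℕ) (hf : ∀ k : ℕ, IdxGe w ((a : ℝ) - k) (f.coeff k))
    (hg : ∀ k : ℕ, IdxGe w ((b : ℝ) - k) (g.coeff k)) (hmn : a + b ≤ m + n) :
    IdxGe w ((a * b : ℕ) : ℝ) (resultant f g m n) := by
  classical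
  let ψ : Fin (m + n) → ℕ := fun j => j.addCases (fun j₁ => a - j₁) (fun j₁ => b - j₁)
  refine idxGe_det (sylvester f g m n)
    (fun i j => ((a + b - i : ℕ) : ℝ) - (ψ j : ℝ)) (fun i j => ?_) (fun π => ?_)
  · have key : ∀ (p : (MvPolynomial σ R)[X]) (x y j₁ l : ℕ), x + y = a + b →
        (∀ k : ℕ, IdxGe w ((x : ℝ) - k) (p.coeff k)) →
        IdxGe w (((a + b - i : ℕ) : ℝ) - ((y - j₁ : ℕ) : ℝ))
          (if (i : ℕ) ∈ Set.Icc j₁ (j₁ + l) then p.coeff (i - j₁) else 0) := by
      intro p x y j₁ l hxy hp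
      split_ifs with h
      · by_cases hi : a + b ≤ i
        · refine (idxGe_of_nonneg hw _).mono ?_
          rw [Nat.sub_eq_zero_of_le hi]
          simp
        · refine (hp _).mono ?_
          have h1 : (a + b - i : ℕ) + (i - j₁) ≤ x + (y - j₁) := by have := h.1; omega
          have h2 : (((a + b - i : ℕ) : ℝ)) + ((i - j₁ : ℕ) : ℝ) ≤ x + ((y - j₁ : ℕ) : ℝ) := by
            exact_mod_cast h1
          linarith
      · exact idxGe_zero _ _
    induction j using Fin.addCases with
    | left j₁ =>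
      simp only [sylvester, Matrix.of_apply, Fin.addCases_left, ψ]
      exact key g b a j₁ n (add_comm _ _) hg
    | right j₁ =>
      simp only [sylvester, Matrix.of_apply, Fin.addCases_right, ψ]
      exact key f a b j₁ m rfl hf
  · rw [Finset.sum_sub_distrib, Equiv.sum_comp π (fun i : Fin (m + n) => ((a + b - i : ℕ) : ℝ)),
      Fin.sum_univ_add (f := fun j => (ψ j : ℝ))]
    simp only [ψ, Fin.addCases_left, Fin.addCases_right]
    rw [← Nat.cast_sum, ← Nat.cast_sum, ← Nat.cast_sum,
      Fin.sum_univ_eq_sum_range (fun c => a + b - c), Fin.sum_univ_eq_sum_range (fun c => a - c),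
      Fin.sum_univ_eq_sum_range (fun c => b - c), le_sub_iff_add_le, ← Nat.cast_add,
      ← Nat.cast_add, Nat.cast_le]
    have h1 := (sum_gap (a + b) (m + n)).2 hmn
    have h2 := (sum_gap a m).1
    have h3 := (sum_gap b n).1
    nlinarith

theorem totalDegree_le_iff [Fintype σ] (P : MvPolynomial σ R) (D : ℕ) :
    P.totalDegree ≤ D ↔ IdxGe (fun _ => (-1 : ℝ)) (-D) P := by
  rw [MvPolynomial.totalDegree, Finset.sup_le_iff]
  refine forall₂_congr fun ν _ => ?_
  rw [Finsupp.weight_eq_sum, Finsupp.sum_fintype _ _ (fun _ => rfl)]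
  simp only [nsmul_eq_mul, mul_neg, mul_one, Finset.sum_neg_distrib, neg_le_neg_iff]
  rw [← Nat.cast_sum, Nat.cast_le]

theorem sylvester_entry {S : Type*} [CommRing S] {Q : S → Prop} (f g : S[X]) (m n : ℕ)
    (h0 : Q 0) (hf : ∀ k, Q (f.coeff k)) (hg : ∀ k, Q (g.coeff k)) (i j : Fin (m + n)) :
    Q (sylvester f g m n i j) := by
  induction j using Fin.addCases with
  | left j₁ =>
    simp only [sylvester, Matrix.of_apply, Fin.addCases_left]
    split_ifs
    exacts [hg _, h0]
  | right j₁ =>
    simp only [sylvester, Matrix.of_apply, Fin.addCases_right]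
    split_ifs
    exacts [hf _, h0]

theorem totalDegree_resultant_le [Fintype σ] (f g : (MvPolynomial σ R)[X]) (m n D : ℕ)
    (hf : ∀ k, (f.coeff k).totalDegree ≤ D) (hg : ∀ k, (g.coeff k).totalDegree ≤ D) :
    (resultant f g m n).totalDegree ≤ (m + n) * D := by
  classical
  rw [totalDegree_le_iff]
  refine idxGe_det (sylvester f g m n) (fun _ _ => -(D : ℝ)) (fun i j => ?_) (fun π => ?_)
  · rw [← totalDegree_le_iff]
    exact sylvester_entry (Q := fun P => P.totalDegree ≤ D) f g m n (by simp) hf hg i j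
  · simp

end Idx

theorem l1_resultant_le {σ : Type*} (f g : (MvPolynomial σ ℤ)[X]) (m n : ℕ) {B : ℝ} (hB : 0 ≤ B)
    (hf : ∀ k, l1 (f.coeff k) ≤ B) (hg : ∀ k, l1 (g.coeff k) ≤ B) :
    l1 (resultant f g m n) ≤ 2 ^ ((m + n) * (m + n)) * B ^ (m + n) := by
  refine (l1_det_le (sylvester f g m n)
    (sylvester_entry (Q := fun P => l1 P ≤ B) f g m n (by simpa using hB) hf hg)).trans ?_
  refine mul_le_mul_of_nonneg_right ?_ (by positivity)
  have : (m + n).factorial ≤ 2 ^ ((m + n) * (m + n)) := by
    rw [pow_mul]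
    exact (Nat.factorial_le_pow _).trans (Nat.pow_le_pow_left Nat.lt_two_pow_self.le _)
  exact_mod_cast this

theorem hasseDeriv_map' {R S : Type*} [CommRing R] [CommRing S] (φ : R →+* S) (j : ℕ) (p : R[X]) :
    hasseDeriv j (p.map φ) = (hasseDeriv j p).map φ := by
  ext k
  simp [hasseDeriv_coeff]

theorem hasseDeriv_taylor' {R : Type*} [CommRing R] (r : R) (j : ℕ) (p : R[X]) :
    hasseDeriv j (taylor r p) = taylor r (hasseDeriv j p) := by
  ext k
  rw [hasseDeriv_coeff, taylor_coeff, taylor_coeff]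
  have := congrArg (fun L => eval r (L p)) (hasseDeriv_comp (R := R) k j)
  simp only [LinearMap.comp_apply, LinearMap.smul_apply] at this
  rw [this, Nat.choose_symm_add, nsmul_eq_mul, eval_mul, eval_natCast]

/-- A root of high multiplicity in an algebraic closure comes from a high power of a factor. -/
theorem pow_dvd_of_root {R : Type*} [CommRing R] [IsDomain R] [CharZero R]
    [UniqueFactorizationMonoid R] {F : Type*} [Field F] [Algebra R F]
    (hinj : Function.Injective (algebraMap R F)) {p : R[X]} (hp : p ≠ 0) {x : F} {e : ℕ}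
    (he : (X - C x) ^ (e + 1) ∣ p.map (algebraMap R F)) :
    ∃ G : R[X], 0 < G.natDegree ∧ G ^ (e + 1) ∣ p := by
  classical
  let K := FractionRing R
  let : Algebra K F := (IsFractionRing.lift (K := K) hinj).toAlgebra
  have : IsScalarTower R K F := IsScalarTower.of_algebraMap_eq fun r =>
    (IsFractionRing.lift_algebraMap (K := K) hinj r).symm
  have hroot : ∀ (q : R[X]) (k : ℕ), (X - C x) ^ (k + 1) ∣ q.map (algebraMap R F) →
      aeval x q = 0 := by
    intro q k h
    rw [← eval_map_algebraMap]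
    exact dvd_iff_isRoot.mp ((dvd_pow_self _ (Nat.succ_ne_zero k)).trans h)
  obtain ⟨G, hG, hGx⟩ : ∃ G : R[X], Irreducible G ∧ aeval x G = 0 := by
    have h0 := hroot p e he
    clear he
    induction p using UniqueFactorizationMonoid.induction_on_prime with
    | h₁ => exact absurd rfl hp
    | h₂ u hu => exact absurd h0 (hu.map (aeval x)).ne_zero
    | h₃ a q ha hq ih =>
      rw [map_mul, mul_eq_zero] at h0
      exact h0.elim (fun h => ⟨q, hq.irreducible, h⟩) (ih ha)
  have hdeg : 0 < G.natDegree := by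
    by_contra h
    rw [eq_C_of_natDegree_eq_zero (Nat.eq_zero_of_not_pos h), aeval_C,
      map_eq_zero_iff _ hinj] at hGx
    apply hG.ne_zero
    rw [eq_C_of_natDegree_eq_zero (Nat.eq_zero_of_not_pos h), hGx, C_0]
  have hprim : G.IsPrimitive := hG.isPrimitive hdeg.ne'
  have hdvd : ∀ q : R[X], aeval x q = 0 → G ∣ q := by
    intro q hq
    refine hprim.dvd_of_fraction_map_dvd_fraction_map (K := K) ?_
    have hirr := (hprim.irreducible_iff_irreducible_map_fraction_map (K := K)).mp hG
    have h1 : aeval x (G.map (algebraMap R K)) = 0 := by rwa [aeval_map_algebraMap]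
    have h2 : aeval x (q.map (algebraMap R K)) = 0 := by rwa [aeval_map_algebraMap]
    have h3 := minpoly.dvd K x h1
    have hint : IsIntegral K x := IsAlgebraic.isIntegral ⟨_, hirr.ne_zero, h1⟩
    exact ((minpoly.irreducible hint).associated_of_dvd hirr h3).symm.dvd.trans
      (minpoly.dvd K x h2)
  have hder : aeval x (derivative G) ≠ 0 := by
    intro h
    have h1 := hdvd _ h
    have h2 : derivative G ≠ 0 := fun h0 => by
      have := derivative_eq_zero.mp h0
      omega
    have := natDegree_le_of_dvd h1 h2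
    have := natDegree_derivative_lt (p := G) hdeg.ne'
    omega
  obtain ⟨H, hH⟩ : X - C x ∣ G.map (algebraMap R F) :=
    dvd_iff_isRoot.mpr (by rwa [IsRoot, eval_map_algebraMap])
  have hHx : ¬ X - C x ∣ H := by
    intro h
    apply hder
    rw [← eval_map_algebraMap, ← derivative_map, hH]
    simp [(dvd_iff_isRoot.mp h).eq_zero]
  have main : ∀ (k : ℕ) (q : R[X]), (X - C x) ^ k ∣ q.map (algebraMap R F) → G ^ k ∣ q := by
    intro k
    induction k with
    | zero => simp
    | succ k ih =>
      intro q hq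
      obtain ⟨q₁, rfl⟩ := hdvd q (hroot q k hq)
      rw [Polynomial.map_mul, hH, pow_succ', mul_assoc,
        mul_dvd_mul_iff_left (X_sub_C_ne_zero x)] at hq
      rw [pow_succ']
      exact mul_dvd_mul_left _ (ih q₁ ((prime_X_sub_C x).pow_dvd_of_dvd_mul_left k hHx hq))
  exact ⟨G, hdeg, main _ p he⟩

/-- The truncated Taylor expansion of `p` with an extra parameter. -/
noncomputable def trunc {R S : Type*} [CommRing R] [CommRing S] (φ : R →+* S) (lam : S) (J : ℕ)
    (p : R[X]) : S[X] := ∑ j ∈ Finset.range (J + 1), C (lam ^ j) * (hasseDeriv j p).map φ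

theorem natDegree_trunc_le {R S : Type*} [CommRing R] [CommRing S] (φ : R →+* S) (lam : S) (J : ℕ)
    (p : R[X]) : (trunc φ lam J p).natDegree ≤ p.natDegree :=
  natDegree_sum_le_of_forall_le _ _ fun j _ => (natDegree_C_mul_le _ _).trans
    (natDegree_map_le.trans ((natDegree_hasseDeriv_le p j).trans (Nat.sub_le _ _)))

theorem trunc_map {R S T : Type*} [CommRing R] [CommRing S] [CommRing T] (φ : R →+* S) (lam : S)
    (J : ℕ) (p : R[X]) (ψ : S →+* T) :
    (trunc φ lam J p).map ψ = trunc (ψ.comp φ) (ψ lam) J p := by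
  simp [trunc, Polynomial.map_sum, map_map]

theorem resultant_trunc_ne_zero {R : Type*} [CommRing R] [IsDomain R] [CharZero R]
    [UniqueFactorizationMonoid R] {p : R[X]} (hp : p ≠ 0) {J N : ℕ} (hN : p.natDegree ≤ N)
    (h : ∀ G : R[X], 0 < G.natDegree → ¬ G ^ (J + 1) ∣ p) :
    resultant (p.map C) (trunc C X J p) p.natDegree N ≠ 0 := by
  classical
  let F := AlgebraicClosure (FractionRing R)
  have hinj : Function.Injective (algebraMap R F) := by
    rw [IsScalarTower.algebraMap_eq R (FractionRing R) F]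
    exact (algebraMap (FractionRing R) F).injective.comp (IsFractionRing.injective R _)
  intro h0
  have h1 := congrArg (mapRingHom (algebraMap R F)) h0
  rw [← resultant_map_map, map_zero, trunc_map, map_map] at h1
  set q : F[X] := p.map (algebraMap R F) with hq
  have hq0 : q ≠ 0 := (Polynomial.map_ne_zero_iff hinj).mpr hp
  have hc : (mapRingHom (algebraMap R F)).comp C = C.comp (algebraMap R F) := by
    ext r : 1
    simp
  have hd : p.natDegree = (q.map (C : F →+* F[X])).natDegree := by
    rw [natDegree_map_eq_of_injective C_injective, natDegree_map_eq_of_injective hinj]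
  rw [hc, ← map_map, ← hq, hd, resultant_eq_prod_eval _ _ _
    ((natDegree_trunc_le _ _ _ _).trans hN) ((IsAlgClosed.splits q).map _), mul_eq_zero] at h1
  rcases h1 with h1 | h1
  · exact (Polynomial.map_ne_zero_iff C_injective).mpr hq0
      (leadingCoeff_eq_zero.mp (pow_eq_zero_iff'.mp h1).1)
  · rw [Multiset.prod_eq_zero_iff, Multiset.mem_map] at h1
    obtain ⟨y, hy, hy0⟩ := h1
    rw [← roots_map_of_injective_of_card_eq_natDegree C_injective
      (IsAlgClosed.splits q).natDegree_eq_card_roots.symm, Multiset.mem_map] at hy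
    obtain ⟨x, -, rfl⟩ := hy
    have h2 : ∀ j < J + 1, (taylor x q).coeff j = 0 := by
      intro j hj
      have h3 := congrArg (fun P => coeff P j) hy0
      simp only [trunc, eval_finsetSum, eval_mul, eval_C, ← map_map, eval_map_apply,
        coe_mapRingHom, map_X, finsetSum_coeff, coeff_zero, mul_comm (X ^ _), coeff_C_mul_X_pow,
        Finset.sum_ite_eq, Finset.mem_range, hj, if_true] at h3
      rw [taylor_coeff, hq, hasseDeriv_map', h3]
    have h4 : (X - C x) ^ (J + 1) ∣ q := by
      obtain ⟨W, hW⟩ := X_pow_dvd_iff.mpr h2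
      refine ⟨taylor (-x) W, ?_⟩
      have := congrArg (taylor (-x)) hW
      rw [taylor_taylor, neg_add_cancel, taylor_zero, taylor_mul, taylor_X_pow] at this
      rw [this, map_neg, sub_eq_add_neg]
    obtain ⟨G, hG, hGp⟩ := pow_dvd_of_root hinj hp h4
    exact h G hG hGp

end Pool.Agent.Lib.MP_4ffbf9_nt.PR
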