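import Mathlib
import Pool.Agent.Shared.Subspace.Wronskian
import Pool.Agent.Shared.Subspace.RothAux
import Pool.Agent.Lib.MP_4ffbf9_nt.PR.Der
import Pool.Agent.Lib.MP_4ffbf9_nt.PR.Res

/-!
The Wronskian step in any number of variables.
-/

set_option autoImplicit false

namespace Pool.Agent.Lib.MP_4ffbf9_nt.PR

open MvPolynomial Pool.Agent.Subspace

/-- A maximal linearly independent subfamily, indexed by `Fin ρ`. -/
theorem exists_subfam {ι M : Type} [Fintype ι] [AddCommGroup M] [Module ℚ M] (g : ι → M) {G : M}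
    (hG : G ∈ Submodule.span ℚ (Set.range g)) :
    ∃ ρ ≤ Fintype.card ι, ∃ (l : Fin ρ → ι) (lam : Fin ρ → ℚ),
      LinearIndependent ℚ (fun j => g (l j)) ∧ ∑ j, lam j • g (l j) = G := by
  obtain ⟨κ, a, ha, hs, hi⟩ := exists_linearIndependent' ℚ g
  have : Finite κ := Finite.of_injective a ha
  obtain ⟨ρ, ⟨e⟩⟩ := Finite.exists_equiv_fin κ
  have hr : Set.range (fun j => g (a (e.symm j))) = Set.range (g ∘ a) :=
    e.symm.surjective.range_comp (g ∘ a)
  rw [← hs, ← hr, Submodule.mem_span_range_iff_exists_fun] at hG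
  obtain ⟨lam, hlam⟩ := hG
  refine ⟨ρ, ?_, fun j => a (e.symm j), lam, hi.comp e.symm e.symm.injective, hlam⟩
  simpa using Fintype.card_le_of_injective (fun j => a (e.symm j)) (ha.comp e.symm.injective)

theorem totalDegree_hasse_le {σ R : Type} [Fintype σ] [CommRing R] (μ : σ →₀ ℕ)
    {P : MvPolynomial σ R} {D : ℕ} (h : P.totalDegree ≤ D) : (hasse μ P).totalDegree ≤ D := by
  rw [totalDegree_le_iff] at h ⊢
  intro ν hν
  have h1 := h _ (mem_support_hasse hν)
  rw [map_add] at h1
  have h2 : Finsupp.weight (fun _ : σ => (-1 : ℝ)) μ ≤ 0 := by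
    rw [Finsupp.weight_eq_sum]
    exact Finset.sum_nonpos fun i _ => by simp
  linarith

/-- The Wronskian step: a nonzero element of the span of a small integer family that vanishes to
high order at `p` gives a small nonzero integer polynomial that does so. -/
theorem wronskN {σ ι : Type} [Fintype σ] [Fintype ι] {D M : ℕ} {B : ℝ} (hB : 1 ≤ B)
    (P : ι → MvPolynomial σ ℤ) {G : MvPolynomial σ ℚ}
    (hG : G ∈ Submodule.span ℚ (Set.range fun l => map (Int.castRingHom ℚ) (P l))) (hG0 : G ≠ 0)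
    (p : σ → ℚ) (hD : ∀ l, (P l).totalDegree ≤ D) (hl : ∀ l, l1 (P l) ≤ B) (hv : VanN p M G) :
    ∃ V : MvPolynomial σ ℤ, V ≠ 0 ∧ V.totalDegree ≤ Fintype.card ι * D ∧
      l1 V ≤ (Fintype.card ι).factorial * (2 ^ D * B) ^ Fintype.card ι ∧
      VanN p (M - Fintype.card ι) (map (Int.castRingHom ℚ) V) := by
  classical
  set r := Fintype.card ι with hr
  obtain ⟨ρ, hρ, l, lam, hi, hlam⟩ := exists_subfam _ hG
  obtain ⟨j0, hj0⟩ : ∃ j, lam j ≠ 0 := by
    by_contra h
    push Not at h
    exact hG0 (by rw [← hlam]; simp [h])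
  obtain ⟨μ, hμ, hdet⟩ := wronskian _ hi
  set A : Matrix (Fin ρ) (Fin ρ) (MvPolynomial σ ℤ) :=
    Matrix.of fun i j => hasse (μ i) (P (l j)) with hA
  have hQ : map (Int.castRingHom ℚ) A.det =
      (Matrix.of fun i j => hasse (μ i) (map (Int.castRingHom ℚ) (P (l j)))).det := by
    rw [RingHom.map_det]
    congr 1
    ext1 i j
    exact map_hasse _ _ _
  refine ⟨A.det, fun h => hdet (by rw [← hQ, h, map_zero]), ?_, ?_, ?_⟩
  · rw [totalDegree_le_iff]
    refine idxGe_det A (fun _ _ => -(D : ℝ))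
      (fun a b => (totalDegree_le_iff _ D).1 (totalDegree_hasse_le (μ a) (hD (l b)))) fun _ => ?_
    have : (ρ : ℝ) * D ≤ r * D := by gcongr
    simp only [Finset.sum_const, Finset.card_univ, Fintype.card_fin, nsmul_eq_mul]
    push_cast
    linarith
  · have h1 : (1 : ℝ) ≤ 2 ^ D * B := one_le_mul_of_one_le_of_one_le (one_le_pow₀ (by norm_num)) hB
    refine (l1_det_le A (B := 2 ^ D * B) fun a b => ?_).trans ?_
    · refine (l1_hasse_le (μ a) (P (l b)) (E := D) fun ν hν => ?_).trans ?_
      · have := (le_totalDegree hν).trans (hD (l b))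
        rwa [Finsupp.sum_fintype _ _ (fun _ => rfl)] at this
      · exact mul_le_mul_of_nonneg_left (hl _) (by positivity)
    · have : (ρ.factorial : ℝ) ≤ r.factorial := by exact_mod_cast Nat.factorial_le hρ
      exact mul_le_mul this (pow_le_pow_right₀ h1 hρ) (by positivity) (by positivity)
  · set A' : Matrix (Fin ρ) (Fin ρ) (MvPolynomial σ ℚ) :=
      Matrix.of fun i j => hasse (μ i) (shift p (map (Int.castRingHom ℚ) (P (l j)))) with hA'
    have h1 : shift p (map (Int.castRingHom ℚ) A.det) = A'.det := by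
      rw [hQ, AlgHom.map_det]
      congr 1
      ext1 i j
      exact (hasse_shift _ _ _).symm
    have h2 : (A'.updateCol j0 fun i => hasse (μ i) (shift p G)).det = C (lam j0) * A'.det := by
      rw [← smul_eq_mul, ← Matrix.det_updateCol_sum A' j0 fun j => C (lam j)]
      congr 2
      funext i
      rw [← hlam, map_sum, map_sum]
      refine Finset.sum_congr rfl fun j _ => ?_
      rw [map_smul, map_smul, smul_eq_C_mul, smul_eq_mul]
      rfl
    by_cases hM : M ≤ r
    · rw [Nat.sub_eq_zero_of_le hM, VanN, Nat.cast_zero]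
      exact idxGe_of_nonneg (fun _ => zero_le_one) _
    have h3 : IdxGe (fun _ => (1 : ℝ)) ((M - r : ℕ) : ℝ) (C (lam j0) * A'.det) := by
      rw [← h2]
      refine idxGe_det _ (fun _ j => if j = j0 then ((M - r : ℕ) : ℝ) else 0) (fun a b => ?_)
        fun _ => by simp
      rw [Matrix.updateCol_apply]
      split_ifs
      · refine (IdxGe.hasse hv (μ a)).mono ?_
        have h4 : ∑ t, μ a t ≤ r := (hμ a).trans (a.2.le.trans hρ)
        rw [weight_one, Nat.cast_sub (not_le.1 hM).le]
        have : ((∑ t, μ a t : ℕ) : ℝ) ≤ r := by exact_mod_cast h4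
        linarith
      · exact idxGe_of_nonneg (fun _ => zero_le_one) _
    rw [VanN, h1]
    intro ν hν
    refine h3 ν ?_
    rw [MvPolynomial.mem_support_iff] at hν ⊢
    rw [coeff_C_mul]
    exact mul_ne_zero hj0 hν

end Pool.Agent.Lib.MP_4ffbf9_nt.PR
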