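import Pool.Agent.Lib.MP_4ffbf9_nt.PR.Res

/-!
The zero lemma: a small polynomial of degree `O(n)` vanishes to order `n` only at points of a fixed
hypersurface.
-/

set_option autoImplicit false

namespace Pool.Agent.Lib.MP_4ffbf9_nt.PR

open MvPolynomial Pool.Agent.Subspace

/-- Expansion at the rational point `t`. -/
noncomputable def expAt {σ : Type*} (t : σ → ℚ) : MvPolynomial σ ℤ →+* MvPolynomial σ ℚ :=
  (shift t).toRingHom.comp (map (Int.castRingHom ℚ))

theorem expAt_apply {σ : Type*} (t : σ → ℚ) (P : MvPolynomial σ ℤ) :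
    expAt t P = shift t (map (Int.castRingHom ℚ) P) := rfl

theorem coeff_zero_expAt {σ : Type*} (t : σ → ℚ) (P : MvPolynomial σ ℤ) :
    coeff 0 (expAt t P) = aeval t P := by
  have : constantCoeff.comp (expAt t) = (aeval t : MvPolynomial σ ℤ →ₐ[ℤ] ℚ).toRingHom := by
    ext i <;> simp [expAt_apply]
  exact DFunLike.congr_fun this P

theorem finite_small (d D : ℕ) (B : ℝ) :
    {G : MvPolynomial (Fin d) ℤ | G.totalDegree ≤ D ∧ l1 G ≤ B}.Finite := by
  classical
  have hS := Finsupp.finite_of_degree_le (σ := Fin d) D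
  have := hS.to_subtype
  refine Set.Finite.of_finite_image (f := fun G (ν : {f : Fin d →₀ ℕ | f.degree ≤ D}) => coeff ν.1 G)
    ((Set.Finite.pi' fun _ => Set.finite_Icc (-⌈B⌉) ⌈B⌉).subset ?_) ?_
  · rintro _ ⟨G, hG, rfl⟩ ν
    have h1 := (norm_coeff_le_l1 G ν.1).trans (hG.2.trans (Int.le_ceil B))
    rw [Int.norm_eq_abs] at h1
    have h2 : |coeff ν.1 G| ≤ ⌈B⌉ := by exact_mod_cast h1
    exact abs_le.mp h2
  · intro G hG H hH h
    ext ν
    by_cases hν : ν.degree ≤ D
    · exact congrFun h ⟨ν, hν⟩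
    · have key : ∀ P : MvPolynomial (Fin d) ℤ, P.totalDegree ≤ D → coeff ν P = 0 := by
        intro P hP
        by_contra h0
        exact hν ((le_totalDegree (mem_support_iff.mpr h0)).trans hP)
      rw [key G hG.1, key H hH.1]

theorem idxGe_cancel {σ : Type*} [Fintype σ] {A W : MvPolynomial σ ℚ} (hA : coeff 0 A ≠ 0) (n : ℕ)
    (h : IdxGe (fun _ => (1 : ℝ)) n (A * W)) : IdxGe (fun _ => (1 : ℝ)) n W := by
  classical
  have h1 : IdxGe (fun _ => (1 : ℝ)) 1 (A - C (coeff 0 A)) := by
    intro ν hν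
    have hν0 : ν ≠ 0 := by
      rintro rfl
      simp at hν
    obtain ⟨i, hi⟩ := Finsupp.support_nonempty_iff.mpr hν0
    rw [Finsupp.weight_eq_sum]
    refine le_trans ?_ (Finset.single_le_sum (f := fun j => ν j • (1 : ℝ))
      (fun j _ => by positivity) (Finset.mem_univ i))
    rw [nsmul_eq_mul, mul_one]
    exact_mod_cast Nat.one_le_iff_ne_zero.mpr (Finsupp.mem_support_iff.mp hi)
  induction n with
  | zero => simpa using idxGe_of_nonneg (fun _ => zero_le_one) W
  | succ n ih =>
    have h2 := (h.sub ((h1.mul (ih (h.mono (by simp)))).mono (by simp [add_comm]))).C_mul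
      (coeff 0 A)⁻¹
    have h3 : C (coeff 0 A)⁻¹ * (A * W - (A - C (coeff 0 A)) * W) = W := by
      have : (C (coeff 0 A)⁻¹ * C (coeff 0 A) : MvPolynomial σ ℚ) = 1 := by
        rw [← C_mul, inv_mul_cancel₀ hA, C_1]
      linear_combination W * this
    rwa [h3] at h2

theorem exists_clean {d : ℕ} (t : Fin d → ℚ) (n : ℕ) (V : MvPolynomial (Fin d) ℤ) (hV : V ≠ 0)
    (h : IdxGe (fun _ => (1 : ℝ)) n (expAt t V)) :
    ∃ W, W ∣ V ∧ IdxGe (fun _ => (1 : ℝ)) n (expAt t W) ∧
      ∀ G, G ∣ W → 0 < G.totalDegree → aeval t G = 0 := by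
  generalize hD : V.totalDegree = D
  induction D using Nat.strong_induction_on generalizing V with
  | _ D ih =>
    by_cases hc : ∀ G, G ∣ V → 0 < G.totalDegree → aeval t G = 0
    · exact ⟨V, dvd_rfl, h, hc⟩
    · push Not at hc
      obtain ⟨G, ⟨W, rfl⟩, hG, hGt⟩ := hc
      have hW := right_ne_zero_of_mul hV
      rw [totalDegree_mul_of_isDomain (left_ne_zero_of_mul hV) hW] at hD
      rw [map_mul] at h
      obtain ⟨U, hU, hU'⟩ := ih W.totalDegree (by omega) W hW
        (idxGe_cancel (by rwa [coeff_zero_expAt]) n h) rfl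
      exact ⟨U, hU.mul_left G, hU'⟩

theorem finSuccEquiv_expAt {d : ℕ} (t : Fin (d + 1) → ℚ) (P : MvPolynomial (Fin (d + 1)) ℤ) :
    finSuccEquiv ℚ d (expAt t P) =
      Polynomial.taylor (C (t 0)) ((finSuccEquiv ℤ d P).map (expAt fun i => t i.succ)) := by
  induction P using MvPolynomial.induction_on with
  | C a =>
    have : (C a : MvPolynomial (Fin (d + 1)) ℤ) = (a : MvPolynomial (Fin (d + 1)) ℤ) := by simp
    rw [this, map_intCast, map_intCast, map_intCast, Polynomial.map_intCast,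
      ← Polynomial.C_eq_intCast, Polynomial.taylor_C]
  | add P Q hP hQ => simp only [map_add, Polynomial.map_add, hP, hQ]
  | mul_X P i hP =>
    simp only [map_mul, Polynomial.map_mul, Polynomial.taylor_mul, hP]
    congr 1
    refine Fin.cases ?_ (fun j => ?_) i
    · simp [expAt_apply, finSuccEquiv_apply, add_comm]
    · simp [expAt_apply, finSuccEquiv_apply]

theorem idxGe_coeff_finSucc {R : Type*} [CommRing R] {d : ℕ} {w : Fin (d + 1) → ℝ} {θ : ℝ}
    {P : MvPolynomial (Fin (d + 1)) R} (h : IdxGe w θ P) (a : ℕ) :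
    IdxGe (fun i => w i.succ) (θ - a * w 0) ((finSuccEquiv R d P).coeff a) := by
  intro ν hν
  have := h _ (mem_support_coeff_finSuccEquiv.mp hν)
  rw [Finsupp.weight_eq_sum, Fin.sum_univ_succ] at this
  rw [Finsupp.weight_eq_sum]
  simp only [Finsupp.cons_zero, Finsupp.cons_succ, nsmul_eq_mul] at this ⊢
  linarith

theorem idxGe_rename {R : Type*} [CommRing R] {d : ℕ} {w : Fin (d + 1) → ℝ} {θ : ℝ}
    {P : MvPolynomial (Fin d) R} (h : IdxGe (fun i => w i.succ) θ P) :
    IdxGe w θ (rename Fin.succ P) := by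
  have : (rename Fin.succ : MvPolynomial (Fin d) R →ₐ[R] _) = aeval fun i => X i.succ := by
    ext i : 1
    simp
  rw [this]
  exact h.aeval fun i => idxGe_X w _

theorem l1_rename_le {d : ℕ} (P : MvPolynomial (Fin d) ℤ) :
    l1 (rename Fin.succ P) ≤ l1 P := by
  conv_lhs => rw [P.as_sum, map_sum]
  refine (l1_sum_le _ _).trans (le_of_eq (Finset.sum_congr rfl fun ν _ => ?_))
  rw [rename_monomial, l1_monomial]

theorem resultant_taylor' {R : Type*} [CommRing R] (f g : Polynomial R) (r : R) {N : ℕ}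
    (hg : g.natDegree ≤ N) :
    Polynomial.resultant (Polynomial.taylor r f) (Polynomial.taylor r g) f.natDegree N =
      Polynomial.resultant f g f.natDegree N := by
  obtain ⟨k, rfl⟩ := Nat.exists_eq_add_of_le hg
  have := Polynomial.resultant_taylor f g r
  rw [Polynomial.natDegree_taylor, Polynomial.natDegree_taylor] at this
  rw [Polynomial.resultant_add_right_deg _ _ _ _ k le_rfl,
    Polynomial.resultant_add_right_deg _ _ _ _ k (Polynomial.natDegree_taylor g r).le, this,
    Polynomial.coeff_taylor_natDegree, Polynomial.leadingCoeff]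

theorem coeff_trunc {R S : Type*} [CommRing R] [CommRing S] (φ : R →+* S) (lam : S) (J : ℕ)
    (p : Polynomial R) (k : ℕ) : (trunc φ lam J p).coeff k =
      ∑ j ∈ Finset.range (J + 1), lam ^ j * φ (((k + j).choose j : R) * p.coeff (k + j)) := by
  simp only [trunc, Polynomial.finsetSum_coeff, Polynomial.coeff_C_mul, Polynomial.coeff_map,
    Polynomial.hasseDeriv_coeff]

/-- The elimination step. -/
theorem elim_step {d : ℕ} (t : Fin (d + 1) → ℚ) {n J D : ℕ} {L : ℝ}
    {W : MvPolynomial (Fin (d + 1)) ℤ} (hW : W ≠ 0) (hJ : J ≤ n) (hD : W.totalDegree ≤ D)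
    (hL : l1 W ≤ L) (hv : IdxGe (fun _ => (1 : ℝ)) n (expAt t W))
    (hG : ∀ G : MvPolynomial (Fin (d + 1)) ℤ, 0 < G.totalDegree → ¬ G ^ (J + 1) ∣ W) :
    ∃ (Q : MvPolynomial (Fin d) ℤ) (r : ℕ), Q ≠ 0 ∧ r ≤ 2 * D + 2 * n ∧
      Q.totalDegree ≤ r * (D + n) ∧ l1 Q ≤ 2 ^ (r * r) * (2 ^ n * 2 ^ D * L) ^ r ∧
      IdxGe (fun _ => (1 : ℝ)) ((n * (n - J) : ℕ) : ℝ) (expAt (fun i => t i.succ) Q) := by
  classical
  set p := finSuccEquiv ℤ d W with hp
  have hp0 : p ≠ 0 := by rwa [hp, Ne, EmbeddingLike.map_eq_zero_iff]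
  have hm : p.natDegree ≤ D := by
    rw [hp, natDegree_finSuccEquiv]
    exact (degreeOf_le_totalDegree _ _).trans hD
  have hL0 : 0 ≤ L := (l1_nonneg _).trans hL
  let φ : MvPolynomial (Fin d) ℤ →+* MvPolynomial (Fin (d + 1)) ℤ := (rename Fin.succ).toRingHom
  set Rz := Polynomial.resultant (p.map φ) (trunc φ (X 0) J p) p.natDegree (D + 2 * n) with hRz
  have hne : finSuccEquiv ℤ d Rz ≠ 0 := by
    have h1 := resultant_trunc_ne_zero hp0 (J := J) (N := D + 2 * n) (by omega) (by
      intro G hG0 hGp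
      refine hG ((finSuccEquiv ℤ d).symm G) ?_ ?_
      · refine hG0.trans_le (le_trans (le_of_eq ?_) (degreeOf_le_totalDegree _ 0))
        rw [← natDegree_finSuccEquiv, AlgEquiv.apply_symm_apply]
      · have := map_dvd (finSuccEquiv ℤ d).symm hGp
        rwa [map_pow, hp, AlgEquiv.symm_apply_apply] at this)
    let E : MvPolynomial (Fin (d + 1)) ℤ →+* Polynomial (MvPolynomial (Fin d) ℤ) :=
      (finSuccEquiv ℤ d).toAlgHom.toRingHom
    have hE : E.comp φ = Polynomial.C := by
      ext1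
      · exact RingHom.ext_int _ _
      · simp [E, φ, finSuccEquiv_X_succ]
    have hE0 : E (X 0) = Polynomial.X := finSuccEquiv_X_zero
    change E Rz ≠ 0
    rwa [hRz, ← Polynomial.resultant_map_map, trunc_map, Polynomial.map_map, hE, hE0]
  obtain ⟨k, hk⟩ : ∃ k, (finSuccEquiv ℤ d Rz).coeff k ≠ 0 := by
    by_contra h
    push Not at h
    exact hne (Polynomial.ext h)
  have hc1 : ∀ a, (p.coeff a).totalDegree ≤ D := fun a =>
    (totalDegree_coeff_finSucc_le W a).trans hD
  have hc2 : ∀ a, l1 (p.coeff a) ≤ L := fun a => (l1_coeff_finSucc_le W a).trans hL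
  refine ⟨_, p.natDegree + (D + 2 * n), hk, by omega, ?_, ?_, ?_⟩
  · refine (totalDegree_coeff_finSucc_le _ _).trans (totalDegree_resultant_le _ _ _ _ _
      (fun a => ?_) fun a => ?_)
    · rw [Polynomial.coeff_map]
      exact (totalDegree_rename_le _ _).trans ((hc1 a).trans (Nat.le_add_right _ _))
    · rw [coeff_trunc]
      refine totalDegree_finsetSum_le fun j hj => (totalDegree_mul _ _).trans ?_
      have h1 : (φ (((a + j).choose j : MvPolynomial (Fin d) ℤ) * p.coeff (a + j))).totalDegree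
          ≤ D := by
        refine (totalDegree_rename_le _ _).trans ((totalDegree_mul _ _).trans ?_)
        rw [← C_eq_coe_nat, totalDegree_C, zero_add]
        exact hc1 _
      rw [totalDegree_X_pow]
      have := Finset.mem_range.mp hj
      omega
  · refine (l1_coeff_finSucc_le _ _).trans (l1_resultant_le _ _ _ _ (by positivity)
      (fun a => ?_) fun a => ?_)
    · rw [Polynomial.coeff_map]
      refine (l1_rename_le _).trans ((hc2 a).trans (le_mul_of_one_le_left hL0 ?_))
      rw [← pow_add]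
      exact one_le_pow₀ (by norm_num)
    · rw [coeff_trunc]
      refine (l1_sum_le _ _).trans ((Finset.sum_le_card_nsmul _ _ (2 ^ D * L) fun j _ => ?_).trans ?_)
      · refine (l1_mul_le _ _).trans ?_
        have h1 : l1 (X 0 ^ j : MvPolynomial (Fin (d + 1)) ℤ) ≤ 1 :=
          (l1_pow_le _ _).trans (by rw [l1_X, one_pow])
        refine (mul_le_of_le_one_left (l1_nonneg _) h1).trans ((l1_rename_le _).trans ?_)
        by_cases h2 : a + j ≤ D
        · refine (l1_mul_le _ _).trans (mul_le_mul ?_ (hc2 _) (l1_nonneg _) (by positivity))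
          rw [← C_eq_coe_nat, l1_C, Int.norm_natCast]
          exact_mod_cast (Nat.choose_le_two_pow _ _).trans (Nat.pow_le_pow_right (by norm_num) h2)
        · rw [Polynomial.coeff_eq_zero_of_natDegree_lt (by omega), mul_zero, l1_zero]
          positivity
      · rw [Finset.card_range, nsmul_eq_mul, mul_assoc]
        refine mul_le_mul_of_nonneg_right ?_ (by positivity)
        exact_mod_cast (Nat.succ_le_succ hJ).trans Nat.lt_two_pow_self
  · let t' : Fin d → ℚ := fun i => t i.succ
    let w : Fin (d + 1) → ℝ := Fin.cons 0 fun _ => 1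
    let φ' : MvPolynomial (Fin d) ℚ →+* MvPolynomial (Fin (d + 1)) ℚ :=
      (rename Fin.succ).toRingHom
    have hw : ∀ i, 0 ≤ w i := fun i => Fin.cases (by simp [w]) (fun j => by simp [w]) i
    have hcomp : (expAt (Fin.cons 0 t')).comp φ = φ'.comp (expAt t') := by
      ext1
      · exact RingHom.ext_int _ _
      · simp [φ, φ', expAt_apply]
    have hX : expAt (Fin.cons 0 t' : Fin (d + 1) → ℚ) (X 0) = X 0 := by simp [expAt_apply]
    set p' := finSuccEquiv ℚ d (expAt t W) with hp'
    have hp'' : p' = Polynomial.taylor (C (t 0)) (p.map (expAt t')) := finSuccEquiv_expAt t W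
    have hv' : ∀ a : ℕ, IdxGe (fun _ => (1 : ℝ)) ((n : ℝ) - a) (p'.coeff a) := fun a => by
      simpa using idxGe_coeff_finSucc hv a
    have hres : IdxGe w ((n * (n - J) : ℕ) : ℝ)
        (Polynomial.resultant (p'.map φ') (trunc φ' (X 0) J p') p.natDegree (D + 2 * n)) := by
      refine idxGe_resultant hw _ _ _ _ n (n - J) (fun a => ?_) (fun a => ?_) (by omega)
      · rw [Polynomial.coeff_map]
        exact idxGe_rename (by simpa [w] using hv' a)
      · rw [coeff_trunc]
        refine idxGe_sum _ fun j hj => ?_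
        have h1 : IdxGe w ((n : ℝ) - ((a + j : ℕ) : ℝ))
            (φ' (((a + j).choose j : MvPolynomial (Fin d) ℚ) * p'.coeff (a + j))) := by
          refine idxGe_rename ?_
          rw [← C_eq_coe_nat]
          simpa [w] using (hv' (a + j)).C_mul ((a + j).choose j : ℚ)
        refine ((idxGe_of_nonneg hw _).mul h1).mono ?_
        have h2 : (j : ℝ) ≤ J := by exact_mod_cast Nat.lt_succ_iff.mp (Finset.mem_range.mp hj)
        rw [Nat.cast_sub hJ]
        push_cast
        linarith
    have hinj : Function.Injective (φ'.comp (expAt t')) := by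
      refine (rename_injective _ (Fin.succ_injective d)).comp ?_
      rw [injective_iff_map_eq_zero]
      intro P hP
      by_contra h0
      exact shift_ne_zero t' (fun h => h0 (map_injective _ (Int.castRingHom ℚ).injective_int
        (by rw [h, map_zero]))) hP
    have htr : trunc φ' (X 0) J p' =
        Polynomial.taylor (C (t 0)) (trunc (φ'.comp (expAt t')) (X 0) J p) := by
      simp only [trunc, map_sum, Polynomial.taylor_mul, Polynomial.taylor_C, hp'',
        hasseDeriv_taylor', hasseDeriv_map', Polynomial.map_taylor, Polynomial.map_map]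
      simp [φ']
    have hf : p'.map φ' = Polynomial.taylor (C (t 0)) (p.map (φ'.comp (expAt t'))) := by
      rw [hp'', Polynomial.map_taylor, Polynomial.map_map]
      simp [φ']
    rw [htr, hf, ← Polynomial.natDegree_map_eq_of_injective hinj p, resultant_taylor' _ _ _
      ((natDegree_trunc_le _ _ _ _).trans (by omega)),
      Polynomial.natDegree_map_eq_of_injective hinj p, ← hcomp, ← hX, ← trunc_map,
      ← Polynomial.map_map, Polynomial.resultant_map_map, ← hRz] at hres
    have h3 := idxGe_coeff_finSucc hres k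
    rw [finSuccEquiv_expAt] at h3
    simpa [w, Polynomial.taylor_zero, t'] using h3

/-- The zero lemma. -/
theorem zero_lemma (d : ℕ) : ∀ (A : ℕ) (K : ℝ), ∃ Ω : MvPolynomial (Fin d) ℤ, Ω ≠ 0 ∧
    ∀ (n : ℕ) (V : MvPolynomial (Fin d) ℤ) (t : Fin d → ℚ), 0 < n → V ≠ 0 →
      V.totalDegree ≤ A * n → l1 V ≤ K ^ n →
      IdxGe (fun _ => (1 : ℝ)) n (shift t (map (Int.castRingHom ℚ) V)) → aeval t Ω = 0 := by
  classical
  induction d with
  | zero =>
    refine fun A K => ⟨1, one_ne_zero, fun n V t hn hV _ _ hv => ?_⟩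
    obtain ⟨ν, hν⟩ := support_nonempty.mpr (shift_ne_zero t (P := map (Int.castRingHom ℚ) V)
      fun h => hV (map_injective _ (Int.castRingHom ℚ).injective_int (by rw [h, map_zero])))
    have := hv ν hν
    rw [Subsingleton.elim ν 0, map_zero] at this
    have h2 : (0 : ℝ) < n := by exact_mod_cast hn
    linarith
  | succ d ih =>
    intro A K
    obtain ⟨K1, hK1⟩ : ∃ K1 : ℝ, K1 = 4 ^ ((d + 1) * A) * max |K| 1 := ⟨_, rfl⟩
    have hK1' : 1 ≤ K1 := hK1 ▸
      one_le_mul_of_one_le_of_one_le (one_le_pow₀ (by norm_num)) (le_max_right _ _)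
    obtain ⟨K2, hK2⟩ : ∃ K2 : ℝ, K2 = 2 * 2 ^ A * K1 := ⟨_, rfl⟩
    have hK2' : 1 ≤ K2 := hK2 ▸ one_le_mul_of_one_le_of_one_le
      (one_le_mul_of_one_le_of_one_le (by norm_num) (one_le_pow₀ (by norm_num))) hK1'
    obtain ⟨K4, hK4⟩ : ∃ K4 : ℝ, K4 = 4 ^ ((d + 1) * A) * K1 := ⟨_, rfl⟩
    have hK4' : 1 ≤ K4 := hK4 ▸ one_le_mul_of_one_le_of_one_le (one_le_pow₀ (by norm_num)) hK1'
    obtain ⟨Ω, hΩ, hih⟩ := ih (2 * ((2 * A + 2) * (A + 1)))
      ((2 ^ ((2 * A + 2) * (2 * A + 2)) * K2 ^ (2 * A + 2)) ^ 2)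
    set S := (finite_small (d + 1) (2 * A) (K4 ^ 2)).toFinset.erase 0 with hS
    refine ⟨(∏ G ∈ S, G) * rename Fin.succ Ω, mul_ne_zero
      (Finset.prod_ne_zero_iff.mpr fun G hG => Finset.ne_of_mem_erase hG) (fun h => hΩ
        (rename_injective _ (Fin.succ_injective d) (by rw [h, map_zero]))), ?_⟩
    intro n V t hn hV hD hL hv
    obtain ⟨W, hWV, hWv, hW⟩ := exists_clean t n V hV hv
    have hW0 : W ≠ 0 := ne_zero_of_dvd_ne_zero hV hWV
    have hWD : W.totalDegree ≤ A * n := (totalDegree_le_of_dvd_of_isDomain hWV hV).trans hD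
    have h4 : ∀ U : MvPolynomial (Fin (d + 1)) ℤ, U.totalDegree ≤ A * n →
        (4 : ℝ) ^ ((d + 1) * U.totalDegree) ≤ (4 ^ ((d + 1) * A)) ^ n := fun U hU => by
      rw [← pow_mul, mul_assoc]
      exact pow_le_pow_right₀ (by norm_num) (Nat.mul_le_mul_left _ hU)
    have hWL : l1 W ≤ K1 ^ n := by
      have := (l1_pow_le_of_dvd hV (k := 1) (by simpa using hWV)).2
      rw [pow_one] at this
      rw [hK1, mul_pow]
      refine this.trans (mul_le_mul (h4 V hD) (hL.trans ((le_abs_self _).trans ?_)) (l1_nonneg _)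
        (by positivity))
      rw [abs_pow]
      exact pow_le_pow_left₀ (abs_nonneg _) (le_max_left _ _) _
    rw [map_mul, map_prod]
    by_cases hc : ∃ G : MvPolynomial (Fin (d + 1)) ℤ, 0 < G.totalDegree ∧ G ^ (n / 2 + 1) ∣ W
    · obtain ⟨G, hG, hGW⟩ := hc
      obtain ⟨h5, h6⟩ := l1_pow_le_of_dvd hW0 hGW
      refine mul_eq_zero_of_left (Finset.prod_eq_zero (i := G) ?_
        (hW G ((dvd_pow_self _ (Nat.succ_ne_zero _)).trans hGW) hG)) _
      rw [hS, Finset.mem_erase, Set.Finite.mem_toFinset]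
      refine ⟨by rintro rfl; simp at hG, ?_, ?_⟩
      · refine Nat.le_of_mul_le_mul_left (c := n / 2 + 1) ?_ (Nat.succ_pos _)
        have : A * n ≤ A * (2 * (n / 2 + 1)) := Nat.mul_le_mul_left _ (by omega)
        nlinarith
      · refine le_of_pow_le_pow_left₀ (Nat.succ_ne_zero (n / 2)) (by positivity) (h6.trans ?_)
        refine (mul_le_mul (h4 W hWD) hWL (l1_nonneg _) (by positivity)).trans ?_
        rw [← mul_pow, ← hK4, ← pow_mul]
        exact pow_le_pow_right₀ hK4' (by omega)
    · push Not at hc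
      obtain ⟨Q, r, hQ, hr, hQD, hQL, hQv⟩ := elim_step t hW0 (J := n / 2) (Nat.div_le_self _ _)
        hWD hWL hWv hc
      have hnn : n * n ≤ 2 * (n * (n - n / 2)) := by
        rw [mul_left_comm]
        exact Nat.mul_le_mul_left _ (by omega)
      have hr' : r ≤ (2 * A + 2) * n := by nlinarith
      refine mul_eq_zero_of_right _ ?_
      rw [aeval_rename]
      refine hih (n * (n - n / 2)) Q _ (Nat.mul_pos hn (by omega)) hQ (hQD.trans ?_)
        (hQL.trans ?_) hQv
      · calc r * (A * n + n) ≤ (2 * A + 2) * n * (A * n + n) := Nat.mul_le_mul_right _ hr'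
          _ = (2 * A + 2) * (A + 1) * (n * n) := by ring
          _ ≤ (2 * A + 2) * (A + 1) * (2 * (n * (n - n / 2))) := Nat.mul_le_mul_left _ hnn
          _ = _ := by ring
      · have h7 : (2 : ℝ) ^ n * 2 ^ (A * n) * K1 ^ n = K2 ^ n := by
          rw [hK2, mul_pow, mul_pow, pow_mul]
        rw [h7, ← pow_mul, ← pow_mul]
        calc (2 : ℝ) ^ (r * r) * K2 ^ (n * r)
            ≤ 2 ^ ((2 * A + 2) * (2 * A + 2) * (n * n)) * K2 ^ ((2 * A + 2) * (n * n)) := by
              refine mul_le_mul (pow_le_pow_right₀ (by norm_num) ?_) (pow_le_pow_right₀ hK2' ?_)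
                (by positivity) (by positivity)
              · calc r * r ≤ (2 * A + 2) * n * ((2 * A + 2) * n) := Nat.mul_le_mul hr' hr'
                  _ = _ := by ring
              · calc n * r ≤ n * ((2 * A + 2) * n) := Nat.mul_le_mul_left _ hr'
                  _ = _ := by ring
          _ = (2 ^ ((2 * A + 2) * (2 * A + 2)) * K2 ^ (2 * A + 2)) ^ (n * n) := by
              rw [mul_pow, ← pow_mul, ← pow_mul]
          _ ≤ _ := pow_le_pow_right₀ (one_le_mul_of_one_le_of_one_le (one_le_pow₀ (by norm_num))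
              (one_le_pow₀ hK2')) hnn

end Pool.Agent.Lib.MP_4ffbf9_nt.PR
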