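import Mathlib
import Pool.Agent.Lib.MP_4ffbf9_nt.PR.Defs
import Pool.Agent.Lib.MP_4ffbf9_nt.PR.Amb
import Pool.Agent.Lib.MP_4ffbf9_nt.PR.Norm
import Pool.Agent.Lib.MP_4ffbf9_nt.PR.Wr
import Pool.Agent.Lib.MP_4ffbf9_nt.PR.ZL

set_option autoImplicit false

namespace Pool.Agent.Lib.MP_4ffbf9_nt.PR

open MvPolynomial Pool.Agent.Subspace

/-- The polynomials that vanish at almost all points of a sequence. -/
def uI {ι : Type} (U : Ultrafilter ℕ) (p : ℕ → ι → ℚ) : Ideal (RQ ι) where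
  carrier := {f | ∀ᶠ j in (U : Filter ℕ), eval (p j) f = 0}
  add_mem' := fun ha hb => (Filter.Eventually.and ha hb).mono fun j h => by
    rw [map_add, h.1, h.2, add_zero]
  zero_mem' := Filter.Eventually.of_forall fun j => map_zero _
  smul_mem' := fun c f hf => Filter.Eventually.mono hf fun j h => by
    rw [smul_eq_mul, map_mul, h, mul_zero]

theorem mem_uI {ι : Type} (U : Ultrafilter ℕ) (p : ℕ → ι → ℚ) (f : RQ ι) :
    f ∈ uI U p ↔ ∀ᶠ j in (U : Filter ℕ), eval (p j) f = 0 := Iff.rfl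

theorem uI_prime {ι : Type} (U : Ultrafilter ℕ) (p : ℕ → ι → ℚ) : (uI U p).IsPrime := by
  refine ⟨fun h => ?_, fun {f g} h => ?_⟩
  · have h1 : (1 : RQ ι) ∈ uI U p := h ▸ Submodule.mem_top
    obtain ⟨j, hj⟩ := ((mem_uI _ _ _).1 h1).exists
    simp at hj
  · rw [mem_uI, mem_uI, ← Ultrafilter.eventually_or]
    exact ((mem_uI _ _ _).1 h).mono fun j hj => by rwa [map_mul, mul_eq_zero] at hj

theorem uI_zero {ι : Type} [Fintype ι] (U : Ultrafilter ℕ) (p : ℕ → ι → ℚ) :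
    ∀ᶠ j in (U : Filter ℕ), ∀ f ∈ uI U p, eval (p j) f = 0 := by
  obtain ⟨S, hS⟩ : (uI U p).FG := IsNoetherian.noetherian _
  have h1 : ∀ᶠ j in (U : Filter ℕ), ∀ f ∈ S, eval (p j) f = 0 :=
    (Filter.eventually_all_finset S).2 fun f hf =>
      (mem_uI _ _ _).1 (hS ▸ Ideal.subset_span hf)
  refine h1.mono fun j hj f hf => ?_
  have h2 : Ideal.span (S : Set (RQ ι)) ≤ RingHom.ker (eval (p j)) :=
    Ideal.span_le.2 fun g hg => hj g hg
  exact h2 (hS ▸ hf)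

theorem root_test {r : ℕ} {u : ℚ} {T : ℝ} (hT : T < u.den) (ψ : Fin r → ℤ)
    (hψ : ∀ l, |(ψ l : ℝ)| ≤ T) (h0 : ∑ l : Fin r, u ^ (l : ℕ) * ψ l = 0) : ψ = 0 := by
  set f : Polynomial ℤ := ∑ l : Fin r, Polynomial.monomial (l : ℕ) (ψ l) with hf
  have hc : ∀ l : Fin r, f.coeff l = ψ l := fun l => by
    rw [hf, Polynomial.finsetSum_coeff, Finset.sum_eq_single l]
    · simp
    · intro j _ hj
      rw [Polynomial.coeff_monomial, if_neg fun e => hj (Fin.ext e)]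
    · simp
  by_cases hf0 : f = 0
  · funext l
    rw [← hc, hf0]
    simp
  exfalso
  have hroot : Polynomial.aeval u f = 0 := by
    rw [hf, map_sum, ← h0]
    refine Finset.sum_congr rfl fun l _ => ?_
    simp [mul_comm]
  have hd := den_dvd_of_is_root hroot
  have hlead : |(f.leadingCoeff : ℝ)| ≤ T := by
    have hm : f.natDegree ∈ f.support := Polynomial.natDegree_mem_support_of_nonzero hf0
    by_cases hr : f.natDegree < r
    · have h6 : f.leadingCoeff = ψ ⟨_, hr⟩ := hc ⟨_, hr⟩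
      rw [h6]
      exact hψ _
    · refine absurd ?_ (Polynomial.mem_support_iff.1 hm)
      rw [hf, Polynomial.finsetSum_coeff]
      refine Finset.sum_eq_zero fun l _ => ?_
      rw [Polynomial.coeff_monomial, if_neg]
      rw [← hf]
      have := l.2
      omega
  have h1 : u.den ∣ f.leadingCoeff.natAbs := by
    rw [← Rat.isFractionRingDen]
    exact Int.natAbs_dvd_natAbs.2 hd
  have h2 : u.den ≤ f.leadingCoeff.natAbs :=
    Nat.le_of_dvd (Int.natAbs_pos.2 (Polynomial.leadingCoeff_ne_zero.2 hf0)) h1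
  have h3 : (u.den : ℝ) ≤ |(f.leadingCoeff : ℝ)| := by
    rw [← Int.cast_abs, ← Int.natCast_natAbs]
    exact_mod_cast h2
  linarith

theorem den_ge {s b c m2 m3 : ℕ} (hb : 0 < b) (hc : 0 < c) (h3 : 0 < m3)
    (heq : s + b * m2 = c * m3) :
    m3 ≤ Nat.gcd m2 m3 * (b * (-(s : ℚ) / ((c * m3 : ℕ) : ℚ)).den) := by
  rw [neg_div, Rat.den_neg_eq_den]
  set u : ℚ := (s : ℚ) / ((c * m3 : ℕ) : ℚ) with hu
  have hq : (s : ℚ) + b * m2 = c * m3 := by exact_mod_cast heq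
  have h0 : ((c * m3 : ℕ) : ℚ) ≠ 0 := by positivity
  have h1 : u * ((c * m3 : ℕ) : ℚ) = s := div_mul_cancel₀ _ h0
  have h2 : u * u.den = u.num := Rat.mul_den_eq_num u
  have h4 : (m2 : ℤ) * (b * u.den) = m3 * (c * (u.den - u.num)) := by
    have : (((m2 : ℤ) * (b * u.den) : ℤ) : ℚ) = ((m3 * (c * (u.den - u.num)) : ℤ) : ℚ) := by
      push_cast at h1 ⊢
      rw [← h2]
      linear_combination (u.den : ℚ) * hq + (u.den : ℚ) * h1
    exact_mod_cast this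
  have h5 : m3 ∣ m2 * (b * u.den) := by
    have : (m3 : ℤ) ∣ ((m2 * (b * u.den) : ℕ) : ℤ) := by
      push_cast
      exact ⟨_, h4⟩
    exact_mod_cast this
  rw [Nat.gcd_comm]
  exact Nat.le_of_dvd (Nat.mul_pos (Nat.gcd_pos_of_pos_left _ h3) (Nat.mul_pos hb u.den_pos))
    (Nat.dvd_gcd_mul_iff_dvd_mul.2 h5)

theorem mon_ge {ι : Type} [Fintype ι] {J h n : ℕ} (hJ : 1 ≤ J) (hh : 2 ^ J ≤ h) {x : ι → ℕ}
    (hx : ∀ v, |(x v : ℝ) / h - 1| ^ J * h ≤ 1) {e : ι →₀ ℕ} (he : ∑ v, e v = n) :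
    h ^ n ≤ 2 ^ n * mon x e := by
  have hz' : (2 : ℝ) ^ J ≤ h := by exact_mod_cast hh
  have hz0 : (0 : ℝ) < h := lt_of_lt_of_le (by positivity) hz'
  have h1 : ∀ v, h ≤ 2 * x v := fun v => by
    have h1 : |(x v : ℝ) / h - 1| ≤ 1 / 2 := by
      refine le_of_pow_le_pow_left₀ (n := J) (by omega) (by norm_num) ?_
      rw [one_div, inv_pow, ← one_div, le_div_iff₀ (by positivity)]
      exact (mul_le_mul_of_nonneg_left hz' (by positivity)).trans (hx v)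
    have h4 : 1 / 2 ≤ (x v : ℝ) / h := by linarith [(abs_le.1 h1).1]
    rw [le_div_iff₀ hz0] at h4
    have : (h : ℝ) ≤ 2 * x v := by linarith
    exact_mod_cast this
  rw [← he, mon, ← Finset.prod_pow_eq_pow_sum, ← Finset.prod_pow_eq_pow_sum,
    ← Finset.prod_mul_distrib]
  refine Finset.prod_le_prod' fun v _ => ?_
  rw [← mul_pow]
  exact Nat.pow_le_pow_left (h1 v) _

theorem den_big {n h G b d m : ℕ} {K : ℝ} (hK : 1 ≤ K) (hn : 1 ≤ n) (hG : G ^ 4 ≤ h ^ n)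
    (hb : b ^ 4 ≤ h ^ n) (hm : h ^ n ≤ 2 ^ n * m) (hd : m ≤ G * (b * d)) (hh : 4 * K ^ 2 < h) :
    K ^ n < d := by
  by_contra hc
  rw [not_lt] at hc
  have h0 : (0 : ℝ) < h := lt_trans (by positivity) hh
  have h1 : (G * b) ^ 2 ≤ h ^ n := by
    refine Nat.pow_le_pow_iff_left (n := 2) (by norm_num) |>.1 ?_
    calc ((G * b) ^ 2) ^ 2 = G ^ 4 * b ^ 4 := by ring
      _ ≤ h ^ n * h ^ n := Nat.mul_le_mul hG hb
      _ = _ := by ring
  have h2 : (h ^ n) ^ 2 ≤ h ^ n * (2 ^ n * d) ^ 2 := by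
    calc (h ^ n) ^ 2 ≤ (2 ^ n * (G * (b * d))) ^ 2 :=
          Nat.pow_le_pow_left (hm.trans (Nat.mul_le_mul_left _ hd)) _
      _ = (G * b) ^ 2 * (2 ^ n * d) ^ 2 := by ring
      _ ≤ _ := Nat.mul_le_mul_right _ h1
  have h3 : ((h : ℝ) ^ n) * (h : ℝ) ^ n ≤ (h : ℝ) ^ n * (2 ^ n * d) ^ 2 := by
    rw [← sq]
    exact_mod_cast h2
  have h4 := le_of_mul_le_mul_left h3 (by positivity)
  have h5 : ((2 : ℝ) ^ n * d) ^ 2 ≤ (4 * K ^ 2) ^ n := by
    calc ((2 : ℝ) ^ n * d) ^ 2 ≤ (2 ^ n * K ^ n) ^ 2 := by gcongr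
      _ = (4 * K ^ 2) ^ n := by
        rw [← mul_pow, ← pow_mul, mul_comm n, pow_mul]
        congr 1
        ring
  exact absurd (h4.trans h5) (not_le.2 (pow_lt_pow_left₀ hh (by positivity) (by omega)))

theorem eval_aeval_toQ {ι σ : Type} (p : ι → ℚ) (t : σ → RQ ι) (Ω : RZ σ) :
    eval p (aeval t (toQ Ω)) = aeval (fun i => eval p (t i)) Ω := by
  induction Ω using MvPolynomial.induction_on with
  | C a => simp
  | add f g hf hg => simp only [map_add, hf, hg]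
  | mul_X f i hf => simp only [map_mul, hf, map_X, aeval_X]

/-- The window theorem for products. -/
theorem window (ι : Type) [Fintype ι] (J : ℕ) (hJ : 1 ≤ J) : ∃ D h0 n0 : ℕ,
    ∀ (n h : ℕ) (x : ι → ℕ) (e1 e2 e3 : ι →₀ ℕ) (a b c : ℕ), n0 ≤ n → h0 ≤ h →
      (∀ v, |(x v : ℝ) / h - 1| ^ J * h ≤ 1) →
      ∑ v, e1 v = n → ∑ v, e2 v = n → ∑ v, e3 v = n → 0 < a → 0 < b → 0 < c →
      b ^ D ≤ h ^ n → c ^ D ≤ h ^ n → Nat.gcd (mon x e2) (mon x e3) ^ D ≤ h ^ n →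
      a * mon x e1 + b * mon x e2 ≠ c * mon x e3 := by
  obtain ⟨k, K, h0, hK, hamb⟩ := amb ι J hJ
  by_contra hcon
  push Not at hcon
  choose n h x e1 e2 e3 a b c hn hh hx he1 he2 he3 ha hb hc hbD hcD hG heq using
    fun j => hcon (4 * k + 4) j j
  set p : ℕ → ι → ℚ := fun j v => (x j v : ℚ) / h j with hp
  set U : Ultrafilter ℕ := Filter.hyperfilter ℕ with hU
  have := uI_prime U p
  obtain ⟨d, t, s, e, cc, K', hs, hK', hind, hnorm⟩ := norm_step ι (uI U p)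
  set q := Fintype.card (Fin e → Fin (2 * k + 1)) with hq
  set K1 : ℝ := K * K' ^ (2 * k + 1) with hK1
  have hK11 : 1 ≤ K1 := one_le_mul_of_one_le_of_one_le hK (one_le_pow₀ hK')
  set K3 : ℝ := q.factorial * (2 ^ (cc * (2 * k + 1)) * (e.factorial * K1 ^ e)) ^ q with hK3
  obtain ⟨Ω, hΩ, hz⟩ := zero_lemma d (4 * (q * (cc * (2 * k + 1)))) (K3 ^ 4)
  obtain ⟨h1, hh1⟩ := exists_nat_gt (4 * K1 ^ 2)
  have hbig : ∀ᶠ j in (U : Filter ℕ), h0 + h1 + 2 ^ J + 4 * q + 4 ≤ j :=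
    Nat.hyperfilter_le_atTop (Filter.eventually_ge_atTop _)
  have hs' : ∀ᶠ j in (U : Filter ℕ), eval (p j) s ≠ 0 :=
    Ultrafilter.eventually_not.2 fun h => hs ((mem_uI _ _ _).2 h)
  refine hind (toQ Ω) ((map_ne_zero_iff _ (map_injective _ Int.cast_injective)).2 hΩ)
    ((mem_uI _ _ _).2 (((hbig.and hs').and (uI_zero U p)).mono fun j hj => ?_))
  obtain ⟨⟨j1, j2⟩, j3⟩ := hj
  have hn' := hn j
  have hh' := hh j
  have hp2 : 1 ≤ 2 ^ J := Nat.one_le_two_pow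
  have hm3 := mon_ge hJ (by omega : 2 ^ J ≤ h j) (hx j) (he3 j)
  have hm30 : 0 < mon (x j) (e3 j) := by
    rcases Nat.eq_zero_or_pos (mon (x j) (e3 j)) with h5 | h5
    · rw [h5, mul_zero] at hm3
      exact absurd hm3 (not_le.2 (Nat.pow_pos (by omega)))
    · exact h5
  have hG4 : Nat.gcd (mon (x j) (e2 j)) (mon (x j) (e3 j)) ^ 4 ≤ h j ^ n j :=
    (Nat.pow_le_pow_right (Nat.gcd_pos_of_pos_right _ hm30) (by omega)).trans (hG j)
  obtain ⟨w, w1, w2, w3, w4⟩ := hamb (n j) (h j) (a j) (b j) (c j) (x j) (e1 j) (e2 j) (e3 j)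
    (by omega) (by omega) (hx j) (he1 j) (he2 j) (he3 j) (hc j) (heq j)
    ((Nat.pow_le_pow_right (hc j) (by omega)).trans (hcD j)) hG4
  have hden := den_big hK11 (by omega : 1 ≤ n j) hG4
    ((Nat.pow_le_pow_right (hb j) (by omega)).trans (hbD j)) hm3
    (den_ge (hb j) (hc j) hm30 (heq j)) (hh1.trans_le (by exact_mod_cast (by omega : h1 ≤ h j)))
  have eK : K ^ n j * K' ^ ((2 * k + 1) * n j) = K1 ^ n j := by rw [hK1, mul_pow, pow_mul]
  obtain ⟨V, G, g1, g2, g3, g4, g5⟩ := hnorm _ _ ((n j + 1) / 2) _ w _ (p j) j3 j2 w1 w2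
    w3 (fun ψ hψ h0 => root_test hden ψ (eK ▸ hψ) h0) w4
  rw [eK] at g4
  have hf : ∀ m : ℕ, (1 : ℝ) ≤ m.factorial := fun m => by exact_mod_cast m.factorial_pos
  have hB : (1 : ℝ) ≤ e.factorial * (K1 ^ n j) ^ e :=
    one_le_mul_of_one_le_of_one_le (hf e) (one_le_pow₀ (one_le_pow₀ hK11))
  obtain ⟨W, v1, v2, v3, v4⟩ := wronskN hB V g1 g2 _ g3 g4 g5
  rw [← hq] at v2 v3 v4
  have hn4 : n j ≤ 4 * ((n j + 1) / 2 - q) := by omega
  have hK31 : 1 ≤ K3 := one_le_mul_of_one_le_of_one_le (hf q) (one_le_pow₀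
    (one_le_mul_of_one_le_of_one_le (one_le_pow₀ (by norm_num))
      (one_le_mul_of_one_le_of_one_le (hf e) (one_le_pow₀ hK11))))
  have key := hz ((n j + 1) / 2 - q) W _ (by omega) v1 (v2.trans ?_) (v3.trans ?_) v4
  · rw [← key]
    exact eval_aeval_toQ _ _ _
  · calc q * (cc * ((2 * k + 1) * n j)) = q * (cc * (2 * k + 1)) * n j := by ring
      _ ≤ q * (cc * (2 * k + 1)) * (4 * ((n j + 1) / 2 - q)) := Nat.mul_le_mul_left _ hn4
      _ = _ := by ring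
  · rw [← pow_mul K3]
    refine le_trans ?_ (pow_le_pow_right₀ hK31 hn4)
    have hn0 : n j ≠ 0 := by omega
    rw [hK3, mul_pow (q.factorial : ℝ), pow_right_comm _ q, mul_pow (2 ^ _ : ℝ) _ (n j),
      mul_pow (e.factorial : ℝ), ← pow_mul (2 : ℝ), mul_assoc cc, pow_right_comm K1 e]
    gcongr
    · exact le_self_pow₀ (hf q) hn0
    · exact le_self_pow₀ (hf e) hn0

end Pool.Agent.Lib.MP_4ffbf9_nt.PR
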