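import Mathlib
import Pool.Agent.Lib.MP_4ffbf9_nt.PR.Win

set_option autoImplicit false

namespace Pool.Agent.Lib.MP_4ffbf9_nt.PR

open MvPolynomial Pool.Agent.Subspace

theorem w2_pow (T S D : ℕ) {ε : ℝ} (hε : 0 < ε) : ∃ n2 : ℕ, ∀ n h t : ℕ, n2 ≤ n → 3 ≤ h →
    (t : ℝ) ≤ T * Real.exp ((n : ℝ) ^ (1 - ε)) * (h : ℝ) ^ S → t ^ D ≤ h ^ n := by
  have h1 : Filter.Tendsto (fun n : ℕ => (n : ℝ) ^ ε) Filter.atTop Filter.atTop :=
    (tendsto_rpow_atTop hε).comp tendsto_natCast_atTop_atTop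
  obtain ⟨n1, hn1⟩ := Filter.eventually_atTop.1 (h1.eventually_ge_atTop (2 * D))
  refine ⟨n1 + 2 * D * (T + S) + 1, fun n h t hn hh ht => ?_⟩
  have hn0 : (0 : ℝ) < n := by exact_mod_cast (by omega : 0 < n)
  have hh3 : (3 : ℝ) ≤ h := by exact_mod_cast hh
  have hl : 1 ≤ Real.log h := by
    rw [Real.le_log_iff_exp_le (by linarith)]
    linarith [Real.exp_one_lt_three]
  have hp : 0 ≤ (n : ℝ) ^ (1 - ε) := by positivity
  have h2 : 2 * D * (n : ℝ) ^ (1 - ε) ≤ n := by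
    calc _ ≤ (n : ℝ) ^ ε * (n : ℝ) ^ (1 - ε) := by gcongr; exact hn1 n (by omega)
      _ = n := by rw [← Real.rpow_add hn0]; simp
  have h3 : 2 * D * ((T : ℝ) + S) ≤ n := by exact_mod_cast (by omega : 2 * D * (T + S) ≤ n)
  have h4 : ∀ k : ℕ, (h : ℝ) ^ k = Real.exp (k * Real.log h) := fun k => by
    rw [Real.exp_nat_mul, Real.exp_log (by linarith)]
  have h5 : (t : ℝ) ≤ Real.exp ((T + (n : ℝ) ^ (1 - ε) + S) * Real.log h) := by
    refine ht.trans ?_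
    rw [h4, add_mul, add_mul, Real.exp_add, Real.exp_add]
    gcongr
    · nlinarith [Real.add_one_le_exp (T * Real.log h), Nat.cast_nonneg (α := ℝ) T]
    · nlinarith
  have h6 : (t : ℝ) ^ D ≤ (h : ℝ) ^ n := by
    refine (pow_le_pow_left₀ (by positivity) h5 D).trans ?_
    rw [← Real.exp_nat_mul, h4, ← mul_assoc]
    gcongr
    linarith
  exact_mod_cast h6

theorem w2_gcd {A X Y g W n : ℕ} {Q : ℝ} (hA : 0 < A) (hY : 0 < Y) (hW : 0 < W) (hn : n ≠ 0)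
    (hQ : GcdOk Q X Y) (h1 : g ∣ A * X) (h2 : g ∣ Y) (h3 : g ∣ W ^ n) : g ≤ A * ⌈Q⌉₊ * W := by
  obtain ⟨s, hs⟩ := Nat.prod_primeFactors_dvd (Nat.gcd X Y)
  have hG : 0 < Nat.gcd X Y := Nat.gcd_pos_of_pos_right _ hY
  set ρ := ∏ p ∈ (Nat.gcd X Y).primeFactors, p with hρ
  have hρ0 : 0 < ρ := Nat.pos_of_mul_pos_right (hs ▸ hG)
  have hs0 : 0 < s := Nat.pos_of_mul_pos_left (hs ▸ hG)
  have hsQ : s ≤ ⌈Q⌉₊ := by
    have : (s : ℝ) ≤ Q := by
      unfold GcdOk at hQ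
      rw [← Nat.cast_prod, ← hρ, hs, Nat.cast_mul, mul_div_cancel_left₀] at hQ
      · exact hQ
      · exact_mod_cast hρ0.ne'
    exact_mod_cast this.trans (Nat.le_ceil Q)
  have h4 : g ∣ (A * s) * ρ := by
    have := Nat.dvd_gcd h1 (h2.mul_left A)
    rw [Nat.gcd_mul_left, hs] at this
    convert this using 1
    ring
  obtain ⟨g1, g2, d1, d2, rfl⟩ := exists_dvd_and_dvd_of_dvd_mul h4
  have hsq : Squarefree g2 := by
    refine Squarefree.squarefree_of_dvd d2 ?_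
    rw [hρ, ← Nat.radical_eq_prod_primeFactors]
    exact UniqueFactorizationMonoid.squarefree_radical
  have d3 : g2 ∣ W := (hsq.dvd_pow_iff_dvd hn).1 ((Dvd.intro_left _ rfl).trans h3)
  exact Nat.mul_le_mul ((Nat.le_of_dvd (by positivity) d1).trans (by gcongr))
    (Nat.le_of_dvd hW d3)

/-- The window theorem in the words of the problem. -/
theorem win2 (A B C R S : ℕ) (Q ε δ : ℝ) (hA : 0 < A) (hB : 0 < B) (hC : 0 < C) (hε : 0 < ε)
    (hδ : 0 < δ) : ∃ h2 n2 : ℕ, ∀ (n h : ℕ) (a : Fin 3 → ℕ) (w m : Fin 3 → Fin R → ℕ),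
      n2 ≤ n → h2 ≤ h → Sol A B C R S Q ε n h a w m →
      ¬ ∀ k i, (h : ℝ) ≤ w k i + (h : ℝ) ^ (1 - δ) := by
  obtain ⟨D, h0, n0, H⟩ := window (Fin 3 × Fin R) ⌈1 / δ⌉₊ (Nat.ceil_pos.2 (by positivity))
  obtain ⟨n1, hp⟩ := w2_pow (B + C + A * ⌈Q⌉₊) (S + R) D hε
  refine ⟨h0 + 3, n0 + n1 + 1, fun n h a w m hn hh hs hw => ?_⟩
  have hh1 : (1 : ℝ) ≤ h := by exact_mod_cast (by omega : 1 ≤ h)
  have hh0 : (0 : ℝ) < h := by linarith
  let e : Fin 3 → (Fin 3 × Fin R →₀ ℕ) := fun k =>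
    Finsupp.equivFunOnFinite.symm fun v => if v.1 = k then m k v.2 else 0
  have he : ∀ k, ∑ v, e k v = n := fun k => by
    simp [e, Fintype.sum_prod_type, Finset.sum_ite_irrel, hs.deg]
  have hm : ∀ k, mon (fun v : Fin 3 × Fin R => w v.1 v.2) (e k) = ∏ i, w k i ^ m k i := fun k => by
    simp [mon, e, Fintype.prod_prod_type, Finset.prod_ite_irrel]
  have hE : 1 ≤ Real.exp ((n : ℝ) ^ (1 - ε)) := Real.one_le_exp (by positivity)
  have hco : ∀ T k, T ≤ B + C + A * ⌈Q⌉₊ → (T * a k) ^ D ≤ h ^ n := fun T k hT => by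
    refine hp n h _ (by omega) (by omega) ?_
    rw [Nat.cast_mul, mul_assoc]
    refine mul_le_mul (by exact_mod_cast hT) ((hs.a_le k).trans ?_) (by positivity) (by positivity)
    gcongr
    omega
  refine H n h (fun v => w v.1 v.2) (e 0) (e 1) (e 2) (A * a 0) (B * a 1) (C * a 2) (by omega)
    (by omega) (fun v => ?_) (he 0) (he 1) (he 2) (Nat.mul_pos hA (hs.a_pos 0))
    (Nat.mul_pos hB (hs.a_pos 1)) (Nat.mul_pos hC (hs.a_pos 2)) (hco _ _ (by omega))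
    (hco _ _ (by omega)) ?_ (by rw [hm, hm, hm, mul_assoc, mul_assoc, mul_assoc]; exact hs.eq)
  · have h1 : |(w v.1 v.2 : ℝ) / h - 1| ≤ (h : ℝ) ^ (-δ) := by
      have h2 : (w v.1 v.2 : ℝ) ≤ h := by exact_mod_cast hs.w_le v.1 v.2
      have h3 := hw v.1 v.2
      rw [sub_eq_add_neg 1, Real.rpow_add hh0, Real.rpow_one] at h3
      rw [div_sub_one hh0.ne', abs_div, abs_of_pos hh0, div_le_iff₀ hh0, abs_sub_comm,
        abs_of_nonneg (by linarith)]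
      linarith
    calc _ ≤ ((h : ℝ) ^ (-δ)) ^ ⌈1 / δ⌉₊ * h := by gcongr
      _ = (h : ℝ) ^ (-δ * ⌈1 / δ⌉₊ + 1) := by
        rw [Real.rpow_add hh0, Real.rpow_one, Real.rpow_mul_natCast hh0.le]
      _ ≤ 1 := by
        refine Real.rpow_le_one_of_one_le_of_nonpos hh1 ?_
        have := (div_le_iff₀ hδ).1 (Nat.le_ceil (1 / δ))
        linarith
  · rw [hm, hm]
    refine hp n h _ (by omega) (by omega) ?_
    have g1 := Nat.gcd_dvd_left (∏ i, w 1 i ^ m 1 i) (∏ i, w 2 i ^ m 2 i)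
    have g2 := Nat.gcd_dvd_right (∏ i, w 1 i ^ m 1 i) (∏ i, w 2 i ^ m 2 i)
    have hg := w2_gcd (W := ∏ i, w 1 i) (n := n) hA
      (Nat.mul_pos (hs.a_pos 1) (Finset.prod_pos fun i _ => pow_pos (hs.w_pos 1 i) _))
      (Finset.prod_pos fun i _ => hs.w_pos 1 i) (by omega) hs.gcd
      ((Nat.dvd_add_left ((g1.mul_left _).mul_left B)).1
        (hs.eq ▸ (g2.mul_left _).mul_left C)) (g1.mul_left _) (g1.trans (by
          rw [← Finset.prod_pow]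
          exact Finset.prod_dvd_prod_of_dvd _ _ fun i _ => pow_dvd_pow _
            (hs.deg 1 ▸ Finset.single_le_sum (fun _ _ => Nat.zero_le _) (Finset.mem_univ i))))
    have hW : ∏ i, w 1 i ≤ h ^ (S + R) :=
      (Finset.prod_le_pow_card _ _ h fun i _ => hs.w_le 1 i).trans
        (Nat.pow_le_pow_right (by omega) (by simp))
    have hg' : Nat.gcd (∏ i, w 1 i ^ m 1 i) (∏ i, w 2 i ^ m 2 i) ≤
        (B + C + A * ⌈Q⌉₊) * h ^ (S + R) := hg.trans (Nat.mul_le_mul (by omega) hW)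
    calc _ ≤ (((B + C + A * ⌈Q⌉₊ : ℕ) : ℝ) * 1) * (h : ℝ) ^ (S + R) := by
          rw [mul_one]
          exact_mod_cast hg'
      _ ≤ _ := by gcongr

end Pool.Agent.Lib.MP_4ffbf9_nt.PR
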