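import Mathlib
import Pool.Agent.Lib.MP_4ffbf9_nt.PR.Win2
import Pool.Agent.Lib.MP_4ffbf9_nt.PR.Bdd
import Pool.Agent.Lib.MP_4ffbf9_nt.PR.Close

set_option autoImplicit false

namespace Pool.Agent.Lib.MP_4ffbf9_nt.PR

open MvPolynomial Pool.Agent.Subspace

/-- Equal degrees. -/
theorem core (A B C R S : ℕ) (Q M ε : ℝ) (hA : 0 < A) (hB : 0 < B) (hC : 0 < C) (hε : 0 < ε)
    (hε2 : ε ≤ 1 / 2) : ∃ n0 : ℕ, ∀ (n l h : ℕ) (a : Fin 3 → ℕ) (w m : Fin 3 → Fin R → ℕ),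
      n0 ≤ n → Sol A B C R S Q ε n h a w m → 2 ^ n ≤ ∏ k, (a k * ∏ i, w k i ^ m k i) →
      (∃ k i, w k i = h) → (∀ k i j, (w k i : ℝ) ≤ w k j + M * (h : ℝ) ^ (1 - ε)) →
      (∀ k i, l ≤ w k i) → (n : ℝ) * (h : ℝ) ^ (1 - ε) < (h : ℝ) - l := by
  obtain ⟨δ, h1, hδ, hc⟩ := close A B C R S Q M ε hA hB hC hε hε2
  obtain ⟨h2, n2, hw⟩ := win2 A B C R S Q ε δ hA hB hC hε hδ
  obtain ⟨h3, n3, hw'⟩ := win2 A B C R S Q ε (ε / 2) hA hB hC hε (by linarith)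
  obtain ⟨n4, hb⟩ := bdd A B C R S Q ε hA hB hC hε (h1 + h2 + h3)
  refine ⟨n2 + n3 + n4, fun n l h a w m hn hs h2n hh hM hl => ?_⟩
  by_contra hcon
  rw [not_lt] at hcon
  by_cases hbd : h ≤ h1 + h2 + h3
  · exact absurd (hb n h a w m (by omega) hbd hs) (not_lt.2 h2n)
  by_cases hbig : (h : ℝ) ^ (ε / 2) ≤ n
  · exact hw n h a w m (by omega) (by omega) hs (hc n h a w m (by omega) hbig hs hh hM)
  refine hw' n h a w m (by omega) (by omega) hs fun k i => ?_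
  have h0 : (0 : ℝ) < h := by exact_mod_cast (by omega : 0 < h)
  have e : (h : ℝ) ^ (1 - ε / 2) = (h : ℝ) ^ (ε / 2) * (h : ℝ) ^ (1 - ε) := by
    rw [← Real.rpow_add h0]
    congr 1
    ring
  have h5 : (l : ℝ) ≤ w k i := by exact_mod_cast hl k i
  have h6 := mul_le_mul_of_nonneg_right (not_le.1 hbig).le (Real.rpow_nonneg h0.le (1 - ε))
  rw [e]
  linarith

end Pool.Agent.Lib.MP_4ffbf9_nt.PR
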