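import Mathlib
import Pool.Agent.Lib.MP_4ffbf9_nt.PR.Core

set_option autoImplicit false

namespace Pool.Agent.Lib.MP_4ffbf9_nt.PR

open MvPolynomial Pool.Agent.Subspace

/-- Grouping the factors of a product into powers of its distinct values. -/
theorem group_factors {R g n : ℕ} (hg : 0 < g) (hn : R < n) (x : Fin (g * n) → ℕ)
    (hc : (Finset.univ.image x).card ≤ R) :
    ∃ v m r : Fin R → ℕ, (∀ i, ∃ j, v i = x j) ∧ ∑ i, m i = n - R ∧ ∑ i, r i = g * R ∧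
      ∏ j, x j = (∏ i, v i ^ r i) * ∏ i, (v i ^ g) ^ m i := by
  classical
  have j0 : Fin (g * n) := ⟨0, Nat.mul_pos hg (by omega)⟩
  obtain ⟨f⟩ : Nonempty (Finset.univ.image x ↪ Fin R) :=
    Function.Embedding.nonempty_of_card_le (by simpa using hc)
  let v : Fin R → ℕ := Function.extend f Subtype.val fun _ => x j0
  let φ : Fin (g * n) → Fin R := fun j => f ⟨x j, Finset.mem_image_of_mem x (Finset.mem_univ j)⟩
  have hv : ∀ j, v (φ j) = x j := fun j => f.injective.extend_apply _ _ _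
  let c : Fin R → ℕ := fun i => (Finset.univ.filter fun j => φ j = i).card
  have hsum : ∑ i, c i = g * n := by
    have := Finset.card_eq_sum_card_fiberwise (s := Finset.univ) (t := Finset.univ) (f := φ)
      fun j _ => Finset.mem_univ _
    simpa using this.symm
  have hprod : ∏ j, x j = ∏ i, v i ^ c i := by
    rw [← Finset.prod_fiberwise Finset.univ φ x]
    refine Finset.prod_congr rfl fun i _ => ?_
    rw [Finset.prod_congr rfl (g := fun _ => v i) fun j hj => by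
      rw [← hv j, (Finset.mem_filter.mp hj).2], Finset.prod_const]
  have hle : n - R ≤ ∑ i, c i / g := by
    have h1 : ∑ i, c i ≤ ∑ i : Fin R, (g * (c i / g) + g) := Finset.sum_le_sum fun i _ => by
      have := Nat.div_add_mod (c i) g
      have := Nat.mod_lt (c i) hg
      omega
    rw [hsum, Finset.sum_add_distrib, ← Finset.mul_sum, Finset.sum_const, Finset.card_univ,
      Fintype.card_fin, smul_eq_mul, mul_comm R, ← mul_add] at h1
    have := Nat.le_of_mul_le_mul_left h1 hg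
    omega
  obtain ⟨m, hm, hmd⟩ := Finsupp.exists_le_degree_eq
    (Finsupp.equivFunOnFinite.symm fun i => c i / g) (n - R)
    (by rw [Finsupp.degree_eq_sum]; simpa using hle)
  rw [Finsupp.degree_eq_sum] at hmd
  have hm' : ∀ i, g * m i ≤ c i := fun i =>
    (Nat.mul_le_mul_left g (by simpa using hm i)).trans (Nat.mul_div_le _ _)
  refine ⟨v, m, fun i => c i - g * m i, fun i => ?_, hmd, ?_, ?_⟩
  · by_cases h : ∃ y, f y = i
    · obtain ⟨⟨y, hy⟩, rfl⟩ := h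
      obtain ⟨j, -, rfl⟩ := Finset.mem_image.mp hy
      exact ⟨j, hv j⟩
    · exact ⟨j0, Function.extend_apply' _ _ _ h⟩
  · have h1 : ∑ i, (c i - g * m i) + g * ∑ i, m i = g * n := by
      rw [Finset.mul_sum, ← Finset.sum_add_distrib, ← hsum]
      exact Finset.sum_congr rfl fun i _ => Nat.sub_add_cancel (hm' i)
    rw [hmd, Nat.mul_sub] at h1
    have := Nat.mul_le_mul_left g hn.le
    beta_reduce
    omega
  · rw [hprod, ← Finset.prod_mul_distrib]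
    exact Finset.prod_congr rfl fun i _ => by
      rw [← pow_mul, ← pow_add, Nat.sub_add_cancel (hm' i)]

theorem pow_window {R g u v h : ℕ} {M ε e δ : ℝ} (hg : 0 < g) (hgR : g ≤ R) (hv : 0 < v)
    (hu : u ^ g ≤ h) (he : e ≤ ε) (he1 : e ≤ 1) (he0 : 0 ≤ e) (hδ : δ * R ≤ e)
    (huv : (u : ℝ) ≤ v + M * (v : ℝ) ^ (1 - ε)) :
    ((u ^ g : ℕ) : ℝ) ≤ (v ^ g : ℕ) + R * |M| * (h : ℝ) ^ (1 - δ) := by
  by_cases hle : u ≤ v
  · have : ((u ^ g : ℕ) : ℝ) ≤ (v ^ g : ℕ) := by exact_mod_cast Nat.pow_le_pow_left hle g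
    have : 0 ≤ R * |M| * (h : ℝ) ^ (1 - δ) := by positivity
    linarith
  have hv1 : (1 : ℝ) ≤ v := by exact_mod_cast hv
  have hvu : (v : ℝ) ≤ u := by exact_mod_cast (not_le.mp hle).le
  have hu1 : (1 : ℝ) ≤ u := hv1.trans hvu
  have hu0 : (0 : ℝ) < u := by linarith
  have hg' : (0 : ℝ) < g := by exact_mod_cast hg
  have hgR' : (g : ℝ) ≤ R := by exact_mod_cast hgR
  have h1 : |(u : ℝ) ^ g - (v : ℝ) ^ g| ≤ |(u : ℝ) - v| * g * max |(u : ℝ)| |(v : ℝ)| ^ (g - 1) :=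
    abs_pow_sub_pow_le _ _ _
  rw [abs_of_pos hu0, abs_of_pos (by linarith : (0 : ℝ) < v), max_eq_left hvu,
    abs_of_nonneg (by linarith : (0 : ℝ) ≤ u - v)] at h1
  have h2 : (u : ℝ) - v ≤ |M| * (u : ℝ) ^ (1 - e) := by
    have h3 : (v : ℝ) ^ (1 - ε) ≤ (u : ℝ) ^ (1 - e) :=
      (Real.rpow_le_rpow_of_exponent_le hv1 (by linarith)).trans
        (Real.rpow_le_rpow (by linarith) hvu (by linarith))
    have h4 : M * (v : ℝ) ^ (1 - ε) ≤ |M| * (u : ℝ) ^ (1 - e) :=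
      mul_le_mul (le_abs_self M) h3 (by positivity) (abs_nonneg M)
    linarith
  have h5 : (u : ℝ) ^ (1 - e) * (u : ℝ) ^ (g - 1) ≤ (h : ℝ) ^ (1 - δ) := by
    have hδ' : δ * g ≤ e := by
      by_cases h0 : 0 ≤ δ
      · exact (mul_le_mul_of_nonneg_left hgR' h0).trans hδ
      · nlinarith
    have hδ1 : δ ≤ 1 := by
      by_contra h0
      have : (1 : ℝ) ≤ g := by exact_mod_cast hg
      nlinarith
    rw [← Real.rpow_natCast, ← Real.rpow_add hu0, Nat.cast_sub hg]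
    refine (Real.rpow_le_rpow_of_exponent_le hu1 (z := g * (1 - δ)) (by push_cast; linarith)).trans ?_
    rw [Real.rpow_mul hu0.le, Real.rpow_natCast]
    exact Real.rpow_le_rpow (by positivity) (by exact_mod_cast hu) (by linarith)
  have h6 : ((u : ℝ) - v) * g * (u : ℝ) ^ (g - 1) ≤ R * |M| * (h : ℝ) ^ (1 - δ) :=
    calc ((u : ℝ) - v) * g * (u : ℝ) ^ (g - 1)
        ≤ |M| * (u : ℝ) ^ (1 - e) * R * (u : ℝ) ^ (g - 1) := by gcongr
      _ = R * |M| * ((u : ℝ) ^ (1 - e) * (u : ℝ) ^ (g - 1)) := by ring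
      _ ≤ _ := by gcongr
  push_cast
  linarith [le_abs_self ((u : ℝ) ^ g - (v : ℝ) ^ g)]

theorem gap_transfer {n k l h H ε δ : ℝ} (hk : 1 ≤ k) (hn : n ≤ k * k) (hl : 0 ≤ l)
    (hh : 1 ≤ h) (hH : h ≤ H) (hδ : 2 * δ ≤ ε) (hδ0 : 0 ≤ δ) (hc : k * h ^ (1 - δ) < h - l) :
    n * H ^ (1 - ε) < H - l := by
  have h0 : 0 < h := by linarith
  have H0 : 0 < H := by linarith
  have e1 : ∀ y : ℝ, 0 < y → ∀ s : ℝ, y ^ (1 - s) = y * (y ^ s)⁻¹ := fun y hy s => by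
    rw [sub_eq_add_neg, Real.rpow_add hy, Real.rpow_one, Real.rpow_neg hy.le]
  have hp : 0 < h ^ δ := Real.rpow_pos_of_pos h0 δ
  rw [e1 h h0] at hc
  rw [e1 H H0]
  set t := (h ^ δ)⁻¹ with ht
  have t0 : 0 < t := inv_pos.mpr hp
  have hkt : k * t < 1 := by nlinarith
  have h1 : (H ^ ε)⁻¹ ≤ t * t := by
    rw [ht, ← mul_inv, ← Real.rpow_add h0]
    refine inv_anti₀ (Real.rpow_pos_of_pos h0 _) ?_
    exact (Real.rpow_le_rpow_of_exponent_le hh (by linarith)).trans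
      (Real.rpow_le_rpow h0.le hH (by linarith))
  have h2 : n * (H ^ ε)⁻¹ ≤ k * t := by
    have k0 : 0 ≤ k * t := by positivity
    calc n * (H ^ ε)⁻¹ ≤ k * k * (t * t) := by gcongr
      _ = k * t * (k * t) := by ring
      _ ≤ k * t := mul_le_of_le_one_right k0 hkt.le
  nlinarith

theorem exists_rpow_shift (R : ℕ) {ε e δ : ℝ} (he : e ≤ ε) (hδ : δ < e) (hδ0 : 0 ≤ δ)
    (hδ1 : δ ≤ 1) : ∃ n1 : ℕ, ∀ n : ℕ, n1 ≤ n →
      (n : ℝ) ^ (1 - ε) ≤ ((n - R : ℕ) : ℝ) ^ (1 - δ) := by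
  obtain ⟨n1, h1⟩ := Filter.eventually_atTop.mp
    (((tendsto_rpow_atTop (sub_pos.mpr hδ)).comp tendsto_natCast_atTop_atTop).eventually_ge_atTop 2)
  refine ⟨n1 + 2 * R + 1, fun n hn => ?_⟩
  have h2 : (2 : ℝ) ≤ (n : ℝ) ^ (e - δ) := h1 n (by omega)
  have hn1 : (1 : ℝ) ≤ n := by exact_mod_cast (by omega : 1 ≤ n)
  have hn0 : (0 : ℝ) < n := by linarith
  have h3 : (n : ℝ) ≤ 2 * ((n - R : ℕ) : ℝ) := by exact_mod_cast (by omega : n ≤ 2 * (n - R))
  have h4 : (n : ℝ) ^ (1 - δ) ≤ 2 * ((n - R : ℕ) : ℝ) ^ (1 - δ) := by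
    refine (Real.rpow_le_rpow hn0.le h3 (by linarith)).trans ?_
    rw [Real.mul_rpow (by norm_num) (by positivity)]
    refine mul_le_mul_of_nonneg_right ?_ (by positivity)
    simpa using Real.rpow_le_rpow_of_exponent_le (x := 2) (by norm_num) (sub_le_self 1 hδ0)
  have h5 : (n : ℝ) ^ (1 - δ) = (n : ℝ) ^ (e - δ) * (n : ℝ) ^ (1 - e) := by
    rw [← Real.rpow_add hn0]
    congr 1
    ring
  have h6 : (n : ℝ) ^ (1 - ε) ≤ (n : ℝ) ^ (1 - e) :=
    Real.rpow_le_rpow_of_exponent_le hn1 (by linarith)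
  have h7 : 0 ≤ (n : ℝ) ^ (1 - e) := by positivity
  nlinarith

/-- The final statement: degrees `g k * n` with bounded `g k`, at most `R` distinct factors. -/
theorem final (A B C R : ℕ) (Q M ε : ℝ) (hA : 0 < A) (hB : 0 < B) (hC : 0 < C) (hε : 0 < ε) :
    ∃ n₀ : ℕ, ∀ (n l h : ℕ) (W g a : Fin 3 → ℕ) (x : (k : Fin 3) → Fin (g k * n) → ℕ), n₀ ≤ n →
      A * W 0 + B * W 1 = C * W 2 →
      (Nat.gcd (W 0) (W 1) : ℝ) / (∏ p ∈ (Nat.gcd (W 0) (W 1)).primeFactors, (p : ℝ)) ≤ Q →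
      2 ^ n ≤ W 0 * W 1 * W 2 →
      (∀ k, W k = a k * ∏ i, x k i ∧ 0 < g k ∧ g k ≤ R ∧ 0 < a k ∧
        (a k : ℝ) ≤ Real.exp ((n : ℝ) ^ (1 - ε)) ∧ (Finset.univ.image (x k)).card ≤ R ∧
        (∀ i, 0 < x k i ∧ l ≤ x k i ^ g k ∧ x k i ^ g k ≤ h) ∧
        ∀ i j, (x k i : ℝ) ≤ x k j + M * (x k j : ℝ) ^ (1 - ε)) →
      (n : ℝ) * (h : ℝ) ^ (1 - ε) < (h : ℝ) - l := by
  rcases Nat.eq_zero_or_pos R with rfl | hR
  · exact ⟨0, fun n l h W g a x _ _ _ _ hk => by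
      obtain ⟨-, h1, h2, -⟩ := hk 0
      omega⟩
  have hR' : (1 : ℝ) ≤ R := by exact_mod_cast hR
  obtain ⟨e, he0, he, he1⟩ : ∃ e : ℝ, 0 < e ∧ e ≤ ε ∧ e ≤ 1 / 2 :=
    ⟨min ε (1 / 2), lt_min hε (by norm_num), min_le_left _ _, min_le_right _ _⟩
  obtain ⟨δ, hδ0, hδ⟩ : ∃ δ : ℝ, 0 < δ ∧ δ * (2 * R) = e :=
    ⟨e / (2 * R), by positivity, by field_simp⟩
  have hδ2 : 2 * δ ≤ e := by nlinarith
  obtain ⟨n0, hcore⟩ := core A B C R (R * R) Q (R * |M|) δ hA hB hC hδ0 (by linarith)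
  obtain ⟨n1, hn1⟩ := exists_rpow_shift R he (by linarith : δ < e) hδ0.le (by linarith)
  refine ⟨n0 + n1 + 2 * R + 2, fun n l h W g a x hn heq hgcd h2n hk => ?_⟩
  choose hW hg hgR ha hae hcard hx hM using hk
  choose v m r hv hm hr hprod using fun k => group_factors (hg k) (by omega : R < n) (x k) (hcard k)
  choose j hj using hv
  have : Nonempty (Fin R) := ⟨⟨0, hR⟩⟩
  obtain ⟨⟨k0, i0⟩, -, hmax⟩ := Finset.exists_max_image (Finset.univ : Finset (Fin 3 × Fin R))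
    (fun p => v p.1 p.2 ^ g p.1) Finset.univ_nonempty
  set h' := v k0 i0 ^ g k0 with hh'
  have hle : ∀ k i, v k i ^ g k ≤ h' := fun k i => hmax (k, i) (Finset.mem_univ _)
  have hv0 : ∀ k i, 0 < v k i := fun k i => hj k i ▸ (hx k _).1
  have hh0 : 0 < h' := pow_pos (hv0 _ _) _
  have hWk : ∀ k, W k = a k * (∏ i, v k i ^ r k i) * ∏ i, (v k i ^ g k) ^ m k i := fun k => by
    rw [hW k, hprod k, mul_assoc]
  have hsol : Sol A B C R (R * R) Q δ (n - R) h' (fun k => a k * ∏ i, v k i ^ r k i)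
      (fun k i => v k i ^ g k) m := by
    refine ⟨?_, ?_, fun k => ?_, fun k => ?_, hm, fun k i => pow_pos (hv0 k i) _, hle⟩
    · simpa only [← hWk] using heq
    · simpa only [← hWk, GcdOk] using hgcd
    · exact Nat.mul_pos (ha k) (Finset.prod_pos fun i _ => pow_pos (hv0 k i) _)
    · rw [Nat.cast_mul]
      refine mul_le_mul ((hae k).trans (Real.exp_le_exp.mpr (hn1 n (by omega)))) ?_
        (by positivity) (by positivity)
      have h1 : ∏ i, v k i ^ r k i ≤ h' ^ (R * R) :=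
        calc ∏ i, v k i ^ r k i ≤ ∏ i, h' ^ r k i := Finset.prod_le_prod' fun i _ =>
              Nat.pow_le_pow_left ((Nat.le_self_pow (hg k).ne' _).trans (hle k i)) _
          _ = h' ^ (g k * R) := by rw [Finset.prod_pow_eq_pow_sum, hr]
          _ ≤ _ := Nat.pow_le_pow_right hh0 (Nat.mul_le_mul_right _ (hgR k))
      exact_mod_cast h1
  have hc := hcore (n - R) l h' _ _ m (by omega) hsol (by
      simp only [← hWk]
      rw [Fin.prod_univ_three]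
      exact (Nat.pow_le_pow_right (by norm_num) (Nat.sub_le _ _)).trans h2n) ⟨k0, i0, rfl⟩
    (fun k i i' => pow_window (hg k) (hgR k) (hv0 k i') (hle k i) he (by linarith) he0.le
      (by nlinarith) (by rw [hj, hj]; exact hM k _ _))
    (fun k i => hj k i ▸ (hx k _).2.1)
  have h3 : h' ≤ h := by rw [hh', hj]; exact (hx k0 _).2.2
  refine gap_transfer (k := ((n - R : ℕ) : ℝ)) (by exact_mod_cast (by omega : 1 ≤ n - R)) ?_
    (Nat.cast_nonneg _) (by exact_mod_cast hh0) (by exact_mod_cast h3) (by linarith) hδ0.le hc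
  have h4 : n ≤ (n - R) * (n - R) :=
    (by omega : n ≤ 2 * (n - R)).trans (Nat.mul_le_mul_right _ (by omega))
  exact_mod_cast h4

end Pool.Agent.Lib.MP_4ffbf9_nt.PR
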