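import Mathlib
import Pool.Agent.Shared.Subspace.RothAux

/-!
Gelfond's inequality for factors of a multivariate polynomial.
-/

set_option autoImplicit false

namespace Pool.Agent.Lib.MP_4ffbf9_nt.PR

open MvPolynomial Pool.Agent.Subspace

open Filter MeasureTheory Set Real in
theorem mahler_le_sup (p : Polynomial ℂ) {B : ℝ} (hB : ∀ z : ℂ, ‖z‖ = 1 → ‖p.eval z‖ ≤ B) :
    p.mahlerMeasure ≤ B := by
  have hB0 : 0 ≤ B := (norm_nonneg _).trans (hB 1 (by simp))
  by_cases hp : p = 0
  · simpa [hp] using hB0
  have hfin : {x : ℝ | p.eval (circleMap 0 1 x) ≠ 0} ∈ ae (volume.restrict (Icc 0 (2 * π))) := by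
    rw [mem_ae_iff, compl_def, Measure.restrict_apply' (by simp)]
    apply (Finite.of_sdiff _ <| finite_singleton (2 * π)).measure_zero
    simp only [ne_eq, mem_ofPred_eq, Decidable.not_not, inter_sdiff_assoc, Icc_sdiff_right]
    rw [ofPred_inter_eq_sep]
    apply Finite.of_finite_image (f := circleMap 0 1) ((Multiset.finite_toSet p.roots).subset _)
      <| fun _ h _ k l ↦ injOn_circleMap_of_abs_sub_le' one_ne_zero (by linarith) h.1 k.1 l
    simp [hp]
  have hpos : 0 < B := by
    have : (ae (volume.restrict (Icc (0 : ℝ) (2 * π)))).NeBot := by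
      rw [ae_neBot, Ne, Measure.restrict_eq_zero, Real.volume_Icc, ENNReal.ofReal_eq_zero]
      have := Real.pi_pos
      linarith
    obtain ⟨x, hx⟩ := Filter.nonempty_of_mem hfin
    exact (norm_pos_iff.mpr hx).trans_le (hB _ (by simp))
  rw [show B = rexp (circleAverage (fun _ ↦ log B) 0 1)
    by simp [circleAverage_def, mul_assoc, exp_log hpos],
    Polynomial.mahlerMeasure_def_of_ne_zero hp, circleAverage_def, smul_eq_mul]
  gcongr
  apply intervalIntegral.integral_mono_ae_restrict (by positivity)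
    p.intervalIntegrable_mahlerMeasure (by simp)
  filter_upwards [hfin] with x hx
  exact Real.log_le_log (norm_pos_iff.mpr hx) (hB _ (by simp))

theorem l1_finSucc {R : Type*} [NormedCommRing R] {d : ℕ} (f : MvPolynomial (Fin (d + 1)) R) :
    l1 f = ∑ a ∈ Finset.range (f.totalDegree + 1), l1 ((finSuccEquiv R d f).coeff a) := by
  classical
  have h1 : ∀ ν ∈ f.support, ν 0 ∈ Finset.range (f.totalDegree + 1) := by
    intro ν hν
    rw [Finset.mem_range, Nat.lt_succ_iff]
    exact (monomial_le_degreeOf 0 hν).trans (degreeOf_le_totalDegree f 0)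
  rw [l1, ← Finset.sum_fiberwise_of_maps_to h1]
  refine Finset.sum_congr rfl fun a _ => ?_
  rw [l1, ← image_support_finSuccEquiv, Finset.sum_image]
  · exact Finset.sum_congr rfl fun m _ => by rw [finSuccEquiv_coeff_coeff]
  · intro x _ y _ h
    exact Finsupp.cons_right_injective a h

theorem l1_coeff_finSucc_le {R : Type*} [NormedCommRing R] {d : ℕ}
    (f : MvPolynomial (Fin (d + 1)) R) (a : ℕ) : l1 ((finSuccEquiv R d f).coeff a) ≤ l1 f := by
  classical
  rw [l1]
  simp only [finSuccEquiv_coeff_coeff]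
  rw [← Finset.sum_image (g := fun m => Finsupp.cons a m) (f := fun ρ => ‖coeff ρ f‖)
    (fun x _ y _ h => Finsupp.cons_right_injective a h)]
  exact sum_norm_coeff_le_l1 _ _

theorem totalDegree_coeff_finSucc_le {R : Type*} [CommRing R] {d : ℕ}
    (f : MvPolynomial (Fin (d + 1)) R) (a : ℕ) :
    ((finSuccEquiv R d f).coeff a).totalDegree ≤ f.totalDegree := by
  by_cases h : (finSuccEquiv R d f).coeff a = 0
  · simp [h]
  · exact le_trans (Nat.le_add_right _ _) (totalDegree_coeff_finSuccEquiv_add_le f a h)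

theorem gelfond_torus {ι : Type*} (s : Finset ι) (e : ι → ℕ) (d : ℕ) :
    ∀ (f : ι → MvPolynomial (Fin d) ℂ) (B : ℝ), (∀ i ∈ s, (f i).totalDegree ≤ e i) →
      (∀ z : Fin d → ℂ, (∀ k, ‖z k‖ = 1) → ‖∏ i ∈ s, eval z (f i)‖ ≤ B) →
      ∏ i ∈ s, l1 (f i) ≤ 4 ^ (d * ∑ i ∈ s, e i) * B := by
  induction d with
  | zero =>
    intro f B _ hB
    have := hB (fun _ => 1) (fun k => k.elim0)
    rw [norm_prod] at this
    simp only [zero_mul, pow_zero, one_mul]
    refine le_trans (le_of_eq (Finset.prod_congr rfl fun i _ => ?_)) this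
    rw [eq_C_of_isEmpty (f i), l1_C, eval_C]
  | succ d ih =>
    intro f B he hB
    have hmax : ∀ i, ∃ a, ∀ b ∈ Finset.range ((f i).totalDegree + 1),
        l1 ((finSuccEquiv ℂ d (f i)).coeff b) ≤ l1 ((finSuccEquiv ℂ d (f i)).coeff a) := by
      intro i
      obtain ⟨a, -, ha⟩ := Finset.exists_max_image (Finset.range ((f i).totalDegree + 1))
        (fun b => l1 ((finSuccEquiv ℂ d (f i)).coeff b)) ⟨0, by simp⟩
      exact ⟨a, ha⟩
    choose a ha using hmax
    have h1 : ∀ i ∈ s, l1 (f i) ≤ 2 ^ e i * l1 ((finSuccEquiv ℂ d (f i)).coeff (a i)) := by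
      intro i hi
      rw [l1_finSucc]
      refine (Finset.sum_le_card_nsmul _ _ _ (ha i)).trans ?_
      rw [Finset.card_range, nsmul_eq_mul]
      refine mul_le_mul_of_nonneg_right ?_ (l1_nonneg _)
      have : (f i).totalDegree + 1 ≤ 2 ^ e i :=
        (Nat.succ_le_succ (he i hi)).trans Nat.lt_two_pow_self
      exact_mod_cast this
    have h2 := ih (fun i => (finSuccEquiv ℂ d (f i)).coeff (a i)) (2 ^ (∑ i ∈ s, e i) * B)
      (fun i hi => (totalDegree_coeff_finSucc_le _ _).trans (he i hi)) (by
        intro z hz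
        set q : ι → Polynomial ℂ := fun i => (finSuccEquiv ℂ d (f i)).map (eval z) with hq
        have h3 : ∀ i ∈ s, ‖eval z ((finSuccEquiv ℂ d (f i)).coeff (a i))‖ ≤
            2 ^ e i * (q i).mahlerMeasure := by
          intro i hi
          rw [← Polynomial.coeff_map]
          refine (Polynomial.norm_coeff_le_choose_mul_mahlerMeasure _ _).trans
            (mul_le_mul_of_nonneg_right ?_ (Polynomial.mahlerMeasure_nonneg _))
          have h4 : (q i).natDegree ≤ e i := by
            refine Polynomial.natDegree_map_le.trans ?_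
            rw [natDegree_finSuccEquiv]
            exact (degreeOf_le_totalDegree _ _).trans (he i hi)
          have := (Nat.choose_le_two_pow (q i).natDegree (a i)).trans
            (Nat.pow_le_pow_right (by norm_num) h4)
          exact_mod_cast this
        rw [norm_prod]
        refine (Finset.prod_le_prod (fun _ _ => norm_nonneg _) h3).trans ?_
        rw [Finset.prod_mul_distrib, Finset.prod_pow_eq_pow_sum]
        refine mul_le_mul_of_nonneg_left ?_ (by positivity)
        have h5 : ∀ u : Finset ι, ∏ i ∈ u, (q i).mahlerMeasure = (∏ i ∈ u, q i).mahlerMeasure := by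
          intro u
          classical
          induction u using Finset.induction_on with
          | empty => simp
          | insert j u hj ihu =>
            rw [Finset.prod_insert hj, Finset.prod_insert hj, ihu, Polynomial.mahlerMeasure_mul]
        rw [h5]
        refine mahler_le_sup _ fun y hy => ?_
        rw [Polynomial.eval_prod]
        have := hB (Fin.cons y z) (fun k => by
          refine Fin.cases ?_ (fun k => ?_) k
          · simpa using hy
          · simpa using hz k)
        simpa only [eval_eq_eval_mv_eval'] using this)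
    refine (Finset.prod_le_prod (fun _ _ => l1_nonneg _) h1).trans ?_
    rw [Finset.prod_mul_distrib, Finset.prod_pow_eq_pow_sum]
    refine (mul_le_mul_of_nonneg_left h2 (by positivity)).trans (le_of_eq ?_)
    rw [add_mul, one_mul, pow_add, show (4 : ℝ) = 2 * 2 by norm_num, mul_pow (2 : ℝ) 2 (∑ i ∈ s, e i)]
    ring

theorem l1_map_int {σ : Type*} (P : MvPolynomial σ ℤ) :
    l1 (map (Int.castRingHom ℂ) P) = l1 P := by
  rw [l1, l1, support_map_of_injective _ (Int.castRingHom ℂ).injective_int]
  refine Finset.sum_congr rfl fun ν _ => ?_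
  rw [coeff_map]
  simp [Int.norm_eq_abs]

theorem norm_eval_le_l1 {σ : Type*} (P : MvPolynomial σ ℂ) (z : σ → ℂ) (hz : ∀ k, ‖z k‖ = 1) :
    ‖eval z P‖ ≤ l1 P := by
  rw [eval_eq, l1]
  refine norm_sum_le_of_le _ fun ν _ => ?_
  simp [norm_prod, hz]

/-- Gelfond's inequality. -/
theorem gelfond {ι : Type*} (s : Finset ι) {d : ℕ} (f : ι → MvPolynomial (Fin d) ℤ) :
    ∏ i ∈ s, l1 (f i) ≤ 4 ^ (d * ∑ i ∈ s, (f i).totalDegree) * l1 (∏ i ∈ s, f i) := by
  have := gelfond_torus s (fun i => (f i).totalDegree) d (fun i => map (Int.castRingHom ℂ) (f i))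
    (l1 (∏ i ∈ s, f i)) (fun i _ => Finset.sup_mono (support_map_subset _ _)) (fun z hz => by
      rw [← map_prod (eval z), ← map_prod, ← l1_map_int]
      exact norm_eval_le_l1 _ z hz)
  simpa only [l1_map_int] using this

/-- The norm of a power dividing a polynomial. -/
theorem l1_pow_le_of_dvd {d : ℕ} {G V : MvPolynomial (Fin d) ℤ} (hV : V ≠ 0) {k : ℕ}
    (h : G ^ k ∣ V) : k * G.totalDegree ≤ V.totalDegree ∧
      l1 G ^ k ≤ 4 ^ (d * V.totalDegree) * l1 V := by
  obtain ⟨W, rfl⟩ := h
  have hW : W ≠ 0 := right_ne_zero_of_mul hV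
  have hdeg : ∀ j : ℕ, G ^ j ≠ 0 → (G ^ j).totalDegree = j * G.totalDegree := by
    intro j
    induction j with
    | zero => simp
    | succ j ihj =>
      intro h
      rw [pow_succ] at h ⊢
      rw [totalDegree_mul_of_isDomain (left_ne_zero_of_mul h) (right_ne_zero_of_mul h),
        ihj (left_ne_zero_of_mul h), add_mul, one_mul]
  have hd : (G ^ k * W).totalDegree = k * G.totalDegree + W.totalDegree := by
    rw [totalDegree_mul_of_isDomain (left_ne_zero_of_mul hV) hW, hdeg k (left_ne_zero_of_mul hV)]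
  refine ⟨by omega, ?_⟩
  have := gelfond (Finset.univ : Finset (Option (Fin k))) (fun o => o.elim W fun _ => G)
  simp only [Fintype.prod_option, Fintype.sum_option, Option.elim, Finset.prod_const,
    Finset.sum_const, Finset.card_univ, Fintype.card_fin, smul_eq_mul] at this
  rw [hd, add_comm, mul_comm (G ^ k)]
  refine le_trans ?_ this
  exact le_mul_of_one_le_left (pow_nonneg (l1_nonneg _) _) (one_le_l1 hW)

end Pool.Agent.Lib.MP_4ffbf9_nt.PR
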